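import Pool.Agent.W714.Mink.Gen

set_option autoImplicit false

/-!
# Calibration of invariant graphs
-/

namespace Pool.Agent.W714.Mink

open Pool.Agent.W714.Coin Set Topology Filter

variable {ℓ : ℝ} {S P M : ℝ → ℝ → ℝ}

lemma IsCirc.surj {g : ℝ → ℝ} (hg : IsCirc ℓ P M g) : Function.Surjective g := by
  intro y
  apply mem_range_of_exists_le_of_exists_ge hg.cont
  · exact ⟨y - ℓ, by have := hg.lt (y - ℓ); linarith⟩
  · exact ⟨y, (hg.gt y).le⟩

lemma IsCirc.contM (hG : IsGen ℓ S P M) {g : ℝ → ℝ} (hg : IsCirc ℓ P M g) :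
    Continuous fun x => M x (g x) := by
  rw [continuous_iff_continuousAt]
  intro x
  have h1 := hG.contM x (g x) (hg.gt x) (hg.lt x)
  have h2 : ContinuousAt (fun x => (x, g x)) x := continuousAt_id.prodMk hg.cont.continuousAt
  exact ContinuousAt.comp (f := fun x => (x, g x)) (x := x) h1 h2

/-- the calibration -/
theorem exists_calib (hG : IsGen ℓ S P M) {g : ℝ → ℝ} (hg : IsCirc ℓ P M g) :
    ∃ u : ℝ → ℝ, (∀ x, HasDerivAt u (M x (g x)) x) ∧
      (∀ x y, x < y → y < x + ℓ → S x y + u x - u y ≤ S x (g x) + u x - u (g x)) ∧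
      ∀ x x', S x (g x) + u x - u (g x) = S x' (g x') + u x' - u (g x') := by
  have hmc := hg.contM hG
  set u : ℝ → ℝ := fun x => ∫ t in (0:ℝ)..x, M t (g t) with hu
  have hud : ∀ x, HasDerivAt u (M x (g x)) x := fun x =>
    (hmc.integral_hasStrictDerivAt 0 x).hasDerivAt
  have hmax : ∀ x y, x < y → y < x + ℓ → S x y + u x - u y ≤ S x (g x) + u x - u (g x) := by
    intro x y hxy hyx
    have hd : ∀ t, x < t → t < x + ℓ →
        HasDerivAt (fun t => S x t + u x - u t) (P x t - M t (g t)) t := fun t h1 h2 =>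
      ((hG.dy x t h1 h2).add_const (u x)).sub (hud t)
    rcases lt_trichotomy y (g x) with h | h | h
    · obtain ⟨t, ht, hte⟩ := exists_hasDerivAt_eq_slope (fun t => S x t + u x - u t)
        (fun t => P x t - M t (g t)) h
        (fun t ht => (hd t (hxy.trans_le ht.1)
          (ht.2.trans_lt (hg.lt x))).continuousAt.continuousWithinAt)
        (fun t ht => hd t (hxy.trans ht.1) (ht.2.trans (hg.lt x)))
      obtain ⟨s, rfl⟩ := hg.surj t
      have hsx : s < x := hg.mono.lt_iff_lt.mp ht.2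
      have h1 : P s (g s) < P x (g s) := hG.monoP s x (g s) hsx (hxy.trans ht.1) (hg.lt s)
      rw [← hg.el s] at h1
      have h2 : 0 < g x - y := by linarith
      rw [eq_div_iff h2.ne'] at hte
      nlinarith [mul_pos (sub_pos.mpr h1) h2]
    · rw [h]
    · obtain ⟨t, ht, hte⟩ := exists_hasDerivAt_eq_slope (fun t => S x t + u x - u t)
        (fun t => P x t - M t (g t)) h
        (fun t ht => (hd t ((hg.gt x).trans_le ht.1)
          (ht.2.trans_lt hyx)).continuousAt.continuousWithinAt)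
        (fun t ht => hd t ((hg.gt x).trans ht.1) (ht.2.trans hyx))
      obtain ⟨s, rfl⟩ := hg.surj t
      have hsx : x < s := hg.mono.lt_iff_lt.mp ht.1
      have h1 : P x (g s) < P s (g s) := hG.monoP x s (g s) hsx (hg.gt s) (ht.2.trans hyx)
      rw [← hg.el s] at h1
      have h2 : 0 < y - g x := by linarith
      rw [eq_div_iff h2.ne'] at hte
      nlinarith [mul_pos (sub_pos.mpr h1) h2]
  refine ⟨u, hud, hmax, ?_⟩
  -- constancy
  have hderiv : ∀ x, HasDerivAt (fun x => S x (g x) + u x - u (g x)) 0 x := by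
    intro x
    rw [hasDerivAt_iff_isLittleO, Asymptotics.isLittleO_iff]
    intro ε hε
    -- continuity of `M (ξ) (g η)` at the diagonal
    have hk : ContinuousAt (fun p : ℝ × ℝ => M p.1 (g p.2) - M p.1 (g p.1)) (x, x) := by
      apply ContinuousAt.sub
      · have h1 := hG.contM x (g x) (hg.gt x) (hg.lt x)
        have h2 : ContinuousAt (fun p : ℝ × ℝ => (p.1, g p.2)) (x, x) := by
          have := hg.cont
          fun_prop
        exact ContinuousAt.comp (f := fun p : ℝ × ℝ => (p.1, g p.2)) (x := (x, x)) h1 h2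
      · exact (hmc.comp continuous_fst).continuousAt
    have hk0 : (fun p : ℝ × ℝ => M p.1 (g p.2) - M p.1 (g p.1)) (x, x) = 0 := by simp
    have e1 : ∀ᶠ p : ℝ × ℝ in 𝓝 (x, x), |M p.1 (g p.2) - M p.1 (g p.1)| < ε := by
      have := hk.eventually (Metric.ball_mem_nhds _ hε)
      filter_upwards [this] with p hp
      rw [sub_self, Real.dist_eq, sub_zero] at hp
      exact hp
    have e2 : ∀ᶠ p : ℝ × ℝ in 𝓝 (x, x), p.1 < g p.2 := by
      have hc : Continuous fun p : ℝ × ℝ => g p.2 := by
        have := hg.cont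
        fun_prop
      exact continuousAt_fst.eventually_lt hc.continuousAt (hg.gt x)
    have e3 : ∀ᶠ p : ℝ × ℝ in 𝓝 (x, x), g p.2 < p.1 + ℓ := by
      have hc : Continuous fun p : ℝ × ℝ => g p.2 := by
        have := hg.cont
        fun_prop
      exact hc.continuousAt.eventually_lt (by fun_prop) (hg.lt x)
    have e4 := (e1.and (e2.and e3))
    rw [Metric.eventually_nhds_iff] at e4
    obtain ⟨δ, hδ, h4⟩ := e4
    rw [Metric.eventually_nhds_iff]
    refine ⟨δ, hδ, fun x' hx' => ?_⟩
    rw [Real.dist_eq] at hx'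
    have hbox : ∀ t ∈ uIcc x x', ∀ η, (η = x ∨ η = x') →
        |M t (g η) - M t (g t)| < ε ∧ t < g η ∧ g η < t + ℓ := by
      intro t ht η hη
      apply h4 (y := (t, η))
      rw [Prod.dist_eq, max_lt_iff]
      have h5 : |t - x| ≤ |x' - x| := by
        have := abs_sub_left_of_mem_uIcc ht
        exact this
      constructor
      · rw [Real.dist_eq]; exact h5.trans_lt hx'
      · rw [Real.dist_eq]
        rcases hη with rfl | rfl
        · simpa using hδ
        · exact hx'
    have hmv : ∀ η, (η = x ∨ η = x') →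
        |(S x' (g η) + u x' - u (g η)) - (S x (g η) + u x - u (g η))| ≤ ε * |x' - x| := by
      intro η hη
      have h6 := (convex_uIcc x x').norm_image_sub_le_of_norm_hasDerivWithin_le
        (f := fun t => S t (g η) + u t - u (g η)) (f' := fun t => -(M t (g η)) + M t (g t))
        (C := ε)
        (fun t ht => by
          obtain ⟨-, h7, h8⟩ := hbox t ht η hη
          exact (((hG.dx t (g η) h7 h8).add (hud t)).sub_const _).hasDerivWithinAt)
        (fun t ht => by
          obtain ⟨h7, -, -⟩ := hbox t ht η hη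
          rw [Real.norm_eq_abs, neg_add_eq_sub, abs_sub_comm]
          exact h7.le) left_mem_uIcc right_mem_uIcc
      simpa [Real.norm_eq_abs] using h6
    have a1 := abs_le.mp (hmv x (Or.inl rfl))
    have a2 := abs_le.mp (hmv x' (Or.inr rfl))
    obtain ⟨-, b1, b2⟩ := hbox x' right_mem_uIcc x (Or.inl rfl)
    obtain ⟨-, b3, b4⟩ := hbox x left_mem_uIcc x' (Or.inr rfl)
    have m1 := hmax x' (g x) b1 b2
    have m2 := hmax x (g x') b3 b4
    simp only [smul_zero, sub_zero]
    rw [Real.norm_eq_abs, Real.norm_eq_abs, abs_le]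
    constructor <;> linarith
  intro x x'
  exact is_const_of_deriv_eq_zero (fun x => (hderiv x).differentiableAt)
    (fun x => (hderiv x).deriv) x x'

/-- a lift of a homeomorphism of the circle which moves points by at most `c` -/
structure IsShift (ℓ c : ℝ) (σ : ℝ → ℝ) : Prop where
  mono : StrictMono σ
  per : ∀ x, σ (x + ℓ) = σ x + ℓ
  near : ∀ x, |σ x - x| ≤ c

/-- the comparison with the shifted orbit -/
theorem shift_bound (hG : IsGen ℓ S P M) {B : ℝ}
    (hB : ∀ x y, x < y → y < x + ℓ → |M x y| ≤ B) {g : ℝ → ℝ} (hg : IsCirc ℓ P M g)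
    {c : ℝ} {σ : ℝ → ℝ} (hσ : IsShift ℓ c σ) : ∃ W : ℝ → ℝ, (∀ x, |W x| ≤ B * c) ∧
      ∀ x, S (σ x) (σ (g x)) - S x (g x) ≤ W (g x) - W x := by
  obtain ⟨u, hud, hmax, hc⟩ := exists_calib hG hg
  have hB0 : 0 ≤ B := (abs_nonneg _).trans (hB 0 (g 0) (hg.gt 0) (hg.lt 0))
  refine ⟨fun x => u (σ x) - u x, fun x => ?_, fun x => ?_⟩
  · have h6 := (convex_univ (𝕜 := ℝ) (E := ℝ)).norm_image_sub_le_of_norm_hasDerivWithin_le
        (f := u) (f' := fun t => M t (g t)) (C := B)
        (fun t _ => (hud t).hasDerivWithinAt)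
        (fun t _ => hB t (g t) (hg.gt t) (hg.lt t)) (mem_univ x) (mem_univ (σ x))
    rw [Real.norm_eq_abs, Real.norm_eq_abs] at h6
    exact h6.trans (mul_le_mul_of_nonneg_left (hσ.near x) hB0)
  · have h1 := hmax (σ x) (σ (g x)) (hσ.mono (hg.gt x)) (by rw [← hσ.per]; exact hσ.mono (hg.lt x))
    have h2 := hc (σ x) x
    simp only
    linarith

end Pool.Agent.W714.Mink
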