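import Pool.Agent.W714.Mink.Curve
import Pool.Agent.W714.Mink.Calib

set_option autoImplicit false

/-!
# Arc length and total curvature
-/

namespace Pool.Agent.W714.Mink

open Complex Set Topology Filter MeasureTheory
open Pool.Agent.W714.Coin (arg_mem_Ioo_of_im_pos mem_slitPlane_of_im_pos hasDerivAt_arg div_im_eq
  continuous_coe coe_surjL)
open scoped ComplexConjugate

variable {γ : ℝ → ℂ} {L : ℝ}

lemma RCurve.contDiff_deriv (h : RCurve γ L) : ContDiff ℝ 1 (deriv γ) := by
  have h1 := h.smooth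
  rw [show (2 : WithTop ℕ∞) = 1 + 1 by norm_num, contDiff_succ_iff_deriv] at h1
  exact h1.2.2

/-- arc length -/
noncomputable def lam (γ : ℝ → ℂ) (t : ℝ) : ℝ := ∫ τ in (0:ℝ)..t, ‖deriv γ τ‖

lemma hasDerivAt_lam (h : RCurve γ L) (t : ℝ) : HasDerivAt (lam γ) ‖deriv γ t‖ t :=
  ((continuous_deriv' h).norm.integral_hasStrictDerivAt 0 t).hasDerivAt

lemma strictMono_lam (h : RCurve γ L) : StrictMono (lam γ) := by
  apply strictMono_of_deriv_pos
  intro t
  rw [(hasDerivAt_lam h t).deriv]
  exact norm_pos_iff.mpr (h.reg t)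

lemma lam_zero : lam γ 0 = 0 := by simp [lam]

lemma lam_add (h : RCurve γ L) (t : ℝ) : lam γ (t + L) = lam γ t + lam γ L := by
  have hp : Function.Periodic (fun τ => ‖deriv γ τ‖) L := by
    intro τ
    simp only [periodic_deriv h τ]
  have hc := (continuous_deriv' h).norm
  have h1 := intervalIntegral.integral_add_adjacent_intervals (μ := volume)
    (hc.intervalIntegrable 0 t) (hc.intervalIntegrable t (t + L))
  have h2 := hp.intervalIntegral_add_eq t 0
  rw [zero_add] at h2
  unfold lam
  rw [← h1, h2]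

lemma lam_pos (h : RCurve γ L) : 0 < lam γ L := by
  rw [← lam_zero (γ := γ)]
  exact strictMono_lam h h.pos

lemma lam_add_int (h : RCurve γ L) (n : ℤ) (t : ℝ) :
    lam γ (t + n * L) = lam γ t + n * lam γ L := by
  induction n using Int.induction_on with
  | zero => simp
  | succ i ih =>
    have h1 := lam_add h (t + i * L)
    push_cast at ih ⊢
    rw [show t + ((i:ℝ) + 1) * L = t + i * L + L by ring, h1, ih]
    ring
  | pred i ih =>
    have h1 := lam_add h (t + (-(i:ℝ) - 1) * L)
    push_cast at ih ⊢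
    rw [show t + (-(i:ℝ) - 1) * L + L = t + -(i:ℝ) * L by ring, ih] at h1
    linarith

lemma surjective_lam (h : RCurve γ L) : Function.Surjective (lam γ) := by
  intro y
  have hc : Continuous (lam γ) :=
    continuous_iff_continuousAt.mpr fun t => (hasDerivAt_lam h t).continuousAt
  have hpos := lam_pos h
  apply mem_range_of_exists_le_of_exists_ge hc
  · obtain ⟨n, hn⟩ := exists_nat_gt (-y / lam γ L)
    rw [div_lt_iff₀ hpos] at hn
    refine ⟨0 + (-(n:ℤ) : ℤ) * L, ?_⟩
    rw [lam_add_int h, lam_zero]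
    push_cast
    linarith
  · obtain ⟨n, hn⟩ := exists_nat_gt (y / lam γ L)
    rw [div_lt_iff₀ hpos] at hn
    refine ⟨0 + (n:ℤ) * L, ?_⟩
    rw [lam_add_int h, lam_zero]
    push_cast
    linarith

/-- arc length as a homeomorphism -/
noncomputable def lamH (h : RCurve γ L) : ℝ ≃ₜ ℝ :=
  ((strictMono_lam h).orderIsoOfSurjective (lam γ) (surjective_lam h)).toHomeomorph

lemma lamH_apply (h : RCurve γ L) (t : ℝ) : lamH h t = lam γ t := rfl

/-- the inverse of arc length -/
noncomputable def kap (h : RCurve γ L) (s : ℝ) : ℝ := (lamH h).symm s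

lemma lam_kap (h : RCurve γ L) (s : ℝ) : lam γ (kap h s) = s := (lamH h).apply_symm_apply s

lemma kap_lam (h : RCurve γ L) (t : ℝ) : kap h (lam γ t) = t := (lamH h).symm_apply_apply t

lemma continuous_kap (h : RCurve γ L) : Continuous (kap h) := (lamH h).symm.continuous

lemma strictMono_kap (h : RCurve γ L) : StrictMono (kap h) := by
  intro a b hab
  rw [← (strictMono_lam h).lt_iff_lt, lam_kap, lam_kap]
  exact hab

lemma kap_add (h : RCurve γ L) (s : ℝ) : kap h (s + lam γ L) = kap h s + L := by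
  apply (strictMono_lam h).injective
  rw [lam_kap, lam_add h, lam_kap]

lemma contDiff_lam (h : RCurve γ L) : ContDiff ℝ 2 (lam γ) := by
  rw [show (2 : WithTop ℕ∞) = 1 + 1 by norm_num, contDiff_succ_iff_deriv]
  refine ⟨fun t => (hasDerivAt_lam h t).differentiableAt, by simp, ?_⟩
  have e : deriv (lam γ) = fun t => ‖deriv γ t‖ := by
    funext t; exact (hasDerivAt_lam h t).deriv
  rw [e]
  exact h.contDiff_deriv.norm ℝ h.reg

lemma contDiff_kap (h : RCurve γ L) : ContDiff ℝ 2 (kap h) :=
  (lamH h).contDiff_symm_deriv (f' := fun t => ‖deriv γ t‖)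
    (fun t => (norm_pos_iff.mpr (h.reg t)).ne') (fun t => hasDerivAt_lam h t) (contDiff_lam h)

lemma hasDerivAt_kap (h : RCurve γ L) (s : ℝ) :
    HasDerivAt (kap h) (‖deriv γ (kap h s)‖⁻¹) s :=
  HasDerivAt.of_local_left_inverse (continuous_kap h).continuousAt (hasDerivAt_lam h (kap h s))
    (norm_pos_iff.mpr (h.reg _)).ne' (Eventually.of_forall fun s => lam_kap h s)

/-- the arc length parametrisation -/
noncomputable def cc (h : RCurve γ L) (s : ℝ) : ℂ := γ (kap h s)

lemma hasDerivAt_cc (h : RCurve γ L) (s : ℝ) :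
    HasDerivAt (cc h) (((‖deriv γ (kap h s)‖⁻¹ : ℝ) : ℂ) * deriv γ (kap h s)) s := by
  have h1 := HasDerivAt.scomp s (hasDerivAt h (kap h s)) (hasDerivAt_kap h s)
  rw [Complex.real_smul] at h1
  exact h1

lemma cc_lam (h : RCurve γ L) (t : ℝ) : cc h (lam γ t) = γ t := by rw [cc, kap_lam]

lemma norm_deriv_cc (h : RCurve γ L) (s : ℝ) : ‖deriv (cc h) s‖ = 1 := by
  have := norm_pos_iff.mpr (h.reg (kap h s))
  rw [(hasDerivAt_cc h s).deriv, norm_mul, Complex.norm_real, norm_inv, norm_norm]
  field_simp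

lemma deriv_eq_cc (h : RCurve γ L) (t : ℝ) :
    deriv γ t = ((‖deriv γ t‖ : ℝ) : ℂ) * deriv (cc h) (lam γ t) := by
  rw [(hasDerivAt_cc h _).deriv, kap_lam, ← mul_assoc, ← ofReal_mul,
    mul_inv_cancel₀ (norm_pos_iff.mpr (h.reg t)).ne', ofReal_one, one_mul]

/-- the arc length parametrisation is a regular curve -/
lemma rcurve_cc (h : RCurve γ L) : RCurve (cc h) (lam γ L) := by
  refine ⟨lam_pos h, h.smooth.comp (contDiff_kap h), ?_, ?_, ?_⟩
  · intro s
    rw [cc, cc, kap_add h, h.per]
  · intro s h0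
    have := norm_deriv_cc h s
    rw [h0, norm_zero] at this
    exact zero_ne_one this
  · intro s x hx
    have h1 := h.left (kap h s) (kap h (s + x) - kap h s) (by
      constructor
      · have := strictMono_kap h (show s < s + x by linarith [hx.1])
        linarith
      · have := strictMono_kap h (show s + x < s + lam γ L by linarith [hx.2])
        rw [kap_add] at this
        linarith)
    rw [add_sub_cancel] at h1
    rw [(hasDerivAt_cc h s).deriv, map_mul, conj_ofReal, mul_assoc, Complex.im_ofReal_mul]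
    exact mul_pos (inv_pos.mpr (norm_pos_iff.mpr (h.reg _))) h1

/-- shift of the arc length parameter -/
noncomputable def shf (h : RCurve γ L) (ε t : ℝ) : ℝ := kap h (lam γ t + ε)

lemma continuous_shf (h : RCurve γ L) (ε : ℝ) : Continuous (shf h ε) := by
  have hc : Continuous (lam γ) :=
    continuous_iff_continuousAt.mpr fun t => (hasDerivAt_lam h t).continuousAt
  have := continuous_kap h
  unfold shf
  fun_prop

lemma shf_add (h : RCurve γ L) (ε t : ℝ) : shf h ε (t + L) = shf h ε t + L := by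
  rw [shf, shf, lam_add h, show lam γ t + lam γ L + ε = lam γ t + ε + lam γ L by ring, kap_add]

lemma exists_isShift (h : RCurve γ L) (ε : ℝ) : ∃ c, IsShift L c (shf h ε) := by
  have hc : Continuous fun t => shf h ε t - t := by
    have := continuous_shf h ε
    fun_prop
  have hp : Function.Periodic (fun t => shf h ε t - t) L := by
    intro t
    simp only [shf_add]
    ring
  obtain ⟨c, hcc⟩ := isCompact_Icc.exists_bound_of_continuousOn (s := Icc 0 L) hc.continuousOn
  refine ⟨c, ?_, shf_add h ε, fun t => ?_⟩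
  · intro a b hab
    exact strictMono_kap h (by linarith [strictMono_lam h hab])
  · obtain ⟨t', ht', he⟩ := hp.exists_mem_Ico₀ h.pos t
    have := hcc t' ⟨ht'.1, ht'.2.le⟩
    rw [he]
    exact this

/-! ### total curvature -/

lemma const_of_exp_eq_one {D : ℝ → ℝ} {a b : ℝ} (hD : ContinuousOn D (Ioo a b))
    (h : ∀ x ∈ Ioo a b, exp (D x * I) = 1) : ∃ n : ℤ, ∀ x ∈ Ioo a b, D x = 2 * Real.pi * n := by
  rcases (Ioo a b).eq_empty_or_nonempty with he | ⟨x₀, hx₀⟩
  · exact ⟨0, fun x hx => by rw [he] at hx; exact absurd hx (notMem_empty _)⟩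
  have h1 : ∀ x, ∃ m : ℤ, x ∈ Ioo a b → D x = 2 * Real.pi * m := by
    intro x
    by_cases hx : x ∈ Ioo a b
    · have h2 := h x hx
      rw [exp_eq_one_iff] at h2
      obtain ⟨m, hm⟩ := h2
      refine ⟨m, fun _ => ?_⟩
      have : (D x : ℂ) = m * (2 * Real.pi) := by
        have h3 : (D x : ℂ) * I = (m * (2 * Real.pi)) * I := by rw [hm]; ring
        exact mul_right_cancel₀ I_ne_zero h3
      have h4 : D x = m * (2 * Real.pi) := by exact_mod_cast this
      rw [h4]; ring
    · exact ⟨0, fun h => absurd h hx⟩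
  choose m hm using h1
  have hpi := Real.pi_pos
  have hmc : ContinuousOn m (Ioo a b) := by
    rw [Int.isClosedEmbedding_coe_real.isEmbedding.continuousOn_iff]
    have h2 : ContinuousOn (fun x => D x / (2 * Real.pi)) (Ioo a b) := hD.div_const _
    apply h2.congr
    intro x hx
    simp only [Function.comp]
    rw [hm x hx]
    field_simp
  refine ⟨m x₀, fun x hx => ?_⟩
  rw [hm x hx, isPreconnected_Ioo.constant hmc hx hx₀]

/-- curvature of an arc length parametrisation -/
noncomputable def curv (γ : ℝ → ℂ) (s : ℝ) : ℝ := (conj (deriv γ s) * deriv (deriv γ) s).im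

lemma hasDerivAt_deriv (h : RCurve γ L) (s : ℝ) :
    HasDerivAt (deriv γ) (deriv (deriv γ) s) s :=
  ((h.contDiff_deriv.differentiable (by simp)) s).hasDerivAt

lemma continuous_deriv2 (h : RCurve γ L) : Continuous (deriv (deriv γ)) :=
  h.contDiff_deriv.continuous_deriv (by simp)

lemma continuous_curv (h : RCurve γ L) : Continuous (curv γ) := by
  have h1 := continuous_deriv' h
  have h2 := continuous_deriv2 h
  unfold curv
  exact Complex.continuous_im.comp ((Complex.continuous_conj.comp h1).mul h2)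

lemma deriv2_eq (h : RCurve γ L) (hu : ∀ s, ‖deriv γ s‖ = 1) (s : ℝ) :
    deriv (deriv γ) s = I * curv γ s * deriv γ s := by
  have hd := hasDerivAt_deriv h s
  have h1 : HasDerivAt (fun s => conj (deriv γ s) * deriv γ s)
      (conj (deriv (deriv γ) s) * deriv γ s + conj (deriv γ s) * deriv (deriv γ) s) s :=
    (hd.star).mul hd
  have h2 : (fun s => conj (deriv γ s) * deriv γ s) = fun _ => (1:ℂ) := by
    funext s
    rw [conj_deriv_mul h, hu]; norm_num
  rw [h2] at h1
  have h3 := h1.unique (hasDerivAt_const s (1:ℂ))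
  have h4 : (conj (deriv γ s) * deriv (deriv γ) s).re = 0 := by
    have := congrArg Complex.re h3
    simp only [Complex.add_re, Complex.mul_re, Complex.conj_re, Complex.conj_im,
      Complex.zero_re] at this ⊢
    linarith
  have h5 : conj (deriv γ s) * deriv (deriv γ) s = I * curv γ s := by
    apply Complex.ext
    · rw [h4]; simp
    · rw [curv]; simp
  have h6 : deriv γ s * conj (deriv γ s) = 1 := by
    rw [mul_comm, conj_deriv_mul h, hu]; norm_num
  calc deriv (deriv γ) s = (deriv γ s * conj (deriv γ s)) * deriv (deriv γ) s := by rw [h6, one_mul]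
    _ = deriv γ s * (conj (deriv γ s) * deriv (deriv γ) s) := by ring
    _ = _ := by rw [h5]; ring

/-- **Total curvature.** -/
theorem turning (h : RCurve γ L) (hu : ∀ s, ‖deriv γ s‖ = 1) :
    ∫ s in (0:ℝ)..L, curv γ s = 2 * Real.pi := by
  have hcv := continuous_curv h
  set F : ℝ → ℝ := fun x => ∫ s in (0:ℝ)..x, curv γ s with hF
  have hFd : ∀ x, HasDerivAt F (curv γ x) x := fun x =>
    (hcv.integral_hasStrictDerivAt 0 x).hasDerivAt
  have hFc : Continuous F := continuous_iff_continuousAt.mpr fun x => (hFd x).continuousAt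
  -- the tangent
  have htan : ∀ x, deriv γ x = deriv γ 0 * exp (F x * I) := by
    have hd : ∀ x, HasDerivAt (fun x => deriv γ x * exp (-(F x * I))) 0 x := by
      intro x
      have h1 := hasDerivAt_deriv h x
      have h2 : HasDerivAt (fun x => -((F x : ℂ) * I)) (-((curv γ x : ℂ) * I)) x :=
        (((hFd x).ofReal_comp).mul_const I).neg
      have h3 := h1.mul h2.cexp
      refine HasDerivAt.congr_deriv h3 ?_
      rw [deriv2_eq h hu x]
      ring
    intro x
    have h1 := is_const_of_deriv_eq_zero (fun x => (hd x).differentiableAt)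
      (fun x => (hd x).deriv) x 0
    have e0 : F 0 = 0 := by simp [hF]
    rw [e0, ofReal_zero, zero_mul, neg_zero, exp_zero, mul_one] at h1
    rw [← h1, mul_assoc, ← exp_add, neg_add_cancel, exp_zero, mul_one]
  set w : AddCircle L := ((0:ℝ) : AddCircle L) with hw
  set Ψ : ℝ → ℝ := fun x => angA h w x + angB h w x with hΨ
  have hexp : ∀ x ∈ Ioo 0 L, exp (((F x - Ψ x : ℝ) : ℂ) * I) = 1 := by
    intro x hx
    have hA := norm_mul_exp_arg_mul_I (ZA h w x)
    have hB := norm_mul_exp_arg_mul_I (ZB h w x)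
    have eA : ZA h w x = conj (deriv γ 0) * (γ x - γ 0) := by rw [hw, ZA_coe, zero_add]
    have eB : ZB h w x = conj (γ x - γ 0) * deriv γ x := by rw [hw, ZB_coe, zero_add]
    have hne : γ x - γ 0 ≠ 0 := by
      have := gamma_ne h 0 hx
      rw [zero_add] at this
      exact sub_ne_zero.mpr this
    have nA : ‖ZA h w x‖ = ‖γ x - γ 0‖ := by
      rw [eA, norm_mul, Complex.norm_conj, hu, one_mul]
    have nB : ‖ZB h w x‖ = ‖γ x - γ 0‖ := by
      rw [eB, norm_mul, Complex.norm_conj, hu, mul_one]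
    rw [nA] at hA
    rw [nB] at hB
    have hn : ((‖γ x - γ 0‖ : ℝ) : ℂ) ≠ 0 := by exact_mod_cast (norm_pos_iff.mpr hne).ne'
    have hvv : conj (γ x - γ 0) * (γ x - γ 0) = ((‖γ x - γ 0‖ : ℝ) : ℂ) ^ 2 := by
      rw [mul_comm, Complex.mul_conj, Complex.normSq_eq_norm_sq]; push_cast; rfl
    have h0 : conj (deriv γ 0) * deriv γ 0 = 1 := by rw [conj_deriv_mul h, hu]; norm_num
    have h1 : exp (angA h w x * I) * exp (angB h w x * I) = exp (F x * I) := by
      apply mul_left_cancel₀ (pow_ne_zero 2 hn)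
      have : ((‖γ x - γ 0‖ : ℝ) : ℂ) ^ 2 * (exp (angA h w x * I) * exp (angB h w x * I))
          = (((‖γ x - γ 0‖ : ℝ) : ℂ) * exp (arg (ZA h w x) * I)) *
            (((‖γ x - γ 0‖ : ℝ) : ℂ) * exp (arg (ZB h w x) * I)) := by
        rw [angA, angB]; ring
      rw [this, hA, hB, eA, eB, htan x]
      linear_combination (conj (deriv γ 0) * deriv γ 0 * exp (F x * I)) * hvv
        + ((‖γ x - γ 0‖ : ℝ) : ℂ) ^ 2 * exp (F x * I) * h0
    have h2 : (((F x - Ψ x : ℝ) : ℂ) * I) = F x * I - (angA h w x * I + angB h w x * I) := by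
      simp only [hΨ]; push_cast; ring
    rw [h2, exp_sub, exp_add, h1, div_self (exp_ne_zero _)]
  have hΨc : ContinuousOn Ψ (Ioo 0 L) := by
    intro x hx
    have h1 := continuousAt_angA h w hx
    have h2 := continuousAt_angB h w hx
    exact ((ContinuousAt.comp (f := fun x : ℝ => (w, x)) (x := x) h1 (by fun_prop)).add
      (ContinuousAt.comp (f := fun x : ℝ => (w, x)) (x := x) h2 (by fun_prop))).continuousWithinAt
  obtain ⟨n, hn⟩ := const_of_exp_eq_one (hFc.continuousOn.sub hΨc) hexp
  -- the limits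
  have hpos := h.sq_norm_pos' 0
  have hL := h.pos
  have dA : ∀ x, HasDerivAt (fun x : ℝ => ZA h w x) (conj (deriv γ 0) * deriv γ x) x := by
    intro x
    have h2 : HasDerivAt (fun x : ℝ => conj (deriv γ 0) * (γ x - γ 0))
        (conj (deriv γ 0) * deriv γ x) x := ((hasDerivAt h x).sub_const _).const_mul _
    simpa only [hw, ZA_coe, zero_add] using h2
  have dB : ∀ x, HasDerivAt (fun x : ℝ => ZB h w x)
      (conj (deriv γ x) * deriv γ x + conj (γ x - γ 0) * deriv (deriv γ) x) x := by
    intro x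
    have h2 : HasDerivAt (fun x : ℝ => conj (γ x - γ 0) * deriv γ x)
        (conj (deriv γ x) * deriv γ x + conj (γ x - γ 0) * deriv (deriv γ) x) x :=
      (((hasDerivAt h x).sub_const (γ 0)).star).mul (hasDerivAt_deriv h x)
    simpa only [hw, ZB_coe, zero_add] using h2
  have hgL : γ L = γ 0 := by have := h.per 0; rwa [zero_add] at this
  have hgL' : deriv γ L = deriv γ 0 := by have := (periodic_deriv h) 0; rwa [zero_add] at this
  have z0 : ZA h w 0 = 0 := by rw [hw, ZA_coe]; simp
  have z1 : ZA h w L = 0 := by rw [hw, ZA_coe]; simp [hgL]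
  have z2 : ZB h w 0 = 0 := by rw [hw, ZB_coe]; simp
  have z3 : ZB h w L = 0 := by rw [hw, ZB_coe]; simp [hgL]
  have a0 := tendsto_arg_right hpos (by have := dA 0; rwa [conj_deriv_mul h] at this) z0
  have a1 := tendsto_arg_left hpos (by
    have := dA L
    rw [hgL', conj_deriv_mul h] at this
    exact this) z1 (by filter_upwards [Ioo_mem_nhdsLT hL] with x hx using ZA_im_pos h w hx)
  have b0 := tendsto_arg_right hpos (by
    have := dB 0
    rw [conj_deriv_mul h, sub_self, map_zero, zero_mul, add_zero] at this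
    exact this) z2
  have b1 := tendsto_arg_left hpos (by
    have := dB L
    rw [conj_deriv_mul h, hgL, hgL', sub_self, map_zero, zero_mul, add_zero] at this
    exact this) z3 (by filter_upwards [Ioo_mem_nhdsLT hL] with x hx using ZB_im_pos h w hx)
  have t0 : Tendsto (fun x => F x - Ψ x) (𝓝[>] 0) (𝓝 (F 0 - (0 + 0))) :=
    (hFc.continuousAt.tendsto.mono_left nhdsWithin_le_nhds).sub (a0.add b0)
  have t1 : Tendsto (fun x => F x - Ψ x) (𝓝[<] L) (𝓝 (F L - (Real.pi + Real.pi))) :=
    (hFc.continuousAt.tendsto.mono_left nhdsWithin_le_nhds).sub (a1.add b1)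
  have c0 : Tendsto (fun x => F x - Ψ x) (𝓝[>] 0) (𝓝 (2 * Real.pi * n)) := by
    apply tendsto_const_nhds.congr'
    filter_upwards [Ioo_mem_nhdsGT hL] with x hx
    exact (hn x hx).symm
  have c1 : Tendsto (fun x => F x - Ψ x) (𝓝[<] L) (𝓝 (2 * Real.pi * n)) := by
    apply tendsto_const_nhds.congr'
    filter_upwards [Ioo_mem_nhdsLT hL] with x hx
    exact (hn x hx).symm
  have u0 := tendsto_nhds_unique t0 c0
  have u1 := tendsto_nhds_unique t1 c1
  have e0 : F 0 = 0 := by simp [hF]
  rw [e0] at u0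
  change F L = 2 * Real.pi
  linarith

end Pool.Agent.W714.Mink
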