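import Pool.Agent.W714.Mink.Dens

set_option autoImplicit false

/-!
# The shift inequality along all orbits
-/

namespace Pool.Agent.W714.Mink

open Pool.Agent.W714.Coin Set Topology Filter

variable {ℓ : ℝ} {S P M : ℝ → ℝ → ℝ}

/-- the height of an invariant graph as a function on the circle -/
noncomputable def hgt {g : ℝ → ℝ} (hg : IsCirc ℓ P M g) : AddCircle ℓ → ℝ :=
  (show Function.Periodic (fun x => g x - x) ℓ by
    intro x; simp only [hg.per]; ring).lift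

lemma hgt_coe {g : ℝ → ℝ} (hg : IsCirc ℓ P M g) (x : ℝ) : hgt hg (x : AddCircle ℓ) = g x - x := rfl

lemma continuous_hgt {g : ℝ → ℝ} (hg : IsCirc ℓ P M g) : Continuous (hgt hg) := by
  have : Continuous fun x => g x - x := by
    have := hg.cont
    fun_prop
  exact continuous_coinduced_dom.mpr this

/-- the orbit bound on an invariant graph -/
lemma orbit_bound (hG : IsGen ℓ S P M) {T : PC ℓ → PC ℓ} (hT : IsMap P M T) {B : ℝ}
    (hB : ∀ x y, x < y → y < x + ℓ → |M x y| ≤ B) {c : ℝ} {σ : ℝ → ℝ} (hσ : IsShift ℓ c σ)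
    (Δ : PC ℓ → ℝ)
    (hΔ : ∀ (x : ℝ) (y : Ioo (0:ℝ) ℓ),
      Δ ((x : AddCircle ℓ), y) = S (σ x) (σ (x + y)) - S x (x + y))
    {g : ℝ → ℝ} (hg : IsCirc ℓ P M g) {Γ : Set (PC ℓ)} (hinv : T '' Γ = Γ)
    (hΓ : ∀ (x : ℝ) (y : Ioo (0:ℝ) ℓ), ((x : AddCircle ℓ), y) ∈ Γ ↔ (y : ℝ) = g x - x)
    {z : PC ℓ} (hz : z ∈ Γ) (N : ℕ) : ∑ i ∈ Finset.range N, Δ (T^[i] z) ≤ 2 * B * c := by
  obtain ⟨W, hW, hW'⟩ := shift_bound hG hB hg hσ
  obtain ⟨x, hx⟩ := coe_surjP z.1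
  have horb : ∀ i, (T^[i] z).1 = ((g^[i] x : ℝ) : AddCircle ℓ) ∧ T^[i] z ∈ Γ ∧
      ((T^[i] z).2 : ℝ) = g^[i + 1] x - g^[i] x := by
    intro i
    induction i with
    | zero =>
      refine ⟨by simp [hx], hz, ?_⟩
      have h1 := (hΓ x z.2).mp (by rw [hx]; exact hz)
      simpa using h1
    | succ i ih =>
      obtain ⟨h1, h2, h3⟩ := ih
      have h4 : T (T^[i] z) ∈ Γ := by rw [← hinv]; exact ⟨_, h2, rfl⟩
      have h5 : (T (T^[i] z)).1 = ((g^[i + 1] x : ℝ) : AddCircle ℓ) := by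
        rw [hT.fst, h1, h3, ← AddCircle.coe_add]
        congr 1
        ring
      rw [Function.iterate_succ_apply' (f := T)]
      refine ⟨h5, h4, ?_⟩
      have h6 := (hΓ (g^[i + 1] x) (T (T^[i] z)).2).mp (by rw [← h5]; exact h4)
      rw [h6, ← Function.iterate_succ_apply' (f := g)]
  have hstep : ∀ i, Δ (T^[i] z) ≤ W (g^[i + 1] x) - W (g^[i] x) := by
    intro i
    obtain ⟨h1, -, h3⟩ := horb i
    have h4 : T^[i] z = (((g^[i] x : ℝ) : AddCircle ℓ), (T^[i] z).2) := Prod.ext h1 rfl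
    rw [h4, hΔ, h3]
    have h5 := hW' (g^[i] x)
    rw [← Function.iterate_succ_apply' (f := g)] at h5
    have e : g^[i] x + (g^[i + 1] x - g^[i] x) = g^[i + 1] x := by ring
    rw [e]
    exact h5
  calc ∑ i ∈ Finset.range N, Δ (T^[i] z)
      ≤ ∑ i ∈ Finset.range N, (W (g^[i + 1] x) - W (g^[i] x)) :=
        Finset.sum_le_sum fun i _ => hstep i
    _ = W (g^[N] x) - W x := by
        rw [Finset.sum_range_sub (fun i => W (g^[i] x))]; rfl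
    _ ≤ 2 * B * c := by
        have h1 := abs_le.mp (hW (g^[N] x))
        have h2 := abs_le.mp (hW x)
        linarith

lemma sign_const {A : Type*} [TopologicalSpace A] {C : Set A} (hC : IsPreconnected C) (f : A → ℝ)
    (hf : Continuous f) (h : ∀ z ∈ C, f z ≠ 0) : (∀ z ∈ C, 0 < f z) ∨ (∀ z ∈ C, f z < 0) := by
  by_contra hcon
  push Not at hcon
  obtain ⟨⟨a, ha, ha'⟩, b, hb, hb'⟩ := hcon
  obtain ⟨c, hc, hc'⟩ := hC.intermediate_value ha hb hf.continuousOn ⟨ha', hb'⟩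
  exact h c hc hc'

theorem sum_bound (hG : IsGen ℓ S P M) {T : PC ℓ → PC ℓ} (hT : IsMap P M T)
    (hTc : Continuous T) (hTi : Function.Injective T)
    (hrec : ∀ n, n ≠ 0 → ∀ V : Set (PC ℓ), IsOpen V → V.Nonempty →
      ∃ z ∈ V, ∃ k, k ≠ 0 ∧ (T^[n])^[k] z ∈ V)
    (F : Set (Set (PC ℓ))) (hpart : ∀ z, ∃! Γ, Γ ∈ F ∧ z ∈ Γ) (hric : ∀ Γ ∈ F, IsRIC T Γ)
    (htube : ∀ Γ ∈ F, ∃ φ : AddCircle (1 : ℝ) × ℝ → PC ℓ, IsOpenEmbedding φ ∧
      (range fun u => φ (u, 0)) = Γ ∧ ∀ t, (range fun u => φ (u, t)) ∈ F)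
    {B : ℝ} (hB : ∀ x y, x < y → y < x + ℓ → |M x y| ≤ B) {c : ℝ} {σ : ℝ → ℝ}
    (hσ : IsShift ℓ c σ) (Δ : PC ℓ → ℝ) (hΔc : Continuous Δ)
    (hΔ : ∀ (x : ℝ) (y : Ioo (0:ℝ) ℓ),
      Δ ((x : AddCircle ℓ), y) = S (σ x) (σ (x + y)) - S x (x + y)) (z : PC ℓ) (N : ℕ) :
    ∑ i ∈ Finset.range N, Δ (T^[i] z) ≤ 2 * B * c := by
  have hL := hG.pos
  have hinvF : ∀ Γ ∈ F, T '' Γ = Γ := by
    intro Γ hΓ
    obtain ⟨c, -, -, -, h4⟩ := hric Γ hΓ
    exact h4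
  -- the rational leaves and their graphs
  have hleaf : ∀ p q : ℕ, ∃ (Γ : Set (PC ℓ)) (g : ℝ → ℝ), 0 < p → p < q → Γ ∈ F ∧
      IsCirc ℓ P M g ∧ (∀ x, g^[q] x = x + p * ℓ) ∧
      ∀ (x : ℝ) (y : Ioo (0:ℝ) ℓ), ((x : AddCircle ℓ), y) ∈ Γ ↔ (y : ℝ) = g x - x := by
    intro p q
    by_cases h : 0 < p ∧ p < q
    · obtain ⟨Γ, hΓ, hfix⟩ := exists_rational_leaf hG hT hTc hTi hrec F hpart hric htube p q h.1 h.2
      obtain ⟨g, h1, h2, h3⟩ := graph_of_leaf hG hT hTc hTi F hric htube (h.1.trans h.2) hΓ hfix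
      exact ⟨Γ, g, fun _ _ => ⟨hΓ, h1, h2, h3⟩⟩
    · exact ⟨∅, id, fun h1 h2 => absurd ⟨h1, h2⟩ h⟩
  choose Γr g hr using hleaf
  -- the union of the rational leaves
  set Rat : Set (PC ℓ) := {z | ∃ p q, 0 < p ∧ p < q ∧ z ∈ Γr p q} with hRat
  -- the set where the bound holds
  set K : Set (PC ℓ) := {z | ∑ i ∈ Finset.range N, Δ (T^[i] z) ≤ 2 * B * c} with hK
  have hKc : IsClosed K := by
    apply isClosed_le _ continuous_const
    apply continuous_finsetSum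
    intro i _
    exact hΔc.comp (hTc.iterate i)
  have hRK : Rat ⊆ K := by
    rintro z ⟨p, q, hp, hpq, hz⟩
    obtain ⟨h1, h2, h3, h4⟩ := hr p q hp hpq
    exact orbit_bound hG hT hB hσ Δ hΔ h2 (hinvF _ h1) h4 hz N
  suffices hd : ∀ z, z ∈ closure Rat by
    exact (hKc.closure_subset_iff.mpr hRK) (hd z)
  by_contra hcon
  push Not at hcon
  obtain ⟨z₀, hz₀⟩ := hcon
  -- a tube at `z₀`
  obtain ⟨Γ₀, ⟨hΓ₀, hz₀Γ⟩, -⟩ := hpart z₀
  obtain ⟨φ, hφ, hφ0, hφF⟩ := htube Γ₀ hΓ₀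
  obtain ⟨u₀, hu₀⟩ : ∃ u₀, φ (u₀, 0) = z₀ := by rw [← hφ0] at hz₀Γ; exact hz₀Γ
  have hcu : Continuous fun t : ℝ => φ (u₀, t) := by
    have := hφ.continuous
    fun_prop
  have hev : ∀ᶠ t in 𝓝 (0:ℝ), φ (u₀, t) ∉ closure Rat := by
    have h1 : (closure Rat)ᶜ ∈ 𝓝 (φ (u₀, 0)) := by
      rw [hu₀]; exact isClosed_closure.isOpen_compl.mem_nhds hz₀
    exact hcu.continuousAt.eventually h1
  rw [Metric.eventually_nhds_iff] at hev
  obtain ⟨η, hη, hη'⟩ := hev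
  have hpath : ∀ t ∈ Ioo (-η) η, φ (u₀, t) ∉ Rat := by
    intro t ht h
    exact hη' (y := t) (by rw [Real.dist_eq, sub_zero, abs_lt]; exact ht) (subset_closure h)
  have h0I : (0:ℝ) ∈ Ioo (-η) η := ⟨by linarith, hη⟩
  have h1I : η / 2 ∈ Ioo (-η) η := ⟨by linarith, by linarith⟩
  set Γ₁ : Set (PC ℓ) := range fun u => φ (u, η / 2) with hΓ₁
  have hΓ₁F : Γ₁ ∈ F := hφF _
  have hΓ₀r : Γ₀ = range fun u => φ (u, 0) := hφ0.symm
  -- leaves through points outside `Rat`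
  have hdis : ∀ Γ ∈ F, ∀ z ∈ Γ, z ∉ Rat → ∀ p q, 0 < p → p < q → ∀ w ∈ Γ, w ∉ Γr p q := by
    intro Γ hΓ z hz hzR p q hp hpq w hw hwr
    have h1 := (hpart w).unique ⟨hΓ, hw⟩ ⟨(hr p q hp hpq).1, hwr⟩
    rw [h1] at hz
    exact hzR ⟨p, q, hp, hpq, hz⟩
  -- the height function
  have hfun : ∀ p q, ∃ f : PC ℓ → ℝ, 0 < p → p < q → Continuous f ∧
      (∀ (x : ℝ) (y : Ioo (0:ℝ) ℓ), f ((x : AddCircle ℓ), y) = y - (g p q x - x)) ∧
      ∀ z, f z = 0 → z ∈ Γr p q := by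
    intro p q
    by_cases h : 0 < p ∧ p < q
    · obtain ⟨h1, h2, h3, h4⟩ := hr p q h.1 h.2
      refine ⟨fun z => z.2 - hgt h2 z.1, fun _ _ => ⟨?_, fun x y => rfl, ?_⟩⟩
      · have := continuous_hgt h2
        fun_prop
      · intro z hz
        obtain ⟨x, hx⟩ := coe_surjP z.1
        have : z = ((x : AddCircle ℓ), z.2) := Prod.ext hx.symm rfl
        rw [this, h4]
        rw [this] at hz
        simp only [hgt_coe] at hz
        linarith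
    · exact ⟨fun _ => 0, fun h1 h2 => absurd ⟨h1, h2⟩ h⟩
  choose f hf using hfun
  set A : ℕ → ℕ → Prop := fun p q => (∀ z ∈ Γ₀, 0 < f p q z) ∧ ∀ z ∈ Γ₁, 0 < f p q z with hA
  set Bs : ℕ → ℕ → Prop := fun p q => (∀ z ∈ Γ₀, f p q z < 0) ∧ ∀ z ∈ Γ₁, f p q z < 0 with hBs
  have hz₁Γ : φ (u₀, η / 2) ∈ Γ₁ := ⟨u₀, rfl⟩
  have hz₀R : φ (u₀, 0) ∉ Rat := hpath 0 h0I
  have hz₁R : φ (u₀, η / 2) ∉ Rat := hpath _ h1I
  have hAB : ∀ p q, 0 < p → p < q → A p q ∨ Bs p q := by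
    intro p q hp hpq
    obtain ⟨hf1, hf2, hf3⟩ := hf p q hp hpq
    have s0 := sign_const (ric_connected (hric Γ₀ hΓ₀)) (f p q) hf1 (fun z hz h =>
      hdis Γ₀ hΓ₀ (φ (u₀, 0)) (by rw [hu₀]; exact hz₀Γ) hz₀R p q hp hpq z hz (hf3 z h))
    have s1 := sign_const (ric_connected (hric Γ₁ hΓ₁F)) (f p q) hf1 (fun z hz h =>
      hdis Γ₁ hΓ₁F _ hz₁Γ hz₁R p q hp hpq z hz (hf3 z h))
    have s2 := sign_const (isPreconnected_Ioo (a := -η) (b := η)) (fun t => f p q (φ (u₀, t)))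
      (hf1.comp hcu) (fun t ht h => hpath t ht ⟨p, q, hp, hpq, hf3 _ h⟩)
    rcases s2 with s2 | s2
    · have t0 := s2 0 h0I
      have t1 := s2 _ h1I
      left
      constructor
      · rcases s0 with s0 | s0
        · exact s0
        · have := s0 (φ (u₀, 0)) (by rw [hu₀]; exact hz₀Γ)
          linarith
      · rcases s1 with s1 | s1
        · exact s1
        · have := s1 _ hz₁Γ
          linarith
    · have t0 := s2 0 h0I
      have t1 := s2 _ h1I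
      right
      constructor
      · rcases s0 with s0 | s0
        · have := s0 (φ (u₀, 0)) (by rw [hu₀]; exact hz₀Γ)
          linarith
        · exact s0
      · rcases s1 with s1 | s1
        · have := s1 _ hz₁Γ
          linarith
        · exact s1
  -- compactness of the leaf
  have hcomp₀ := ric_compact (hric Γ₀ hΓ₀)
  have hcomp₁ := ric_compact (hric Γ₁ hΓ₁F)
  have hne₀ : Γ₀.Nonempty := ⟨z₀, hz₀Γ⟩
  obtain ⟨zm, hzm, hzmin⟩ := hcomp₀.exists_isMinOn hne₀ (f := fun z : PC ℓ => (z.2 : ℝ))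
    (by fun_prop)
  obtain ⟨zM, hzM, hzmax⟩ := hcomp₀.exists_isMaxOn hne₀ (f := fun z : PC ℓ => (z.2 : ℝ))
    (by fun_prop)
  have hAne : ∃ p q, 0 < p ∧ p < q ∧ A p q := by
    obtain ⟨q, hq⟩ := exists_nat_gt (ℓ / (zm.2 : ℝ) + 1)
    have hpos := zm.2.2.1
    have hq1 : (1:ℝ) < q := by
      have : 0 < ℓ / (zm.2 : ℝ) := div_pos hL hpos
      linarith
    have hq2 : 1 < q := by exact_mod_cast hq1
    rcases hAB 1 q one_pos hq2 with h | h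
    · exact ⟨1, q, one_pos, hq2, h⟩
    · exfalso
      obtain ⟨-, h2, h3, -⟩ := hr 1 q one_pos hq2
      obtain ⟨-, hf2, -⟩ := hf 1 q one_pos hq2
      have h4 : ∀ x, x + (zm.2 : ℝ) ≤ (g 1 q)^[1] x := by
        intro x
        obtain ⟨w, hw, hwx⟩ := ric_fst hL (hric Γ₀ hΓ₀) (x : AddCircle ℓ)
        have h5 := h.1 w hw
        have h6 : w = ((x : AddCircle ℓ), w.2) := Prod.ext hwx rfl
        rw [h6, hf2] at h5
        have h7 : (zm.2 : ℝ) ≤ w.2 := hzmin hw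
        rw [Function.iterate_one]
        linarith
      have h5 := rot_ge h3 1 _ h4
      push_cast at h5
      have h6 : ℓ / (zm.2 : ℝ) < q := by linarith
      rw [div_lt_iff₀ hpos] at h6
      linarith
  have hBne : ∃ p q, 0 < p ∧ p < q ∧ Bs p q := by
    obtain ⟨q, hq⟩ := exists_nat_gt (ℓ / (ℓ - zM.2 : ℝ) + 1)
    have hpos : 0 < ℓ - (zM.2 : ℝ) := by linarith [zM.2.2.2]
    have hq1 : (1:ℝ) < q := by
      have : 0 < ℓ / (ℓ - zM.2 : ℝ) := div_pos hL hpos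
      linarith
    have hq2 : 1 < q := by exact_mod_cast hq1
    have hp0 : 0 < q - 1 := by omega
    have hpq : q - 1 < q := by omega
    rcases hAB (q - 1) q hp0 hpq with h | h
    · exfalso
      obtain ⟨-, h2, h3, -⟩ := hr (q - 1) q hp0 hpq
      obtain ⟨-, hf2, -⟩ := hf (q - 1) q hp0 hpq
      have h4 : ∀ x, (g (q - 1) q)^[1] x ≤ x + (zM.2 : ℝ) := by
        intro x
        obtain ⟨w, hw, hwx⟩ := ric_fst hL (hric Γ₀ hΓ₀) (x : AddCircle ℓ)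
        have h5 := h.1 w hw
        have h6 : w = ((x : AddCircle ℓ), w.2) := Prod.ext hwx rfl
        rw [h6, hf2] at h5
        have h7 : (w.2 : ℝ) ≤ zM.2 := hzmax hw
        rw [Function.iterate_one]
        linarith
      have h5 := rot_le h3 1 _ h4
      have h8 : ((q - 1 : ℕ) : ℝ) = q - 1 := by
        rw [Nat.cast_sub hq2.le]; norm_num
      rw [h8] at h5
      have h6 : ℓ / (ℓ - zM.2 : ℝ) < q := by linarith
      rw [div_lt_iff₀ hpos] at h6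
      push_cast at h5
      linarith
    · exact ⟨q - 1, q, hp0, hpq, h⟩
  -- distance of the two leaves
  have hdisj : Disjoint Γ₀ Γ₁ := by
    rw [Set.disjoint_left]
    rintro z hz hz'
    rw [hΓ₀r] at hz
    obtain ⟨a, ha⟩ := hz
    obtain ⟨b, hb⟩ := hz'
    have h1 := hφ.injective (ha.trans hb.symm)
    have h2 := congrArg Prod.snd h1
    simp only at h2
    linarith
  -- uniform separation of the heights
  obtain ⟨δ, hδ, hsep⟩ : ∃ δ > 0, ∀ a ∈ Γ₀, ∀ b ∈ Γ₁, a.1 = b.1 → δ ≤ |(a.2 : ℝ) - b.2| := by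
    set Pr : Set (PC ℓ × PC ℓ) := (Γ₀ ×ˢ Γ₁) ∩ {p | p.1.1 = p.2.1} with hPr
    have hPrc : IsCompact Pr := (hcomp₀.prod hcomp₁).inter_right
      (isClosed_eq (by fun_prop) (by fun_prop))
    have hPrn : Pr.Nonempty := by
      obtain ⟨w, hw, hw'⟩ := ric_fst hL (hric Γ₁ hΓ₁F) z₀.1
      exact ⟨(z₀, w), ⟨hz₀Γ, hw⟩, hw'.symm⟩
    obtain ⟨m, hm, hmin⟩ := hPrc.exists_isMinOn hPrn
      (f := fun p : PC ℓ × PC ℓ => |(p.1.2 : ℝ) - p.2.2|) (by fun_prop)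
    refine ⟨|(m.1.2 : ℝ) - m.2.2|, ?_, fun a ha b hb hab => hmin (show (a, b) ∈ Pr from
      ⟨⟨ha, hb⟩, hab⟩)⟩
    rw [gt_iff_lt, abs_pos, sub_ne_zero]
    intro he
    have h1 : m.1 = m.2 := Prod.ext hm.2 (Subtype.ext he)
    have h2 := hm.1.2
    rw [← h1] at h2
    exact Set.disjoint_left.mp hdisj hm.1.1 h2
  refine no_gap hL g (fun p q h1 h2 => (hr p q h1 h2).2.1) (fun p q h1 h2 => (hr p q h1 h2).2.2.1)
    A Bs hAB hAne hBne hδ ?_
  intro p q p' q' h1 h2 h3 h4 h5 h6 x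
  obtain ⟨a, ha, hax⟩ := ric_fst hL (hric Γ₀ hΓ₀) (x : AddCircle ℓ)
  obtain ⟨b, hb, hbx⟩ := ric_fst hL (hric Γ₁ hΓ₁F) (x : AddCircle ℓ)
  have k1 := hsep a ha b hb (hax.trans hbx.symm)
  obtain ⟨-, hf2, -⟩ := hf p q h1 h2
  obtain ⟨-, hf2', -⟩ := hf p' q' h3 h4
  have e1 : a = ((x : AddCircle ℓ), a.2) := Prod.ext hax rfl
  have e2 : b = ((x : AddCircle ℓ), b.2) := Prod.ext hbx rfl
  have m1 := h5.1 a ha
  have m2 := h5.2 b hb
  have m3 := h6.1 a ha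
  have m4 := h6.2 b hb
  rw [e1, hf2] at m1
  rw [e2, hf2] at m2
  rw [e1, hf2'] at m3
  rw [e2, hf2'] at m4
  rcases le_or_gt 0 ((a.2 : ℝ) - b.2) with h | h
  · rw [abs_of_nonneg h] at k1
    linarith
  · rw [abs_of_neg h] at k1
    linarith

end Pool.Agent.W714.Mink
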