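import Pool.Agent.W714.Mink.Expand
import Pool.Agent.W714.Mink.Bound

set_option autoImplicit false

/-!
# The rigidity theorem in isotropic position
-/

namespace Pool.Agent.W714.Mink

open Complex Set Topology Filter MeasureTheory
open Pool.Agent.W714.Coin (continuous_coe coe_surjL IsRIC)
open scoped ComplexConjugate

variable {γ : ℝ → ℂ} {L : ℝ} {g : ℂ → ℝ} {G : ℂ → ℂ} {R : ℝ → ℝ}

/-- substitution -/
lemma subst_lam (h : RCurve γ L) {f : ℝ → ℂ} (hf : Continuous f) :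
    ∫ t in (0:ℝ)..L, ((‖deriv γ t‖ : ℝ) : ℂ) * f (lam γ t) = ∫ s in (0:ℝ)..(lam γ L), f s := by
  have h1 := intervalIntegral.integral_deriv_smul_comp (f := lam γ) (f' := fun t => ‖deriv γ t‖)
    (g := f) (a := 0) (b := L) (fun x _ => hasDerivAt_lam h x)
    (continuous_deriv' h).norm.continuousOn hf
  rw [lam_zero] at h1
  rw [← h1]
  congr 1

/-- the shifted curve on the circle -/
noncomputable def bet (h : RCurve γ L) (ε : ℝ) : AddCircle L → ℂ :=
  (show Function.Periodic (fun t => γ (shf h ε t)) L by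
    intro t; simp only [shf_add, h.per (shf h ε t)]).lift

lemma bet_coe (h : RCurve γ L) (ε t : ℝ) : bet h ε (t : AddCircle L) = γ (shf h ε t) := rfl

lemma continuous_bet (h : RCurve γ L) (ε : ℝ) : Continuous (bet h ε) := by
  have h1 : Continuous fun t => γ (shf h ε t) :=
    h.smooth.continuous.comp (continuous_shf h ε)
  exact continuous_coinduced_dom.mpr h1

lemma shf_eq (h : RCurve γ L) (ε t : ℝ) : γ (shf h ε t) = cc h (lam γ t + ε) := rfl

lemma C2_eq (h : RCurve γ L) (ε : ℝ) :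
    ∫ t in (0:ℝ)..L, bet h ε (t : AddCircle L) * deriv γ t = C2 (cc h) (lam γ L) ε := by
  have hc := (rcurve_cc h).smooth.continuous
  have hc' := continuous_deriv' (rcurve_cc h)
  rw [C2, ← subst_lam h (f := fun s => cc h (s + ε) * deriv (cc h) s) (by fun_prop)]
  congr 1
  funext t
  rw [bet_coe, shf_eq h, deriv_eq_cc h t]
  have : ‖((‖deriv γ t‖ : ℝ) : ℂ) * deriv (cc h) (lam γ t)‖ = ‖deriv γ t‖ := by
    rw [← deriv_eq_cc]
  rw [this]
  ring

lemma C1_eq (h : RCurve γ L) (ε : ℝ) :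
    ∫ t in (0:ℝ)..L, bet h ε (t : AddCircle L) * conj (deriv γ t) = C1 (cc h) (lam γ L) ε := by
  have hc := (rcurve_cc h).smooth.continuous
  have hc' := Complex.continuous_conj.comp (continuous_deriv' (rcurve_cc h))
  have hc2 : Continuous fun s => cc h (s + ε) * conj (deriv (cc h) s) :=
    (hc.comp (by fun_prop)).mul hc'
  rw [C1, ← subst_lam h hc2]
  congr 1
  funext t
  rw [bet_coe, shf_eq h, deriv_eq_cc h t]
  have : ‖((‖deriv γ t‖ : ℝ) : ℂ) * deriv (cc h) (lam γ t)‖ = ‖deriv γ t‖ := by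
    rw [← deriv_eq_cc]
  rw [this, map_mul, conj_ofReal]
  ring

lemma bet_zero (h : RCurve γ L) (t : ℝ) : bet h 0 (t : AddCircle L) = γ t := by
  rw [bet_coe, shf, add_zero, kap_lam]

/-- the isotropy condition -/
lemma iso_eq (h : RCurve γ L) :
    ∫ t in (0:ℝ)..L, deriv γ t * deriv γ t / ((‖deriv γ t‖ : ℝ) : ℂ)
      = ∫ s in (0:ℝ)..(lam γ L), deriv (cc h) s * deriv (cc h) s := by
  have hc' := continuous_deriv' (rcurve_cc h)
  rw [← subst_lam h (f := fun s => deriv (cc h) s * deriv (cc h) s) (by fun_prop)]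
  congr 1
  funext t
  have h1 := deriv_eq_cc h t
  have h2 : ((‖deriv γ t‖ : ℝ) : ℂ) ≠ 0 := by
    exact_mod_cast (norm_pos_iff.mpr (h.reg t)).ne'
  generalize hn : ((‖deriv γ t‖ : ℝ) : ℂ) = n at h1 h2 ⊢
  rw [h1]
  field_simp

/-- **Rigidity in isotropic position.** -/
theorem circle_of_foliated (hN : Nrm g G R) (h : RCurve γ L)
    (hiso : ∫ t in (0:ℝ)..L, deriv γ t * deriv γ t / ((‖deriv γ t‖ : ℝ) : ℂ) = 0)
    {T : PC L → PC L} (hT : IsMap (gP γ G) (gM γ G) T)
    (F : Set (Set (PC L))) (hpart : ∀ z, ∃! Γ, Γ ∈ F ∧ z ∈ Γ) (hric : ∀ Γ ∈ F, IsRIC T Γ)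
    (htube : ∀ Γ ∈ F, ∃ φ : AddCircle (1 : ℝ) × ℝ → PC L, IsOpenEmbedding φ ∧
      (range fun u => φ (u, 0)) = Γ ∧ ∀ t, (range fun u => φ (u, t)) ∈ F) :
    ∃ (m : ℂ) (r : ℝ), 0 < r ∧ range γ = Metric.sphere m r := by
  have hFact : Fact (0 < L) := ⟨h.pos⟩
  have hTe := eq_tm hN h hT
  rw [hTe] at hric
  have hcc := rcurve_cc h
  have hgc := hN.continuous_g
  have hcoe : Continuous ((↑) : ℝ → AddCircle L) := continuous_coe
  obtain ⟨B, -, hB⟩ := (isGen hN h).bdM
  rw [iso_eq h] at hiso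
  have hineq : ∀ ε δ : ℝ, (conj (D2 G R δ) * C2 (cc h) (lam γ L) ε
      + conj (D1 G R δ) * C1 (cc h) (lam γ L) ε).re
      ≤ (conj (D2 G R 0) * C2 (cc h) (lam γ L) 0 + conj (D1 G R 0) * C1 (cc h) (lam γ L) 0).re := by
    intro ε δ
    obtain ⟨c, hσ⟩ := exists_isShift h ε
    have hβ := continuous_bet h ε
    have hvv : Continuous fun z : PC L => vv h z.1 z.2 :=
      (continuous_vv h).comp (show Continuous fun z : PC L => (z.1, (z.2 : ℝ)) by fun_prop)
    have hΔc : Continuous fun z : PC L =>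
        g (bet h ε (z.1 + ((z.2 : ℝ) : AddCircle L)) - bet h ε z.1) - g (vv h z.1 z.2) :=
      (hgc.comp (by fun_prop)).sub (hgc.comp hvv)
    have hsum := sum_bound (isGen hN h) (isMap_tm hN h) (continuous_tm hN h) (injective_tm hN h)
      (fun n _ V hV hne => recurrent_tm hN h n V hV hne) F hpart hric htube hB hσ
      (fun z : PC L =>
        g (bet h ε (z.1 + ((z.2 : ℝ) : AddCircle L)) - bet h ε z.1) - g (vv h z.1 z.2)) hΔc
      (by
        intro x y
        simp only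
        rw [← AddCircle.coe_add, bet_coe, bet_coe, vv_coe]
        rfl)
    have h1 := corr_le hN h hβ δ hsum
    have e2 : ∫ t in (0:ℝ)..L, γ t * deriv γ t = C2 (cc h) (lam γ L) 0 := by
      rw [← C2_eq h 0]
      congr 1
      funext t
      rw [bet_zero]
    have e1 : ∫ t in (0:ℝ)..L, γ t * conj (deriv γ t) = C1 (cc h) (lam γ L) 0 := by
      rw [← C1_eq h 0]
      congr 1
      funext t
      rw [bet_zero]
    rw [e1, e2, C1_eq h ε, C2_eq h ε] at h1
    exact h1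
  have hrev := reverse_iso hN hcc (norm_deriv_cc h) hiso hineq
  obtain ⟨m, r, hr, hc⟩ := circle_of_reverse hcc (norm_deriv_cc h) hrev
  refine ⟨m, r, hr, ?_⟩
  rw [← hc]
  ext z
  constructor
  · rintro ⟨t, rfl⟩
    exact ⟨lam γ t, cc_lam h t⟩
  · rintro ⟨s, rfl⟩
    exact ⟨kap h s, rfl⟩

end Pool.Agent.W714.Mink
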