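import Pool.Agent.W714.Mink.Nrm
import Pool.Agent.W714.Coin.Chord

set_option autoImplicit false

/-!
# Chords of a strictly convex curve of class `C²`
-/

namespace Pool.Agent.W714.Mink

open Complex Set Topology Filter
open Pool.Agent.W714.Coin (arg_mem_Ioo_of_im_pos mem_slitPlane_of_im_pos hasDerivAt_arg div_im_eq
  continuous_coe
  coe_surjL)

/-- a regular closed `C²` curve which lies strictly to the left of its oriented tangent lines -/
structure RCurve (γ : ℝ → ℂ) (L : ℝ) : Prop where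
  pos : 0 < L
  smooth : ContDiff ℝ 2 γ
  per : Function.Periodic γ L
  reg : ∀ t, deriv γ t ≠ 0
  left : ∀ t, ∀ x ∈ Ioo 0 L, 0 < ((starRingEnd ℂ) (deriv γ t) * (γ (t + x) - γ t)).im

variable {γ : ℝ → ℂ} {L : ℝ}

lemma periodic_deriv (h : RCurve γ L) : Function.Periodic (deriv γ) L := by
  intro x
  have h1 : deriv (fun y => γ (y + L)) x = deriv γ (x + L) := deriv_comp_add_const _ _ _
  rw [← h1]
  congr 1
  funext y
  exact h.per y

/-- the curve as a function on the circle -/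
noncomputable def gb (h : RCurve γ L) : AddCircle L → ℂ := h.per.lift

/-- the tangent vector as a function on the circle -/
noncomputable def gd (h : RCurve γ L) : AddCircle L → ℂ := (periodic_deriv h).lift

lemma gb_coe (h : RCurve γ L) (s : ℝ) : gb h (s : AddCircle L) = γ s := rfl

lemma gd_coe (h : RCurve γ L) (s : ℝ) : gd h (s : AddCircle L) = deriv γ s := rfl

lemma hasDerivAt (h : RCurve γ L) (s : ℝ) : HasDerivAt γ (deriv γ s) s :=
  ((h.smooth.differentiable (by simp)) s).hasDerivAt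

lemma continuous_deriv' (h : RCurve γ L) : Continuous (deriv γ) :=
  h.smooth.continuous_deriv (by simp)

lemma continuous_gb (h : RCurve γ L) : Continuous (gb h) :=
  continuous_coinduced_dom.mpr h.smooth.continuous

lemma continuous_gd (h : RCurve γ L) : Continuous (gd h) :=
  continuous_coinduced_dom.mpr (continuous_deriv' h)

/-- chord as seen from its start -/
noncomputable def ZA (h : RCurve γ L) (w : AddCircle L) (x : ℝ) : ℂ :=
  (starRingEnd ℂ) (gd h w) * (gb h (w + (x : AddCircle L)) - gb h w)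

/-- chord as seen from its end -/
noncomputable def ZB (h : RCurve γ L) (w : AddCircle L) (x : ℝ) : ℂ :=
  (starRingEnd ℂ) (gb h (w + (x : AddCircle L)) - gb h w) * gd h (w + (x : AddCircle L))

lemma ZA_coe (h : RCurve γ L) (s x : ℝ) :
    ZA h s x = (starRingEnd ℂ) (deriv γ s) * (γ (s + x) - γ s) := by
  rw [ZA, ← AddCircle.coe_add, gb_coe, gb_coe, gd_coe]

lemma ZB_coe (h : RCurve γ L) (s x : ℝ) :
    ZB h s x = (starRingEnd ℂ) (γ (s + x) - γ s) * deriv γ (s + x) := by
  rw [ZB, ← AddCircle.coe_add, gb_coe, gb_coe, gd_coe]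

lemma continuous_ZA (h : RCurve γ L) :
    Continuous fun p : AddCircle L × ℝ => ZA h p.1 p.2 := by
  have h1 := continuous_gb h
  have h2 := continuous_gd h
  have h3 : Continuous ((↑) : ℝ → AddCircle L) := continuous_coe
  unfold ZA
  fun_prop

lemma continuous_ZB (h : RCurve γ L) :
    Continuous fun p : AddCircle L × ℝ => ZB h p.1 p.2 := by
  have h1 := continuous_gb h
  have h2 := continuous_gd h
  have h3 : Continuous ((↑) : ℝ → AddCircle L) := continuous_coe
  unfold ZB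
  fun_prop

lemma gamma_ne (h : RCurve γ L) (s : ℝ) {x : ℝ} (hx : x ∈ Ioo 0 L) :
    γ (s + x) ≠ γ s := by
  intro he
  have h1 := h.left s x hx
  rw [he, sub_self, mul_zero] at h1
  simp at h1

lemma ZA_im_pos (h : RCurve γ L) (w : AddCircle L) {x : ℝ} (hx : x ∈ Ioo 0 L) :
    0 < (ZA h w x).im := by
  obtain ⟨s, rfl⟩ := coe_surjL w
  rw [ZA_coe]
  exact h.left s x hx

lemma ZB_im_pos (h : RCurve γ L) (w : AddCircle L) {x : ℝ} (hx : x ∈ Ioo 0 L) :
    0 < (ZB h w x).im := by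
  obtain ⟨s, rfl⟩ := coe_surjL w
  rw [ZB_coe]
  have h1 := h.left (s + x) (L - x) ⟨by linarith [hx.2], by linarith [hx.1]⟩
  have e1 : s + x + (L - x) = s + L := by ring
  rw [e1, h.per s] at h1
  have h2 : (starRingEnd ℂ) (γ (s + x) - γ s) * deriv γ (s + x)
      = -(starRingEnd ℂ) ((starRingEnd ℂ) (deriv γ (s + x)) * (γ s - γ (s + x))) := by
    rw [map_mul, Complex.conj_conj, map_sub, map_sub]; ring
  rw [h2, Complex.neg_im, Complex.conj_im, neg_neg]
  exact h1

/-- the angle at the start of a chord -/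
noncomputable def angA (h : RCurve γ L) (w : AddCircle L) (x : ℝ) : ℝ := arg (ZA h w x)

/-- the angle at the end of a chord -/
noncomputable def angB (h : RCurve γ L) (w : AddCircle L) (x : ℝ) : ℝ := arg (ZB h w x)

lemma angA_mem (h : RCurve γ L) (w : AddCircle L) {x : ℝ} (hx : x ∈ Ioo 0 L) :
    angA h w x ∈ Ioo 0 Real.pi := arg_mem_Ioo_of_im_pos (ZA_im_pos h w hx)

lemma angB_mem (h : RCurve γ L) (w : AddCircle L) {x : ℝ} (hx : x ∈ Ioo 0 L) :
    angB h w x ∈ Ioo 0 Real.pi := arg_mem_Ioo_of_im_pos (ZB_im_pos h w hx)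

lemma continuousAt_angA (h : RCurve γ L) (w : AddCircle L) {x : ℝ} (hx : x ∈ Ioo 0 L) :
    ContinuousAt (fun p : AddCircle L × ℝ => angA h p.1 p.2) (w, x) := by
  have h1 : ContinuousAt arg (ZA h w x) :=
    continuousAt_arg (mem_slitPlane_of_im_pos (ZA_im_pos h w hx))
  exact ContinuousAt.comp (f := fun p : AddCircle L × ℝ => ZA h p.1 p.2) (x := (w, x)) h1
    (continuous_ZA h).continuousAt

lemma continuousAt_angB (h : RCurve γ L) (w : AddCircle L) {x : ℝ} (hx : x ∈ Ioo 0 L) :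
    ContinuousAt (fun p : AddCircle L × ℝ => angB h p.1 p.2) (w, x) := by
  have h1 : ContinuousAt arg (ZB h w x) :=
    continuousAt_arg (mem_slitPlane_of_im_pos (ZB_im_pos h w hx))
  exact ContinuousAt.comp (f := fun p : AddCircle L × ℝ => ZB h p.1 p.2) (x := (w, x)) h1
    (continuous_ZB h).continuousAt

lemma deriv_ne (h : RCurve γ L) (s : ℝ) : deriv γ s ≠ 0 := h.reg s

lemma conj_deriv_mul (h : RCurve γ L) (s : ℝ) :
    (starRingEnd ℂ) (deriv γ s) * deriv γ s = ((‖deriv γ s‖ ^ 2 : ℝ) : ℂ) := by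
  rw [mul_comm, Complex.mul_conj, Complex.normSq_eq_norm_sq]

lemma RCurve.sq_norm_pos' (h : RCurve γ L) (s : ℝ) : 0 < ‖deriv γ s‖ ^ 2 := by
  have := norm_pos_iff.mpr (h.reg s)
  positivity

lemma hasDerivAt_angA (h : RCurve γ L) (s : ℝ) {x : ℝ} (hx : x ∈ Ioo 0 L) :
    HasDerivAt (fun x : ℝ => angA h (s : AddCircle L) x)
      ((ZB h (s : AddCircle L) x).im / ‖γ (s + x) - γ s‖ ^ 2) x := by
  have h1 : HasDerivAt (fun x : ℝ => ZA h (s : AddCircle L) x)
      ((starRingEnd ℂ) (deriv γ s) * deriv γ (s + x)) x := by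
    have h2 : HasDerivAt (fun x : ℝ => (starRingEnd ℂ) (deriv γ s) * (γ (s + x) - γ s))
        ((starRingEnd ℂ) (deriv γ s) * deriv γ (s + x)) x := by
      apply HasDerivAt.const_mul
      apply HasDerivAt.sub_const
      exact (hasDerivAt h (s + x)).comp_const_add s x
    simpa only [ZA_coe] using h2
  have h3 := hasDerivAt_arg h1 (ZA_im_pos h _ hx)
  have h4 : ((starRingEnd ℂ) (deriv γ s) * deriv γ (s + x) / ZA h (s : AddCircle L) x).im
      = (ZB h (s : AddCircle L) x).im / ‖γ (s + x) - γ s‖ ^ 2 := by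
    rw [ZA_coe, mul_div_mul_left _ _ ((map_ne_zero _).mpr (deriv_ne h s)), div_im_eq, ZB_coe,
      mul_comm (deriv γ (s + x))]
  rw [h4] at h3
  exact h3

lemma hasDerivAt_angB (h : RCurve γ L) (s : ℝ) {x : ℝ} (hx : x ∈ Ioo 0 L) :
    HasDerivAt (fun x : ℝ => angB h ((s - x : ℝ) : AddCircle L) x)
      ((ZA h ((s - x : ℝ) : AddCircle L) x).im / ‖γ s - γ (s - x)‖ ^ 2) x := by
  have e : ∀ x : ℝ, ZB h ((s - x : ℝ) : AddCircle L) x
      = (starRingEnd ℂ) (γ s - γ (s - x)) * deriv γ s := by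
    intro x
    rw [ZB_coe, sub_add_cancel]
  have h1 : HasDerivAt (fun x : ℝ => ZB h ((s - x : ℝ) : AddCircle L) x)
      ((starRingEnd ℂ) (deriv γ (s - x)) * deriv γ s) x := by
    have h2 : HasDerivAt (fun x : ℝ => (starRingEnd ℂ) (γ s - γ (s - x)) * deriv γ s)
        ((starRingEnd ℂ) (deriv γ (s - x)) * deriv γ s) x := by
      apply HasDerivAt.mul_const
      have h3 : HasDerivAt (fun x : ℝ => γ s - γ (s - x)) (deriv γ (s - x)) x := by
        have h4 := ((hasDerivAt h (s - x)).comp_const_sub s x).const_sub (γ s)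
        simpa using h4
      exact h3.star
    simpa only [e] using h2
  have h3 := hasDerivAt_arg h1 (ZB_im_pos h _ hx)
  have h4 : ((starRingEnd ℂ) (deriv γ (s - x)) * deriv γ s / ZB h ((s - x : ℝ) : AddCircle L) x).im
      = (ZA h ((s - x : ℝ) : AddCircle L) x).im / ‖γ s - γ (s - x)‖ ^ 2 := by
    rw [e, mul_div_mul_right _ _ (deriv_ne h s), div_im_eq, Complex.conj_conj, Complex.norm_conj,
      ZA_coe, sub_add_cancel]
  rw [h4] at h3
  exact h3

/-- arguments near a simple zero -/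
lemma tendsto_arg_right {f : ℝ → ℂ} {a c : ℝ} (hc : 0 < c) (hf : HasDerivAt f (c : ℂ) a)
    (h0 : f a = 0) :
    Tendsto (fun x => arg (f x)) (𝓝[>] a) (𝓝 0) := by
  have h1 := hasDerivAt_iff_tendsto_slope.mp hf
  have h2 : Tendsto (slope f a) (𝓝[>] a) (𝓝 (c : ℂ)) :=
    h1.mono_left (nhdsWithin_mono _ (fun x hx => ne_of_gt hx))
  have h3 : Tendsto (fun x => arg (slope f a x)) (𝓝[>] a) (𝓝 (arg (c : ℂ))) :=
    (continuousAt_arg (ofReal_mem_slitPlane.mpr hc)).tendsto.comp h2
  rw [arg_ofReal_of_nonneg hc.le] at h3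
  apply h3.congr'
  filter_upwards [self_mem_nhdsWithin] with x hx
  rw [slope_def_module, h0, sub_zero]
  have h4 : 0 < (x - a)⁻¹ := inv_pos.mpr (sub_pos.mpr hx)
  rw [Complex.real_smul, arg_real_mul _ h4]

lemma tendsto_arg_left {f : ℝ → ℂ} {b c : ℝ} (hc : 0 < c) (hf : HasDerivAt f (c : ℂ) b)
    (h0 : f b = 0) (hp : ∀ᶠ x in 𝓝[<] b, 0 < (f x).im) :
    Tendsto (fun x => arg (f x)) (𝓝[<] b) (𝓝 Real.pi) := by
  have h1 := hasDerivAt_iff_tendsto_slope.mp hf
  have h2 : Tendsto (slope f b) (𝓝[<] b) (𝓝 (c : ℂ)) :=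
    h1.mono_left (nhdsWithin_mono _ (fun x hx => ne_of_lt hx))
  have h3 : Tendsto (fun x => arg (slope f b x)) (𝓝[<] b) (𝓝 (arg (c : ℂ))) :=
    (continuousAt_arg (ofReal_mem_slitPlane.mpr hc)).tendsto.comp h2
  have h5 : Tendsto (fun x => arg (slope f b x) + Real.pi) (𝓝[<] b) (𝓝 (0 + Real.pi)) := by
    rw [arg_ofReal_of_nonneg hc.le] at h3
    exact h3.add_const _
  rw [zero_add] at h5
  apply h5.congr'
  filter_upwards [self_mem_nhdsWithin, hp] with x hx hpx
  rw [slope_def_module, h0, sub_zero]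
  have h4 : 0 < (b - x)⁻¹ := inv_pos.mpr (sub_pos.mpr hx)
  have h6 : (x - b)⁻¹ • f x = (((b - x)⁻¹ : ℝ) : ℂ) * (-f x) := by
    rw [Complex.real_smul]
    have : (x - b)⁻¹ = -(b - x)⁻¹ := by
      rw [← inv_neg, neg_sub]
    rw [this]
    push_cast
    ring
  rw [h6, arg_real_mul _ h4, arg_neg_eq_arg_sub_pi_of_im_pos hpx]
  ring

/-- all angles occur -/
lemma exists_arg_eq {f : ℝ → ℂ} {L c : ℝ} (hc : 0 < c) (hL : 0 < L) (hf : Continuous f)
    (h0 : HasDerivAt f (c : ℂ) 0) (h0' : f 0 = 0) (h1 : HasDerivAt f (c : ℂ) L) (h1' : f L = 0)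
    (hp : ∀ x ∈ Ioo 0 L, 0 < (f x).im) {α : ℝ} (hα : α ∈ Ioo 0 Real.pi) :
    ∃ x ∈ Ioo 0 L, arg (f x) = α := by
  have hpl : ∀ᶠ x in 𝓝[<] L, 0 < (f x).im := by
    filter_upwards [Ioo_mem_nhdsLT hL] with x hx using hp x hx
  have e1 := (tendsto_arg_right hc h0 h0').eventually (gt_mem_nhds hα.1)
  have e2 := (tendsto_arg_left hc h1 h1' hpl).eventually (lt_mem_nhds hα.2)
  obtain ⟨x₁, hx₁, hx₁'⟩ := (e1.and (Ioo_mem_nhdsGT hL)).exists
  obtain ⟨x₂, hx₂, hx₂'⟩ := (e2.and (Ioo_mem_nhdsLT hL)).exists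
  have hcont : ContinuousOn (fun x => arg (f x)) (Ioo 0 L) := by
    intro x hx
    exact ((continuousAt_arg (mem_slitPlane_of_im_pos (hp x hx))).comp
      hf.continuousAt).continuousWithinAt
  have hpre : IsPreconnected (Ioo 0 L) := isPreconnected_Ioo
  obtain ⟨x, hx, hxα⟩ := hpre.intermediate_value hx₁' hx₂' hcont ⟨hx₁.le, hx₂.le⟩
  exact ⟨x, hx, hxα⟩

lemma exists_angA_eq (h : RCurve γ L) (w : AddCircle L) {α : ℝ}
    (hα : α ∈ Ioo 0 Real.pi) : ∃ x ∈ Ioo 0 L, angA h w x = α := by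
  obtain ⟨s, rfl⟩ := coe_surjL w
  have hd : ∀ x, HasDerivAt (fun x : ℝ => ZA h (s : AddCircle L) x)
      ((starRingEnd ℂ) (deriv γ s) * deriv γ (s + x)) x := by
    intro x
    have h2 : HasDerivAt (fun x : ℝ => (starRingEnd ℂ) (deriv γ s) * (γ (s + x) - γ s))
        ((starRingEnd ℂ) (deriv γ s) * deriv γ (s + x)) x := by
      apply HasDerivAt.const_mul
      apply HasDerivAt.sub_const
      exact (hasDerivAt h (s + x)).comp_const_add s x
    simpa only [ZA_coe] using h2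
  refine exists_arg_eq (h.sq_norm_pos' s) h.pos (f := fun x : ℝ => ZA h (s : AddCircle L) x)
    (continuous_iff_continuousAt.mpr fun x => (hd x).continuousAt) ?_ ?_ ?_ ?_
    (fun x hx => ZA_im_pos h _ hx) hα
  · have := hd 0
    rw [add_zero, conj_deriv_mul h] at this
    exact this
  · simp only [ZA_coe, add_zero, sub_self, mul_zero]
  · have := hd L
    rw [(periodic_deriv h) s, conj_deriv_mul h] at this
    exact this
  · simp only [ZA_coe, h.per s, sub_self, mul_zero]

lemma exists_angB_eq (h : RCurve γ L) (w : AddCircle L) {α : ℝ}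
    (hα : α ∈ Ioo 0 Real.pi) : ∃ x ∈ Ioo 0 L, angB h (w - (x : AddCircle L)) x = α := by
  obtain ⟨s, rfl⟩ := coe_surjL w
  have e : ∀ x : ℝ, ZB h ((s : AddCircle L) - (x : AddCircle L)) x
      = (starRingEnd ℂ) (γ s - γ (s - x)) * deriv γ s := by
    intro x
    rw [← AddCircle.coe_sub, ZB_coe, sub_add_cancel]
  have hd : ∀ x, HasDerivAt (fun x : ℝ => ZB h ((s : AddCircle L) - (x : AddCircle L)) x)
      ((starRingEnd ℂ) (deriv γ (s - x)) * deriv γ s) x := by
    intro x
    have h2 : HasDerivAt (fun x : ℝ => (starRingEnd ℂ) (γ s - γ (s - x)) * deriv γ s)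
        ((starRingEnd ℂ) (deriv γ (s - x)) * deriv γ s) x := by
      apply HasDerivAt.mul_const
      have h3 : HasDerivAt (fun x : ℝ => γ s - γ (s - x)) (deriv γ (s - x)) x := by
        have h4 := ((hasDerivAt h (s - x)).comp_const_sub s x).const_sub (γ s)
        simpa using h4
      exact h3.star
    simpa only [e] using h2
  refine exists_arg_eq (h.sq_norm_pos' s) h.pos
    (f := fun x : ℝ => ZB h ((s : AddCircle L) - (x : AddCircle L)) x)
    (continuous_iff_continuousAt.mpr fun x => (hd x).continuousAt) ?_ ?_ ?_ ?_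
    (fun x hx => ZB_im_pos h _ hx) hα
  · have := hd 0
    rw [sub_zero, conj_deriv_mul h] at this
    exact this
  · simp only [e, sub_zero, sub_self, map_zero, zero_mul]
  · have := hd L
    rw [(periodic_deriv h).sub_eq, conj_deriv_mul h] at this
    exact this
  · simp only [e, h.per.sub_eq, sub_self, map_zero, zero_mul]

lemma strictMonoOn_angA (h : RCurve γ L) (w : AddCircle L) :
    StrictMonoOn (fun x : ℝ => angA h w x) (Ioo 0 L) := by
  obtain ⟨s, rfl⟩ := coe_surjL w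
  apply strictMonoOn_of_deriv_pos (convex_Ioo 0 L)
  · intro x hx
    exact (hasDerivAt_angA h s hx).continuousAt.continuousWithinAt
  · intro x hx
    rw [interior_Ioo] at hx
    rw [(hasDerivAt_angA h s hx).deriv]
    have h1 := ZB_im_pos h (s : AddCircle L) hx
    have h2 : 0 < ‖γ (s + x) - γ s‖ := norm_pos_iff.mpr (sub_ne_zero.mpr (gamma_ne h s hx))
    positivity

lemma strictMonoOn_angB (h : RCurve γ L) (w : AddCircle L) :
    StrictMonoOn (fun x : ℝ => angB h (w - (x : AddCircle L)) x) (Ioo 0 L) := by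
  obtain ⟨s, rfl⟩ := coe_surjL w
  simp only [← AddCircle.coe_sub]
  apply strictMonoOn_of_deriv_pos (convex_Ioo 0 L)
  · intro x hx
    exact (hasDerivAt_angB h s hx).continuousAt.continuousWithinAt
  · intro x hx
    rw [interior_Ioo] at hx
    rw [(hasDerivAt_angB h s hx).deriv]
    have h1 := ZA_im_pos h ((s - x : ℝ) : AddCircle L) hx
    have h2 : 0 < ‖γ s - γ (s - x)‖ := by
      have := gamma_ne h (s - x) hx
      rw [sub_add_cancel] at this
      exact norm_pos_iff.mpr (sub_ne_zero.mpr this)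
    positivity

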