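import Mathlib

set_option autoImplicit false

/-!
# Minkowski billiards: definitions for MP_d2f538_an

The plane is `ℂ = ℝ²`; `gauge K` is the gauge function `g_K(x) = inf {r > 0 : x ∈ r K}`.
-/

namespace Pool.Agent.W714.Mink

/-- `K` is the open domain bounded by a `C²`-smooth strictly convex closed curve, the origin lies in
`K`, and `γ` is a parametrisation of this curve by `g_K`-arc length, with period `ℓ`.  No symmetry
of `K` and no orientation of `γ` is assumed. -/
structure Table (K : Set ℂ) (γ : ℝ → ℂ) (ℓ : ℝ) : Prop where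
  isOpen : IsOpen K
  bounded : Bornology.IsBounded K
  convex : Convex ℝ K
  strictConvex : StrictConvex ℝ (closure K)
  zero_mem : (0 : ℂ) ∈ K
  length_pos : 0 < ℓ
  smooth : ContDiff ℝ 2 γ
  periodic : Function.Periodic γ ℓ
  simple : Set.InjOn γ (Set.Ico 0 ℓ)
  boundary : Set.range γ = frontier K
  unit_speed : ∀ t, gauge K (deriv γ t) = 1

/-- The phase cylinder: `(t, y)` stands for the oriented chord of `γ` with the end points `γ(t)` and
`γ(t₁)`, `t₁ = t + y`. -/
abbrev PhaseCyl (ℓ : ℝ) : Type := AddCircle ℓ × Set.Ioo (0 : ℝ) ℓ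

/-- The generating function `L(t, t₁) = g_K(γ(t₁) - γ(t))`. -/
noncomputable def genFun (K : Set ℂ) (γ : ℝ → ℂ) (t t₁ : ℝ) : ℝ := gauge K (γ t₁ - γ t)

/-- `T` is the Minkowski billiard map of `K`: it maps the chord `(t, t₁)` to the chord `(t₁, t₂)`
for which `∂₂L(t, t₁) + ∂₁L(t₁, t₂) = 0`. -/
def IsMinkowskiBilliard (K : Set ℂ) (γ : ℝ → ℂ) (ℓ : ℝ) (T : PhaseCyl ℓ → PhaseCyl ℓ) : Prop :=
  ∀ (t : ℝ) (y : Set.Ioo (0 : ℝ) ℓ), ∀ t₁ t₂ : ℝ, t₁ = t + y →
    t₂ = t₁ + (T ((t : AddCircle ℓ), y)).2 →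
    (T ((t : AddCircle ℓ), y)).1 = (t₁ : AddCircle ℓ) ∧
    deriv (fun s => genFun K γ t s) t₁ + deriv (fun s => genFun K γ s t₂) t₁ = 0

/-- `Γ` is a rotational invariant curve of `T`: a simple closed curve in the phase cylinder which is
not contractible in it and satisfies `T(Γ) = Γ`. -/
def IsRotational {ℓ : ℝ} (T : PhaseCyl ℓ → PhaseCyl ℓ) (Γ : Set (PhaseCyl ℓ)) : Prop :=
  ∃ c : C(AddCircle (1 : ℝ), PhaseCyl ℓ), Function.Injective c ∧ ¬ c.Nullhomotopic ∧
    Set.range c = Γ ∧ T '' Γ = Γ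

/-- The whole phase cylinder is foliated by rotational invariant curves of `T`: there is a set `F`
of rotational invariant curves of `T` such that each point of the phase cylinder lies on exactly one
of them, and such that each of them has an open neighbourhood which is the homeomorphic image of
`circle × ℝ` under a map `φ` for which the curve is the image of the circle `s = 0` and all the
images of the circles `s = constant` are curves in `F`. -/
def IsTotallyIntegrable {ℓ : ℝ} (T : PhaseCyl ℓ → PhaseCyl ℓ) : Prop :=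
  ∃ F : Set (Set (PhaseCyl ℓ)),
    (∀ z, ∃! Γ, Γ ∈ F ∧ z ∈ Γ) ∧
    (∀ Γ ∈ F, IsRotational T Γ) ∧
    ∀ Γ ∈ F, ∃ φ : AddCircle (1 : ℝ) × ℝ → PhaseCyl ℓ, Topology.IsOpenEmbedding φ ∧
      (Set.range fun u => φ (u, 0)) = Γ ∧ ∀ s, (Set.range fun u => φ (u, s)) ∈ F

/-- A (Euclidean) ellipse: an affine image of the unit circle. -/
def IsEllipse (E : Set ℂ) : Prop :=
  ∃ (A : ℂ ≃L[ℝ] ℂ) (c : ℂ), E = (fun z => A z + c) '' Metric.sphere 0 1

end Pool.Agent.W714.Mink
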