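import Pool.Agent.W714.Mink.Calib

set_option autoImplicit false

/-!
# The rational leaves are dense
-/

namespace Pool.Agent.W714.Mink

open Pool.Agent.W714.Coin Set Topology Filter

section Iterates

variable {ℓ : ℝ} {g : ℝ → ℝ} {p q : ℕ}

lemma iter_mul_q (hq : ∀ x, g^[q] x = x + p * ℓ) (k : ℕ) (x : ℝ) :
    g^[k * q] x = x + k * (p * ℓ) := by
  induction k with
  | zero => simp
  | succ k ih =>
    rw [Nat.succ_mul, Nat.add_comm (k * q) q, Function.iterate_add_apply, ih, hq]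
    push_cast; ring

lemma iter_le (n : ℕ) (c : ℝ) (h : ∀ y, g^[n] y ≤ y + c) (k : ℕ) (y : ℝ) :
    g^[k * n] y ≤ y + k * c := by
  induction k with
  | zero => simp
  | succ k ih =>
    rw [Nat.succ_mul, Nat.add_comm (k * n) n, Function.iterate_add_apply]
    have := h (g^[k * n] y)
    push_cast
    linarith

lemma iter_ge (n : ℕ) (c : ℝ) (h : ∀ y, y + c ≤ g^[n] y) (k : ℕ) (y : ℝ) :
    y + k * c ≤ g^[k * n] y := by
  induction k with
  | zero => simp
  | succ k ih =>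
    rw [Nat.succ_mul, Nat.add_comm (k * n) n, Function.iterate_add_apply]
    have := h (g^[k * n] y)
    push_cast
    linarith

lemma rot_le (hq : ∀ x, g^[q] x = x + p * ℓ) (n : ℕ) (c : ℝ) (h : ∀ y, g^[n] y ≤ y + c) :
    n * (p * ℓ) ≤ q * c := by
  have h1 := iter_le n c h q 0
  have h2 := iter_mul_q hq n 0
  rw [Nat.mul_comm] at h2
  rw [h2] at h1
  linarith

lemma rot_ge (hq : ∀ x, g^[q] x = x + p * ℓ) (n : ℕ) (c : ℝ) (h : ∀ y, y + c ≤ g^[n] y) :
    q * c ≤ n * (p * ℓ) := by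
  have h1 := iter_ge n c h q 0
  have h2 := iter_mul_q hq n 0
  rw [Nat.mul_comm] at h2
  rw [h2] at h1
  linarith

lemma iter_add_int (hper : ∀ x, g (x + ℓ) = g x + ℓ) (n : ℕ) (m : ℤ) (x : ℝ) :
    g^[n] (x + m * ℓ) = g^[n] x + m * ℓ := by
  have h1 : ∀ (m : ℤ) x, g (x + m * ℓ) = g x + m * ℓ := by
    intro m x
    induction m using Int.induction_on generalizing x with
    | zero => simp
    | succ i ih =>
      have := hper (x + i * ℓ)
      push_cast
      push_cast at ih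
      have e : x + (i + 1) * ℓ = x + i * ℓ + ℓ := by ring
      rw [e, this, ih]; ring
    | pred i ih =>
      have := hper (x + (-(i:ℝ) - 1) * ℓ)
      push_cast
      push_cast at ih
      have e : x + (-(i:ℝ) - 1) * ℓ + ℓ = x + -(i:ℝ) * ℓ := by ring
      rw [e, ih] at this
      linarith
  induction n with
  | zero => rfl
  | succ n ih => rw [Function.iterate_succ_apply', ih, h1, Function.iterate_succ_apply']

lemma rot_gt_of (hm : StrictMono g) (hper : ∀ x, g (x + ℓ) = g x + ℓ) (hL : 0 < ℓ)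
    (hq0 : 0 < q) (hq : ∀ x, g^[q] x = x + p * ℓ) (n : ℕ) (m : ℤ) (y : ℝ)
    (h : y + m * ℓ < g^[n] y) : (q : ℝ) * m < n * p := by
  have h1 : ∀ k : ℕ, 0 < k → y + (k * m : ℝ) * ℓ < g^[k * n] y := by
    intro k hk
    induction k, hk using Nat.le_induction with
    | base => simpa using h
    | succ k hk ih =>
      have h2 : g^[n] (y + ((k * m : ℤ) : ℝ) * ℓ) < g^[n] (g^[k * n] y) :=
        (hm.iterate n) (by push_cast; exact ih)
      rw [iter_add_int hper] at h2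
      rw [Nat.succ_mul, Nat.add_comm (k * n) n, Function.iterate_add_apply]
      push_cast at h2 ⊢
      linarith
  have h2 := h1 q hq0
  have h3 := iter_mul_q hq n y
  rw [Nat.mul_comm] at h3
  rw [h3] at h2
  have h4 : (q * m : ℝ) * ℓ < (n * p) * ℓ := by linarith
  exact lt_of_mul_lt_mul_right h4 hL.le

lemma rot_lt_of (hm : StrictMono g) (hper : ∀ x, g (x + ℓ) = g x + ℓ) (hL : 0 < ℓ)
    (hq0 : 0 < q) (hq : ∀ x, g^[q] x = x + p * ℓ) (n : ℕ) (m : ℤ) (y : ℝ)
    (h : g^[n] y < y + m * ℓ) : (n : ℝ) * p < q * m := by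
  have h1 : ∀ k : ℕ, 0 < k → g^[k * n] y < y + (k * m : ℝ) * ℓ := by
    intro k hk
    induction k, hk using Nat.le_induction with
    | base => simpa using h
    | succ k hk ih =>
      have h2 : g^[n] (g^[k * n] y) < g^[n] (y + ((k * m : ℤ) : ℝ) * ℓ) :=
        (hm.iterate n) (by push_cast; exact ih)
      rw [iter_add_int hper] at h2
      rw [Nat.succ_mul, Nat.add_comm (k * n) n, Function.iterate_add_apply]
      push_cast at h2 ⊢
      linarith
  have h2 := h1 q hq0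
  have h3 := iter_mul_q hq n y
  rw [Nat.mul_comm] at h3
  rw [h3] at h2
  have h4 : (n * p : ℝ) * ℓ < (q * m) * ℓ := by linarith
  exact lt_of_mul_lt_mul_right h4 hL.le

/-- comparison of iterates -/
lemma iter_gap {g g' : ℝ → ℝ} (hm : StrictMono g) {δ : ℝ} (hδ : 0 ≤ δ)
    (h : ∀ x, g x + δ ≤ g' x) (n : ℕ) (hn : 0 < n) (y : ℝ) : g^[n] y + δ ≤ g'^[n] y := by
  have h0 : ∀ n : ℕ, g^[n] y ≤ g'^[n] y := by
    intro n
    induction n with
    | zero => simp
    | succ n ih =>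
      rw [Function.iterate_succ_apply', Function.iterate_succ_apply']
      have h1 := hm.monotone ih
      have h2 := h (g'^[n] y)
      linarith
  obtain ⟨m, rfl⟩ : ∃ m, n = m + 1 := ⟨n - 1, by omega⟩
  rw [Function.iterate_succ_apply', Function.iterate_succ_apply']
  have h1 := hm.monotone (h0 m)
  have h2 := h (g'^[m] y)
  linarith

end Iterates

/-- the arithmetic part: circle maps with rational rotation numbers on the two sides of a cut cannot
be uniformly separated -/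
lemma no_gap {ℓ : ℝ} (hL : 0 < ℓ) {P M : ℝ → ℝ → ℝ} (g : ℕ → ℕ → ℝ → ℝ)
    (hg : ∀ p q, 0 < p → p < q → IsCirc ℓ P M (g p q))
    (hgq : ∀ p q, 0 < p → p < q → ∀ x, (g p q)^[q] x = x + p * ℓ)
    (A B : ℕ → ℕ → Prop) (hAB : ∀ p q, 0 < p → p < q → A p q ∨ B p q)
    (hA : ∃ p q, 0 < p ∧ p < q ∧ A p q) (hB : ∃ p q, 0 < p ∧ p < q ∧ B p q) {δ : ℝ} (hδ : 0 < δ)
    (hsep : ∀ p q p' q', 0 < p → p < q → 0 < p' → p' < q' → A p q → B p' q' →
      ∀ x, g p q x + δ ≤ g p' q' x) : False := by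
  -- order of the ratios
  have hord : ∀ p q p' q', 0 < p → p < q → 0 < p' → p' < q' → A p q → B p' q' →
      (p : ℝ) / q < p' / q' := by
    intro p q p' q' h1 h2 h3 h4 h5 h6
    have hq : (0:ℝ) < q := by exact_mod_cast h1.trans h2
    have hq' : (0:ℝ) < q' := by exact_mod_cast h3.trans h4
    have e1 := iter_gap (hg p q h1 h2).mono hδ.le (hsep p q p' q' h1 h2 h3 h4 h5 h6) (q * q')
      (Nat.mul_pos (h1.trans h2) (h3.trans h4)) 0
    have e2 := iter_mul_q (hgq p q h1 h2) q' 0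
    have e3 := iter_mul_q (hgq p' q' h3 h4) q 0
    rw [Nat.mul_comm q' q] at e2
    rw [e2, e3] at e1
    rw [div_lt_div_iff₀ hq hq']
    have e4 : (p * q' : ℝ) * ℓ < (p' * q) * ℓ := by nlinarith
    exact lt_of_mul_lt_mul_right e4 hL.le
  set R : Set ℝ := {x | ∃ p q, 0 < p ∧ p < q ∧ A p q ∧ x = (p : ℝ) / q} with hR
  obtain ⟨p₀, q₀, a1, a2, a3⟩ := hA
  obtain ⟨p₁, q₁, b1, b2, b3⟩ := hB
  have hRne : R.Nonempty := ⟨_, p₀, q₀, a1, a2, a3, rfl⟩
  have hRbd : BddAbove R := by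
    refine ⟨(p₁ : ℝ) / q₁, ?_⟩
    rintro x ⟨p, q, h1, h2, h3, rfl⟩
    exact (hord p q p₁ q₁ h1 h2 b1 b2 h3 b3).le
  set ω := sSup R with hω
  have hAω : ∀ p q, 0 < p → p < q → A p q → (p : ℝ) / q ≤ ω := fun p q h1 h2 h3 =>
    le_csSup hRbd ⟨p, q, h1, h2, h3, rfl⟩
  have hBω : ∀ p q, 0 < p → p < q → B p q → ω ≤ (p : ℝ) / q := fun p' q' h1 h2 h3 => by
    apply csSup_le hRne
    rintro x ⟨p, q, k1, k2, k3, rfl⟩
    exact (hord p q p' q' k1 k2 h1 h2 k3 h3).le
  have hω0 : 0 < ω := by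
    have hq : (0:ℝ) < q₀ := by exact_mod_cast a1.trans a2
    have hp : (0:ℝ) < p₀ := by exact_mod_cast a1
    exact (div_pos hp hq).trans_le (hAω p₀ q₀ a1 a2 a3)
  have hω1 : ω < 1 := by
    have hq : (0:ℝ) < q₁ := by exact_mod_cast b1.trans b2
    refine (hBω p₁ q₁ b1 b2 b3).trans_lt ?_
    rw [div_lt_one hq]
    exact_mod_cast b2
  -- members of `A` near `ω`
  have hnearA : ∀ c < ω, ∃ p q, 0 < p ∧ p < q ∧ A p q ∧ c < (p : ℝ) / q := by
    intro c hc
    obtain ⟨x, ⟨p, q, h1, h2, h3, rfl⟩, hx⟩ := exists_lt_of_lt_csSup hRne hc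
    exact ⟨p, q, h1, h2, h3, hx⟩
  -- members of `B` near `ω`
  have hnearB : ∀ c, ω < c → ∃ p q, 0 < p ∧ p < q ∧ B p q ∧ (p : ℝ) / q < c := by
    intro c hc
    obtain ⟨r, hr1, hr2⟩ := exists_rat_btwn (lt_min hc hω1)
    have hr0 : 0 < r := by
      have : (0:ℝ) < r := hω0.trans hr1
      exact_mod_cast this
    have hr3 : (r : ℝ) < 1 := hr2.trans_le (min_le_right _ _)
    have hr4 : r < 1 := by exact_mod_cast hr3
    have hnum : 0 < r.num := Rat.num_pos.mpr hr0
    have hval : (r : ℝ) = ((r.num.toNat : ℕ) : ℝ) / ((r.den : ℕ) : ℝ) := by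
      have h1 : ((r.num.toNat : ℕ) : ℤ) = r.num := Int.toNat_of_nonneg hnum.le
      have h2 : ((r.num.toNat : ℕ) : ℝ) = (r.num : ℝ) := by exact_mod_cast h1
      rw [h2]
      exact_mod_cast (Rat.num_div_den r).symm
    have hp0 : 0 < r.num.toNat := by omega
    have hpq : r.num.toNat < r.den := by
      have hd : (0:ℝ) < ((r.den : ℕ) : ℝ) := by exact_mod_cast r.den_pos
      rw [hval, div_lt_one hd] at hr3
      exact_mod_cast hr3
    refine ⟨r.num.toNat, r.den, hp0, hpq, ?_, ?_⟩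
    · rcases hAB _ _ hp0 hpq with h | h
      · exfalso
        have := hAω _ _ hp0 hpq h
        rw [← hval] at this
        linarith
      · exact h
    · rw [← hval]; exact hr2.trans_le (min_le_left _ _)
  -- Dirichlet
  obtain ⟨N, hN⟩ := exists_nat_gt (ℓ / δ)
  have hNpos : 0 < N := by
    have : (0:ℝ) < N := (div_pos hL hδ).trans hN
    exact_mod_cast this
  obtain ⟨m, n', hn', -, hmn⟩ := Real.exists_int_int_abs_mul_sub_le ω hNpos
  obtain ⟨n, rfl⟩ : ∃ n : ℕ, n' = n := ⟨n'.toNat, by omega⟩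
  have hn : 0 < n := by exact_mod_cast hn'
  have hnr : (0:ℝ) < n := by exact_mod_cast hn
  have hsmall : |(n : ℝ) * ω - m| < δ / ℓ := by
    have h1 : |(n : ℝ) * ω - m| ≤ 1 / ((N : ℝ) + 1) := by exact_mod_cast hmn
    refine h1.trans_lt ?_
    rw [div_lt_div_iff₀ (by positivity) hL]
    rw [div_lt_iff₀ hδ] at hN
    linarith
  rw [abs_lt] at hsmall
  -- first type
  have hα : ∀ p' q', 0 < p' → p' < q' → B p' q' → ¬ ((n:ℝ) * p' ≤ q' * m) := by
    intro p' q' h1 h2 h3 h4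
    obtain ⟨p, q, k1, k2, k3, k4⟩ := hnearA ((m - δ / ℓ) / n) (by
      rw [div_lt_iff₀ hnr]; linarith [hsmall.1])
    have hq : (0:ℝ) < q := by exact_mod_cast k1.trans k2
    obtain ⟨y, hy⟩ : ∃ y, y + (m * ℓ - δ) < (g p q)^[n] y := by
      by_contra hcon
      push Not at hcon
      have h5 := rot_le (hgq p q k1 k2) n _ hcon
      rw [div_lt_div_iff₀ hnr hq] at k4
      have h6 : (m - δ / ℓ) * q * ℓ < p * n * ℓ := mul_lt_mul_of_pos_right k4 hL
      have h7 : (m - δ / ℓ) * q * ℓ = q * (m * ℓ - δ) := by field_simp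
      rw [h7] at h6
      linarith
    have h5 := iter_gap (hg p q k1 k2).mono hδ.le (hsep p q p' q' k1 k2 h1 h2 k3 h3) n hn y
    have h6 := rot_gt_of (hg p' q' h1 h2).mono (hg p' q' h1 h2).per hL (h1.trans h2)
      (hgq p' q' h1 h2) n m y (by linarith)
    linarith
  have hβ : ∀ p q, 0 < p → p < q → A p q → ¬ ((q:ℝ) * m ≤ n * p) := by
    intro p q k1 k2 k3 h4
    obtain ⟨p', q', h1, h2, h3, h5⟩ := hnearB ((m + δ / ℓ) / n) (by
      rw [lt_div_iff₀ hnr]; linarith [hsmall.2])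
    have hq : (0:ℝ) < q' := by exact_mod_cast h1.trans h2
    obtain ⟨y, hy⟩ : ∃ y, (g p' q')^[n] y < y + (m * ℓ + δ) := by
      by_contra hcon
      push Not at hcon
      have h6 := rot_ge (hgq p' q' h1 h2) n _ hcon
      rw [div_lt_div_iff₀ hq hnr] at h5
      have h7 : p' * n * ℓ < (m + δ / ℓ) * q' * ℓ := mul_lt_mul_of_pos_right h5 hL
      have h8 : (m + δ / ℓ) * q' * ℓ = q' * (m * ℓ + δ) := by field_simp
      rw [h8] at h7
      linarith
    have h5 := iter_gap (hg p q k1 k2).mono hδ.le (hsep p q p' q' k1 k2 h1 h2 k3 h3) n hn y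
    have h6 := rot_lt_of (hg p q k1 k2).mono (hg p q k1 k2).per hL (k1.trans k2)
      (hgq p q k1 k2) n m y (by linarith)
    linarith
  rcases lt_trichotomy ((n:ℝ) * ω) m with h | h | h
  · obtain ⟨p', q', h1, h2, h3, h4⟩ := hnearB (m / n) (by rw [lt_div_iff₀ hnr]; linarith)
    have hq : (0:ℝ) < q' := by exact_mod_cast h1.trans h2
    apply hα p' q' h1 h2 h3
    rw [div_lt_div_iff₀ hq hnr] at h4
    linarith
  · have hm0 : (0:ℝ) < m := by rw [← h]; positivity
    have hmn : (m:ℝ) < n := by rw [← h]; nlinarith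
    obtain ⟨m', rfl⟩ : ∃ m' : ℕ, m = m' := ⟨m.toNat, by
      have : 0 < m := by exact_mod_cast hm0
      omega⟩
    have c1 : 0 < m' := by exact_mod_cast hm0
    have c2 : m' < n := by exact_mod_cast hmn
    rcases hAB m' n c1 c2 with h1 | h1
    · exact hβ m' n c1 c2 h1 (by push_cast; linarith)
    · exact hα m' n c1 c2 h1 (by push_cast; linarith)
  · obtain ⟨p, q, h1, h2, h3, h4⟩ := hnearA (m / n) (by rw [div_lt_iff₀ hnr]; linarith)
    have hq : (0:ℝ) < q := by exact_mod_cast h1.trans h2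
    apply hβ p q h1 h2 h3
    rw [div_lt_div_iff₀ hnr hq] at h4
    linarith

end Pool.Agent.W714.Mink
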