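import Pool.Agent.W714.Mink.Lin
import Pool.Agent.W714.Mink.Arc
import Pool.Agent.Helper793.CM.Wir

set_option autoImplicit false

/-!
# Second order expansion of the shift inequality
-/

namespace Pool.Agent.W714.Mink

open Complex Set Topology Filter MeasureTheory
open scoped ComplexConjugate

/-- differentiation of a correlation integral -/
lemma hasDerivAt_conv {a a' b : ℝ → ℂ} (ha : ∀ x, HasDerivAt a (a' x) x) (ha' : Continuous a')
    (hb : Continuous b) {p q : ℝ} (hpq : p ≤ q) (ε₀ : ℝ) :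
    HasDerivAt (fun ε : ℝ => ∫ s in p..q, a (s + ε) * b s) (∫ s in p..q, a' (s + ε₀) * b s) ε₀ := by
  have hac : Continuous a := continuous_iff_continuousAt.mpr fun x => (ha x).continuousAt
  obtain ⟨C, hC⟩ := (isCompact_Icc (a := p) (b := q)).prod (isCompact_Icc (a := ε₀ - 1) (b := ε₀ + 1))
    |>.exists_bound_of_continuousOn (f := fun x : ℝ × ℝ => a' (x.1 + x.2) * b x.1)
    (by fun_prop)
  refine (intervalIntegral.hasDerivAt_integral_of_dominated_loc_of_deriv_le
    (F := fun ε s => a (s + ε) * b s) (F' := fun ε s => a' (s + ε) * b s)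
    (bound := fun _ => C) (s := Ioo (ε₀ - 1) (ε₀ + 1)) (Ioo_mem_nhds (by linarith) (by linarith))
    ?_ ?_ ?_ ?_ ?_ ?_).2
  · refine Eventually.of_forall fun ε => ?_
    have : Continuous fun s => a (s + ε) * b s := by fun_prop
    exact this.aestronglyMeasurable
  · have : Continuous fun s => a (s + ε₀) * b s := by fun_prop
    exact this.intervalIntegrable _ _
  · have : Continuous fun s => a' (s + ε₀) * b s := by fun_prop
    exact this.aestronglyMeasurable
  · refine Eventually.of_forall fun s hs ε hε => ?_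
    rw [uIoc_of_le hpq] at hs
    exact hC (s, ε) ⟨⟨hs.1.le, hs.2⟩, ⟨hε.1.le, hε.2.le⟩⟩
  · exact intervalIntegrable_const
  · refine Eventually.of_forall fun s _ ε _ => ?_
    exact ((ha (s + ε)).comp_const_add s ε).mul_const _

lemma continuous_conv {a b : ℝ → ℂ} (ha : Continuous a) (hb : Continuous b) (p q : ℝ) :
    Continuous fun ε : ℝ => ∫ s in p..q, a (s + ε) * b s :=
  intervalIntegral.continuous_parametric_intervalIntegral_of_continuous' (by fun_prop) _ _

/-- second order Taylor expansion -/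
lemma tendsto_second {a b : ℝ → ℝ} {c : ℝ} (ha : ∀ x, HasDerivAt a (b x) x) (hb0 : b 0 = 0)
    (hb : HasDerivAt b c 0) :
    Tendsto (fun x => (a x - a 0) / x ^ 2) (𝓝[≠] 0) (𝓝 (c / 2)) := by
  apply HasDerivAt.lhopital_zero_nhdsNE (f' := b) (g' := fun x => 2 * x)
  · exact Eventually.of_forall fun x => (ha x).sub_const _
  · refine Eventually.of_forall fun x => ?_
    have := hasDerivAt_pow 2 x
    simpa using this
  · filter_upwards [self_mem_nhdsWithin] with x hx
    exact mul_ne_zero two_ne_zero hx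
  · have h1 : Tendsto (fun x => a x - a 0) (𝓝 0) (𝓝 (a 0 - a 0)) :=
      (ha 0).continuousAt.tendsto.sub_const _
    rw [sub_self] at h1
    exact h1.mono_left nhdsWithin_le_nhds
  · have h1 : Tendsto (fun x : ℝ => x ^ 2) (𝓝 0) (𝓝 (0 ^ 2)) :=
      (continuous_pow 2).tendsto 0
    rw [zero_pow two_ne_zero] at h1
    exact h1.mono_left nhdsWithin_le_nhds
  · have h1 := hasDerivAt_iff_tendsto_slope.mp hb
    have h2 := h1.div_const 2
    apply h2.congr'
    filter_upwards [self_mem_nhdsWithin] with x hx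
    rw [slope_def_field, hb0, sub_zero, sub_zero]
    have hx' : x ≠ 0 := hx
    field_simp

lemma tendsto_slope_zero {a : ℝ → ℝ} {c : ℝ} (ha : HasDerivAt a c 0) (h0 : a 0 = 0) :
    Tendsto (fun x => a x / x) (𝓝[≠] 0) (𝓝 c) := by
  have h1 := hasDerivAt_iff_tendsto_slope.mp ha
  apply h1.congr'
  filter_upwards with x
  rw [slope_def_field, h0, sub_zero, sub_zero]

lemma hasDerivAt_re {f : ℝ → ℂ} {f' : ℂ} {x : ℝ} (h : HasDerivAt f f' x) :
    HasDerivAt (fun x => (f x).re) f'.re x := Complex.reCLM.hasFDerivAt.comp_hasDerivAt x h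

lemma hasDerivAt_im {f : ℝ → ℂ} {f' : ℂ} {x : ℝ} (h : HasDerivAt f f' x) :
    HasDerivAt (fun x => (f x).im) f'.im x := Complex.imCLM.hasFDerivAt.comp_hasDerivAt x h

/-- the integral of `f f'` over a period -/
lemma int_self_mul {f f' : ℝ → ℂ} {T p : ℝ} (hf : ∀ x, HasDerivAt f (f' x) x) (hf' : Continuous f')
    (hp : f (p + T) = f p) : ∫ s in p..(p + T), f s * f' s = 0 := by
  have hd : ∀ x, HasDerivAt (fun x => f x * f x / 2) (f x * f' x) x := by
    intro x
    have h1 := ((hf x).mul (hf x)).div_const 2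
    refine HasDerivAt.congr_deriv h1 ?_
    ring
  have hfc : Continuous f := continuous_iff_continuousAt.mpr fun x => (hf x).continuousAt
  rw [intervalIntegral.integral_eq_sub_of_hasDerivAt (fun x _ => hd x)
    ((hfc.mul hf').intervalIntegrable _ _), hp, sub_self]

/-- the real part of the integral of `f conj f'` over a period -/
lemma int_self_mul_conj {f f' : ℝ → ℂ} {T p : ℝ} (hf : ∀ x, HasDerivAt f (f' x) x)
    (hf' : Continuous f') (hp : f (p + T) = f p) : (∫ s in p..(p + T), f s * conj (f' s)).re = 0 := by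
  have hfc : Continuous f := continuous_iff_continuousAt.mpr fun x => (hf x).continuousAt
  have hd : ∀ x, HasDerivAt (fun x => ((f x * conj (f x)).re) / 2) (f x * conj (f' x)).re x := by
    intro x
    have h1 := (hasDerivAt_re ((hf x).mul (hf x).star)).div_const 2
    refine HasDerivAt.congr_deriv h1 ?_
    simp only [Complex.star_def, Complex.add_re, Complex.mul_re, Complex.conj_re, Complex.conj_im]
    ring
  have hc : Continuous fun x => f x * conj (f' x) := hfc.mul (Complex.continuous_conj.comp hf')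
  have h1 := intervalIntegral.intervalIntegral_re (μ := volume) (a := p) (b := p + T)
    (f := fun x => f x * conj (f' x)) (hc.intervalIntegrable _ _)
  simp only [RCLike.re_to_complex] at h1
  rw [← h1, intervalIntegral.integral_eq_sub_of_hasDerivAt (fun x _ => hd x)
    ((Complex.continuous_re.comp hc).intervalIntegrable _ _), hp, sub_self]

section Norm

variable {g : ℂ → ℝ} {G : ℂ → ℂ} {R : ℝ → ℝ}

/-- the mixed energy -/
noncomputable def XX (R : ℝ → ℝ) : ℝ := ∫ θ in (-Real.pi)..Real.pi, R θ ^ 2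

/-- autocorrelation of the curvature radius -/
noncomputable def rho2 (R : ℝ → ℝ) (δ : ℝ) : ℝ := ∫ θ in (-Real.pi)..Real.pi, R (θ + δ) * R θ

lemma continuous_rho2 (hN : Nrm g G R) : Continuous (rho2 R) := by
  have := hN.contR
  exact intervalIntegral.continuous_parametric_intervalIntegral_of_continuous' (by fun_prop) _ _

lemma rho2_zero : rho2 R 0 = XX R := by
  unfold rho2 XX
  congr 1
  funext θ
  rw [add_zero]; ring

lemma hasDerivAt_D1 (hN : Nrm g G R) (δ : ℝ) :
    HasDerivAt (D1 G R) ((rho2 R δ : ℂ) * exp (δ * I)) δ := by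
  have h1 := hasDerivAt_conv (a := pp G) (a' := pq R) (b := fun θ => conj (pq R θ))
    (hasDerivAt_pp hN) (continuous_pq hN) (Complex.continuous_conj.comp (continuous_pq hN))
    (p := -Real.pi) (q := Real.pi) (by linarith [Real.pi_pos]) δ
  refine HasDerivAt.congr_deriv h1 ?_
  have e : ∀ θ : ℝ, pq R (θ + δ) * conj (pq R θ) = ((R (θ + δ) * R θ : ℝ) : ℂ) * exp (δ * I) := by
    intro θ
    simp only [pq, map_mul, conj_ofReal, conj_I, ← exp_conj]
    have h2 : exp (((θ + δ : ℝ) : ℂ) * I) * exp ((θ : ℂ) * -I) = exp (δ * I) := by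
      rw [← exp_add]; congr 1; push_cast; ring
    push_cast at h2 ⊢
    linear_combination (R (θ + δ) * R θ : ℂ) * h2
      - (R (θ + δ) * R θ * exp ((↑θ + ↑δ) * I) * exp (↑θ * -I) : ℂ) * I_sq
  simp only [e]
  rw [intervalIntegral.integral_mul_const, intervalIntegral.integral_ofReal]
  rfl

lemma pp_period : pp G (-Real.pi + 2 * Real.pi) = pp G (-Real.pi) := periodic_pp _

lemma D1_zero_re (hN : Nrm g G R) : (D1 G R 0).re = 0 := by
  have h1 := int_self_mul_conj (p := -Real.pi) (T := 2 * Real.pi) (hasDerivAt_pp hN)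
    (continuous_pq hN) pp_period
  rw [show -Real.pi + 2 * Real.pi = Real.pi by ring] at h1
  unfold D1
  simp only [add_zero]
  exact h1

/-- the support function -/
noncomputable def hh (G : ℂ → ℂ) (θ : ℝ) : ℝ := ip (pp G θ) (exp (θ * I))

/-- the derivative of the support function -/
noncomputable def kk (G : ℂ → ℂ) (θ : ℝ) : ℝ := ip (pp G θ) (I * exp (θ * I))

lemma hasDerivAt_exp (θ : ℝ) : HasDerivAt (fun θ : ℝ => exp (θ * I)) (I * exp (θ * I)) θ := by
  have h1 : HasDerivAt (fun θ : ℝ => ((θ : ℂ) * I)) (1 * I) θ :=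
    (Complex.ofRealCLM.hasDerivAt (x := θ)).mul_const I
  have h2 := h1.cexp
  rw [one_mul, mul_comm] at h2
  exact h2

lemma HasDerivAt.ip' {a b : ℝ → ℂ} {a' b' : ℂ} {x : ℝ} (ha : HasDerivAt a a' x)
    (hb : HasDerivAt b b' x) : HasDerivAt (fun x => ip (a x) (b x)) (ip a' (b x) + ip (a x) b') x := by
  have h1 := ((hasDerivAt_re ha).mul (hasDerivAt_re hb)).add ((hasDerivAt_im ha).mul (hasDerivAt_im hb))
  refine HasDerivAt.congr_deriv h1 ?_
  simp only [ip]
  ring

lemma exp_re_sq (θ : ℝ) : (exp (θ * I)).re ^ 2 + (exp (θ * I)).im ^ 2 = 1 := by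
  have h1 : ‖exp (θ * I)‖ ^ 2 = 1 := by rw [norm_exp_ofReal_mul_I]; norm_num
  rw [Complex.sq_norm, Complex.normSq_apply] at h1
  linarith

lemma hasDerivAt_hh (hN : Nrm g G R) (θ : ℝ) : HasDerivAt (hh G) (kk G θ) θ := by
  have h1 := HasDerivAt.ip' (hasDerivAt_pp hN θ) (hasDerivAt_exp θ)
  refine HasDerivAt.congr_deriv h1 ?_
  have : ip (pq R θ) (exp (θ * I)) = 0 := by
    rw [pq, smul_ip]
    simp only [ip, Complex.mul_re, Complex.mul_im, Complex.I_re, Complex.I_im]
    ring
  rw [this, zero_add]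
  rfl

lemma hasDerivAt_kk (hN : Nrm g G R) (θ : ℝ) : HasDerivAt (kk G) (R θ - hh G θ) θ := by
  have h1 := HasDerivAt.ip' (hasDerivAt_pp hN θ) ((hasDerivAt_exp θ).const_mul I)
  refine HasDerivAt.congr_deriv h1 ?_
  have e := exp_re_sq θ
  rw [pq, smul_ip, hh]
  simp only [ip, Complex.mul_re, Complex.mul_im, Complex.I_re, Complex.I_im]
  linear_combination (R θ) * e

lemma hh_pos (hN : Nrm g G R) (θ : ℝ) : 0 < hh G θ := by
  rw [hh, pp, hN.euler _ (exp_ne_zero _)]
  exact hN.pos _ (exp_ne_zero _)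

lemma hh_periodic : Function.Periodic (hh G) (2 * Real.pi) := by
  intro θ
  simp only [hh, periodic_pp θ, exp_periodic']

lemma kk_periodic : Function.Periodic (kk G) (2 * Real.pi) := by
  intro θ
  simp only [kk, periodic_pp θ, exp_periodic']

lemma D1_zero_im (hN : Nrm g G R) :
    (D1 G R 0).im = -∫ θ in (-Real.pi)..Real.pi, R θ * hh G θ := by
  have c1 := continuous_pp hN
  have c2 := continuous_pq hN
  have hc : Continuous fun θ => pp G (θ + 0) * conj (pq R θ) :=
    (c1.comp (by fun_prop)).mul (Complex.continuous_conj.comp c2)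
  have h1 := intervalIntegral.intervalIntegral_im (μ := volume) (a := -Real.pi) (b := Real.pi)
    (f := fun θ => pp G (θ + 0) * conj (pq R θ)) (hc.intervalIntegrable _ _)
  simp only [RCLike.im_to_complex] at h1
  rw [D1, ← h1, ← intervalIntegral.integral_neg]
  congr 1
  funext θ
  rw [add_zero, hh, pq]
  simp only [ip, Complex.mul_re, Complex.mul_im, Complex.conj_re, Complex.conj_im, Complex.I_re,
    Complex.I_im, Complex.ofReal_re, Complex.ofReal_im, map_mul]
  ring

/-- the area-type constant is at most the energy -/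
lemma a0_le_XX (hN : Nrm g G R) :
    ∫ θ in (-Real.pi)..Real.pi, R θ * hh G θ ≤ XX R := by
  have hRc := hN.contR
  have hhc : Continuous (hh G) := continuous_iff_continuousAt.mpr fun x =>
    (hasDerivAt_hh hN x).continuousAt
  have hkc : Continuous (kk G) := continuous_iff_continuousAt.mpr fun x =>
    (hasDerivAt_kk hN x).continuousAt
  have hper : ∀ f : ℝ → ℝ, Function.Periodic f (2 * Real.pi) →
      ∫ θ in (-Real.pi)..Real.pi, f θ = ∫ θ in (0:ℝ)..(2 * Real.pi), f θ := by
    intro f hf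
    have h1 := hf.intervalIntegral_add_eq (-Real.pi) 0
    rw [show -Real.pi + 2 * Real.pi = Real.pi by ring, zero_add] at h1
    exact h1
  have hRp := R_periodic hN
  have e1 := hper (fun θ => R θ * hh G θ) (by
    intro θ; simp only [hRp θ, hh_periodic θ])
  have e2 := hper (fun θ => R θ ^ 2) (by intro θ; simp only [hRp θ])
  rw [XX, e1, e2]
  -- integrals
  have hpi := Real.pi_pos
  have i1 : ∫ θ in (0:ℝ)..(2 * Real.pi), kk G θ = 0 := by
    rw [intervalIntegral.integral_eq_sub_of_hasDerivAt (fun x _ => hasDerivAt_hh hN x)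
      (hkc.intervalIntegrable _ _)]
    have := hh_periodic (G := G) 0
    rw [zero_add] at this
    rw [this, sub_self]
  have i2 : ∫ θ in (0:ℝ)..(2 * Real.pi), (kk G θ * kk G θ + hh G θ * (R θ - hh G θ)) = 0 := by
    rw [intervalIntegral.integral_eq_sub_of_hasDerivAt (f := fun θ => hh G θ * kk G θ)
      (fun x _ => (hasDerivAt_hh hN x).mul (hasDerivAt_kk hN x))
      ((show Continuous fun θ => kk G θ * kk G θ + hh G θ * (R θ - hh G θ) by
        fun_prop).intervalIntegrable _ _)]
    have h1 := hh_periodic (G := G) 0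
    have h2 := kk_periodic (G := G) 0
    rw [zero_add] at h1 h2
    rw [h1, h2, sub_self]
  have i3 := Pool.Agent.Helper793.CM.wirtinger (W := 2 * Real.pi) (by positivity)
    (v := fun θ => (kk G θ : ℂ)) (v' := fun θ => ((R θ - hh G θ : ℝ) : ℂ))
    (fun s => (hasDerivAt_kk hN s).ofReal_comp) (by fun_prop)
    (by have := kk_periodic (G := G) 0; rw [zero_add] at this; rw [this])
  have i4 : Pool.Agent.Helper793.CM.mean (2 * Real.pi) (fun θ => (kk G θ : ℂ)) = 0 := by
    unfold Pool.Agent.Helper793.CM.mean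
    rw [intervalIntegral.integral_ofReal, i1]
    simp
  have hq : 2 * Real.pi / (2 * Real.pi) = 1 := div_self (by positivity)
  rw [i4, hq] at i3
  simp only [sub_zero, one_pow, one_mul, Complex.norm_real, Real.norm_eq_abs, sq_abs] at i3
  have c1 : Continuous fun θ => kk G θ ^ 2 := by fun_prop
  have c2 : Continuous fun θ => (R θ - hh G θ) ^ 2 := by fun_prop
  have c3 : Continuous fun θ => kk G θ * kk G θ + hh G θ * (R θ - hh G θ) := by fun_prop
  have c4 : Continuous fun θ => R θ * hh G θ := by fun_prop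
  have e3 : ∫ θ in (0:ℝ)..(2 * Real.pi), R θ ^ 2 = (∫ θ in (0:ℝ)..(2 * Real.pi), R θ * hh G θ)
      + ((∫ θ in (0:ℝ)..(2 * Real.pi), (R θ - hh G θ) ^ 2)
        - (∫ θ in (0:ℝ)..(2 * Real.pi), kk G θ ^ 2)
        + ∫ θ in (0:ℝ)..(2 * Real.pi), (kk G θ * kk G θ + hh G θ * (R θ - hh G θ))) := by
    have c12 : Continuous fun θ => (R θ - hh G θ) ^ 2 - kk G θ ^ 2 := by fun_prop
    have c123 : Continuous fun θ => (R θ - hh G θ) ^ 2 - kk G θ ^ 2
        + (kk G θ * kk G θ + hh G θ * (R θ - hh G θ)) := by fun_prop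
    rw [← intervalIntegral.integral_sub (c2.intervalIntegrable _ _) (c1.intervalIntegrable _ _),
      ← intervalIntegral.integral_add (c12.intervalIntegrable _ _)
        (c3.intervalIntegrable _ _), ← intervalIntegral.integral_add (c4.intervalIntegrable _ _)
        (c123.intervalIntegrable _ _)]
    congr 1
    funext θ
    ring
  rw [e3, i2]
  linarith

lemma a0_pos (hN : Nrm g G R) : 0 < ∫ θ in (-Real.pi)..Real.pi, R θ * hh G θ := by
  have hhc : Continuous (hh G) := continuous_iff_continuousAt.mpr fun x =>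
    (hasDerivAt_hh hN x).continuousAt
  have hRc := hN.contR
  have hpi := Real.pi_pos
  obtain ⟨τ, hτ, hR⟩ := hN.exists_R_pos (show -Real.pi < Real.pi by linarith)
  exact intervalIntegral.integral_pos (by linarith)
    (show Continuous fun θ => R θ * hh G θ by fun_prop).continuousOn
    (fun x _ => mul_nonneg (hN.nonneg x) (hh_pos hN x).le)
    ⟨τ, Ioo_subset_Icc_self hτ, mul_pos hR (hh_pos hN τ)⟩

end Norm

section Curve

variable {c : ℝ → ℂ} {W : ℝ}

/-- correlation of the curve -/
noncomputable def C1 (c : ℝ → ℂ) (W ε : ℝ) : ℂ := ∫ s in (0:ℝ)..W, c (s + ε) * conj (deriv c s)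

/-- correlation of the curve -/
noncomputable def C2 (c : ℝ → ℂ) (W ε : ℝ) : ℂ := ∫ s in (0:ℝ)..W, c (s + ε) * deriv c s

/-- twice the enclosed area -/
noncomputable def twoA (c : ℝ → ℂ) (W : ℝ) : ℝ := ∫ s in (0:ℝ)..W, (conj (c s) * deriv c s).im

lemma C1_zero_re (h : RCurve c W) : (C1 c W 0).re = 0 := by
  have h1 := int_self_mul_conj (p := 0) (T := W) (hasDerivAt h) (continuous_deriv' h) (h.per 0)
  rw [zero_add] at h1
  unfold C1
  simp only [add_zero]
  exact h1

lemma C1_zero_im (h : RCurve c W) : (C1 c W 0).im = -twoA c W := by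
  have c1 := h.smooth.continuous
  have c2 := continuous_deriv' h
  have hc : Continuous fun s => c (s + 0) * conj (deriv c s) :=
    (c1.comp (by fun_prop)).mul (Complex.continuous_conj.comp c2)
  have h1 := intervalIntegral.intervalIntegral_im (μ := volume) (a := 0) (b := W)
    (f := fun s => c (s + 0) * conj (deriv c s)) (hc.intervalIntegrable _ _)
  simp only [RCLike.im_to_complex] at h1
  rw [C1, ← h1, twoA, ← intervalIntegral.integral_neg]
  congr 1
  funext s
  rw [add_zero]
  simp only [Complex.mul_im, Complex.conj_re, Complex.conj_im]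
  ring

lemma hasDerivAt_C1 (h : RCurve c W) (ε : ℝ) :
    HasDerivAt (C1 c W) (∫ s in (0:ℝ)..W, deriv c (s + ε) * conj (deriv c s)) ε :=
  hasDerivAt_conv (hasDerivAt h) (continuous_deriv' h)
    (Complex.continuous_conj.comp (continuous_deriv' h)) h.pos.le ε

lemma hasDerivAt_C2 (h : RCurve c W) (ε : ℝ) :
    HasDerivAt (C2 c W) (∫ s in (0:ℝ)..W, deriv c (s + ε) * deriv c s) ε :=
  hasDerivAt_conv (hasDerivAt h) (continuous_deriv' h) (continuous_deriv' h) h.pos.le ε

lemma C1'_zero (h : RCurve c W) (hu : ∀ s, ‖deriv c s‖ = 1) :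
    ∫ s in (0:ℝ)..W, deriv c (s + 0) * conj (deriv c s) = W := by
  have : ∀ s, deriv c (s + 0) * conj (deriv c s) = 1 := by
    intro s
    rw [add_zero, mul_comm, conj_deriv_mul h, hu]; norm_num
  simp only [this]
  simp

/-- second derivatives at zero -/
lemma C1''_im (h : RCurve c W) (hu : ∀ s, ‖deriv c s‖ = 1) :
    HasDerivAt (fun ε : ℝ => (∫ s in (0:ℝ)..W, deriv c (s + ε) * conj (deriv c s)).im)
      (2 * Real.pi) 0 := by
  have h1 := hasDerivAt_conv (a := deriv c) (a' := deriv (deriv c)) (b := fun s => conj (deriv c s))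
    (hasDerivAt_deriv h) (continuous_deriv2 h)
    (Complex.continuous_conj.comp (continuous_deriv' h)) h.pos.le 0
  have h2 := hasDerivAt_im h1
  refine HasDerivAt.congr_deriv h2 ?_
  have e : ∀ s, deriv (deriv c) (s + 0) * conj (deriv c s) = ((curv c s : ℝ) : ℂ) * I := by
    intro s
    rw [add_zero, deriv2_eq h hu s]
    have : deriv c s * conj (deriv c s) = 1 := by
      rw [mul_comm, conj_deriv_mul h, hu]; norm_num
    linear_combination (I * curv c s) * this
  simp only [e]
  rw [intervalIntegral.integral_mul_const, intervalIntegral.integral_ofReal, turning h hu]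
  simp

lemma C2''_zero (h : RCurve c W) :
    HasDerivAt (fun ε : ℝ => ∫ s in (0:ℝ)..W, deriv c (s + ε) * deriv c s) 0 0 := by
  have h1 := hasDerivAt_conv (a := deriv c) (a' := deriv (deriv c)) (b := deriv c)
    (hasDerivAt_deriv h) (continuous_deriv2 h) (continuous_deriv' h) h.pos.le 0
  refine HasDerivAt.congr_deriv h1 ?_
  have h2 := int_self_mul (p := 0) (T := W) (hasDerivAt_deriv h) (continuous_deriv2 h)
    (periodic_deriv h 0)
  rw [zero_add] at h2
  simp only [add_zero]
  rw [← h2]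
  congr 1
  funext s
  ring

lemma C2_zero (h : RCurve c W) : C2 c W 0 = 0 := by
  have h2 := int_self_mul (p := 0) (T := W) (hasDerivAt h) (continuous_deriv' h) (h.per 0)
  rw [zero_add] at h2
  unfold C2
  simp only [add_zero]
  exact h2

lemma tendsto_C2 (h : RCurve c W) (hiso : ∫ s in (0:ℝ)..W, deriv c s * deriv c s = 0) :
    Tendsto (fun ε : ℝ => C2 c W ε / (ε : ℂ) ^ 2) (𝓝[≠] 0) (𝓝 0) := by
  have hd0 : ∫ s in (0:ℝ)..W, deriv c (s + 0) * deriv c s = 0 := by
    simp only [add_zero]; exact hiso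
  have h1 := tendsto_second (a := fun ε => (C2 c W ε).re)
    (b := fun ε => (∫ s in (0:ℝ)..W, deriv c (s + ε) * deriv c s).re)
    (fun x => hasDerivAt_re (hasDerivAt_C2 h x)) (by simp only [hd0]; simp)
    (hasDerivAt_re (C2''_zero h))
  have h2 := tendsto_second (a := fun ε => (C2 c W ε).im)
    (b := fun ε => (∫ s in (0:ℝ)..W, deriv c (s + ε) * deriv c s).im)
    (fun x => hasDerivAt_im (hasDerivAt_C2 h x)) (by simp only [hd0]; simp)
    (hasDerivAt_im (C2''_zero h))
  simp only [C2_zero h, Complex.zero_re, Complex.zero_im, sub_zero, zero_div] at h1 h2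
  have h3 : Tendsto (fun ε : ℝ => (((C2 c W ε).re / ε ^ 2 : ℝ) : ℂ)
      + (((C2 c W ε).im / ε ^ 2 : ℝ) : ℂ) * I) (𝓝[≠] 0) (𝓝 (((0:ℝ) : ℂ) + ((0:ℝ) : ℂ) * I)) :=
    ((Complex.continuous_ofReal.tendsto _).comp h1).add
      (((Complex.continuous_ofReal.tendsto _).comp h2).mul_const I)
  simp only [ofReal_zero, zero_mul, add_zero] at h3
  apply h3.congr
  intro ε
  push_cast
  rw [div_mul_eq_mul_div, ← add_div, Complex.re_add_im]

end Curve

section Main

variable {g : ℂ → ℝ} {G : ℂ → ℂ} {R : ℝ → ℝ} {c : ℝ → ℂ} {W : ℝ}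

/-- the second order inequality -/
theorem second_order (hN : Nrm g G R) (h : RCurve c W) (hu : ∀ s, ‖deriv c s‖ = 1)
    (hiso : ∫ s in (0:ℝ)..W, deriv c s * deriv c s = 0)
    (hineq : ∀ ε δ : ℝ, (conj (D2 G R δ) * C2 c W ε + conj (D1 G R δ) * C1 c W ε).re
      ≤ (conj (D2 G R 0) * C2 c W 0 + conj (D1 G R 0) * C1 c W 0).re) (l : ℝ) :
    XX R * W * l - (∫ θ in (-Real.pi)..Real.pi, R θ * hh G θ) * Real.pi
      - twoA c W / 2 * XX R * l ^ 2 ≤ 0 := by
  set a0 := ∫ θ in (-Real.pi)..Real.pi, R θ * hh G θ with ha0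
  have hD1re0 := D1_zero_re hN
  have hD1im0 := D1_zero_im hN
  have hC1re0 := C1_zero_re h
  have hC1im0 := C1_zero_im h
  have hC20 := C2_zero h
  -- scaled derivative of `D1`
  have hdD : ∀ ε : ℝ, HasDerivAt (fun ε : ℝ => D1 G R (l * ε))
      ((l : ℂ) * ((rho2 R (l * ε) : ℂ) * exp (((l * ε : ℝ) : ℂ) * I))) ε := by
    intro ε
    have h1 : HasDerivAt (fun ε : ℝ => l * ε) l ε := by
      have := (hasDerivAt_id ε).const_mul l
      simpa using this
    have h2 := HasDerivAt.scomp ε (hasDerivAt_D1 hN (l * ε)) h1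
    rw [Complex.real_smul] at h2
    exact h2
  -- first order of the real part
  have t1 : Tendsto (fun ε : ℝ => (D1 G R (l * ε)).re / ε) (𝓝[≠] 0) (𝓝 (l * XX R)) := by
    apply tendsto_slope_zero (a := fun ε : ℝ => (D1 G R (l * ε)).re)
    · refine HasDerivAt.congr_deriv (hasDerivAt_re (hdD 0)) ?_
      simp [rho2_zero]
    · simp only [mul_zero]; exact hD1re0
  -- second order of the imaginary part
  have t2 : Tendsto (fun ε : ℝ => ((D1 G R (l * ε)).im - (D1 G R 0).im) / ε ^ 2) (𝓝[≠] 0)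
      (𝓝 (l ^ 2 * XX R / 2)) := by
    have h1 := tendsto_second (a := fun ε : ℝ => (D1 G R (l * ε)).im)
      (b := fun ε : ℝ => l * (rho2 R (l * ε) * Real.sin (l * ε))) (c := l ^ 2 * XX R)
      (fun ε => by
        refine HasDerivAt.congr_deriv (hasDerivAt_im (hdD ε)) ?_
        rw [Complex.im_ofReal_mul, Complex.im_ofReal_mul, exp_ofReal_mul_I_im])
      (by simp)
      (by
        rw [hasDerivAt_iff_tendsto_slope]
        have s1 : HasDerivAt (fun ε : ℝ => Real.sin (l * ε)) (Real.cos (l * 0) * (l * 1)) 0 :=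
          ((hasDerivAt_id (0:ℝ)).const_mul l).sin
        have s2 := tendsto_slope_zero s1 (by simp)
        have s3 : Tendsto (fun ε : ℝ => rho2 R (l * ε)) (𝓝[≠] 0) (𝓝 (rho2 R (l * 0))) := by
          have hc : Continuous fun ε : ℝ => rho2 R (l * ε) :=
            (continuous_rho2 hN).comp (by fun_prop)
          exact hc.continuousAt.tendsto.mono_left nhdsWithin_le_nhds
        have s4 := (s3.mul s2).const_mul l
        have e : l * (rho2 R (l * 0) * (Real.cos (l * 0) * (l * 1))) = l ^ 2 * XX R := by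
          rw [mul_zero, rho2_zero, Real.cos_zero]; ring
        rw [e] at s4
        apply s4.congr'
        filter_upwards [self_mem_nhdsWithin] with ε hε
        rw [slope_def_field]
        simp only [mul_zero, Real.sin_zero, sub_zero]
        ring)
    simp only [mul_zero] at h1
    exact h1
  have t3 : Tendsto (fun ε : ℝ => (C1 c W ε).re / ε) (𝓝[≠] 0) (𝓝 W) := by
    apply tendsto_slope_zero (a := fun ε : ℝ => (C1 c W ε).re)
    · refine HasDerivAt.congr_deriv (hasDerivAt_re (hasDerivAt_C1 h 0)) ?_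
      rw [C1'_zero h hu, Complex.ofReal_re]
    · exact hC1re0
  have t4 : Tendsto (fun ε : ℝ => ((C1 c W ε).im - (C1 c W 0).im) / ε ^ 2) (𝓝[≠] 0)
      (𝓝 (2 * Real.pi / 2)) := by
    apply tendsto_second (b := fun ε : ℝ =>
      (∫ s in (0:ℝ)..W, deriv c (s + ε) * conj (deriv c s)).im)
    · exact fun x => hasDerivAt_im (hasDerivAt_C1 h x)
    · rw [C1'_zero h hu, Complex.ofReal_im]
    · exact C1''_im h hu
  have t5 := tendsto_C2 h hiso
  have t6 : Tendsto (fun ε : ℝ => (C1 c W ε).im) (𝓝[≠] 0) (𝓝 (C1 c W 0).im) :=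
    (hasDerivAt_im (hasDerivAt_C1 h 0)).continuousAt.tendsto.mono_left nhdsWithin_le_nhds
  have t7 : Tendsto (fun ε : ℝ => conj (D2 G R (l * ε))) (𝓝[≠] 0) (𝓝 (conj (D2 G R (l * 0)))) := by
    have hc : Continuous (D2 G R) := continuous_conv (continuous_pp hN) (continuous_pq hN) _ _
    have hc2 : Continuous fun ε : ℝ => conj (D2 G R (l * ε)) :=
      Complex.continuous_conj.comp (hc.comp (by fun_prop))
    exact hc2.continuousAt.tendsto.mono_left nhdsWithin_le_nhds
  have t8 : Tendsto (fun ε : ℝ => (conj (D2 G R (l * ε)) * (C2 c W ε / (ε : ℂ) ^ 2)).re) (𝓝[≠] 0)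
      (𝓝 (conj (D2 G R (l * 0)) * 0).re) :=
    (Complex.continuous_re.tendsto _).comp (t7.mul t5)
  have t9 := ((t8.add (t1.mul t3)).add (t2.mul t6)).add (t4.const_mul (D1 G R 0).im)
  have hlim : (conj (D2 G R (l * 0)) * 0).re + l * XX R * W + l ^ 2 * XX R / 2 * (C1 c W 0).im
      + (D1 G R 0).im * (2 * Real.pi / 2) ≤ 0 := by
    apply le_of_tendsto t9
    filter_upwards [self_mem_nhdsWithin] with ε hε
    have hε' : ε ≠ 0 := hε
    have h1 := hineq ε (l * ε)
    rw [hC20, mul_zero, zero_add] at h1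
    simp only [Complex.add_re, Complex.mul_re, Complex.conj_re, Complex.conj_im, hD1re0,
      hC1re0] at h1
    have e1 : (conj (D2 G R (l * ε)) * (C2 c W ε / (ε : ℂ) ^ 2)).re
        = (conj (D2 G R (l * ε)) * C2 c W ε).re / ε ^ 2 := by
      rw [← mul_div_assoc, ← ofReal_pow, Complex.div_ofReal_re]
    rw [e1]
    have e2 : (conj (D2 G R (l * ε)) * C2 c W ε).re / ε ^ 2
        + (D1 G R (l * ε)).re / ε * ((C1 c W ε).re / ε)
        + ((D1 G R (l * ε)).im - (D1 G R 0).im) / ε ^ 2 * (C1 c W ε).im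
        + (D1 G R 0).im * (((C1 c W ε).im - (C1 c W 0).im) / ε ^ 2)
        = ((conj (D2 G R (l * ε)) * C2 c W ε).re + (D1 G R (l * ε)).re * (C1 c W ε).re
          + (D1 G R (l * ε)).im * (C1 c W ε).im - (D1 G R 0).im * (C1 c W 0).im) / ε ^ 2 := by
      field_simp
      ring
    rw [e2]
    apply div_nonpos_of_nonpos_of_nonneg _ (sq_nonneg ε)
    simp only [Complex.mul_re, Complex.conj_re, Complex.conj_im]
    linarith
  rw [hC1im0, hD1im0, mul_zero, Complex.zero_re, ← ha0] at hlim
  linarith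

/-- the reverse isoperimetric inequality -/
theorem reverse_iso (hN : Nrm g G R) (h : RCurve c W) (hu : ∀ s, ‖deriv c s‖ = 1)
    (hiso : ∫ s in (0:ℝ)..W, deriv c s * deriv c s = 0)
    (hineq : ∀ ε δ : ℝ, (conj (D2 G R δ) * C2 c W ε + conj (D1 G R δ) * C1 c W ε).re
      ≤ (conj (D2 G R 0) * C2 c W 0 + conj (D1 G R 0) * C1 c W 0).re) :
    W ^ 2 ≤ 2 * Real.pi * twoA c W := by
  have key := second_order hN h hu hiso hineq
  set a0 := ∫ θ in (-Real.pi)..Real.pi, R θ * hh G θ with ha0
  have h0 : 0 < a0 := a0_pos hN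
  have h1 : a0 ≤ XX R := a0_le_XX hN
  have hX : 0 < XX R := h0.trans_le h1
  have hW := h.pos
  have hpi := Real.pi_pos
  have hA : 0 < twoA c W := by
    by_contra hcon
    push Not at hcon
    have h2 := key ((a0 * Real.pi + 1) / (XX R * W))
    have h3 : XX R * W * ((a0 * Real.pi + 1) / (XX R * W)) = a0 * Real.pi + 1 := by
      field_simp
    rw [h3] at h2
    have h4 : twoA c W / 2 * XX R * ((a0 * Real.pi + 1) / (XX R * W)) ^ 2 ≤ 0 := by
      apply mul_nonpos_of_nonpos_of_nonneg _ (sq_nonneg _)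
      apply mul_nonpos_of_nonpos_of_nonneg _ hX.le
      linarith
    linarith
  have h2 := key (W / twoA c W)
  have h3 : XX R * W * (W / twoA c W) - a0 * Real.pi - twoA c W / 2 * XX R * (W / twoA c W) ^ 2
      = (XX R * W ^ 2 - 2 * Real.pi * twoA c W * a0) / (2 * twoA c W) := by
    field_simp
    ring
  rw [h3, div_nonpos_iff] at h2
  rcases h2 with h2 | h2
  · linarith [h2.2]
  · have h4 : XX R * W ^ 2 ≤ 2 * Real.pi * twoA c W * a0 := by linarith [h2.1]
    have h5 : 2 * Real.pi * twoA c W * a0 ≤ 2 * Real.pi * twoA c W * XX R :=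
      mul_le_mul_of_nonneg_left h1 (by positivity)
    have h6 : XX R * W ^ 2 ≤ XX R * (2 * Real.pi * twoA c W) := by linarith
    exact le_of_mul_le_mul_left h6 hX

/-- equality in the isoperimetric inequality: the curve is a circle -/
theorem circle_of_reverse (h : RCurve c W) (hu : ∀ s, ‖deriv c s‖ = 1)
    (hr : W ^ 2 ≤ 2 * Real.pi * twoA c W) :
    ∃ (m : ℂ) (r : ℝ), 0 < r ∧ range c = Metric.sphere m r := by
  have hW := h.pos
  have hcc := h.smooth.continuous
  have hc' := continuous_deriv' h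
  have h1 := Pool.Agent.Helper793.CM.iso_aux hW (hasDerivAt h) hc'
    (by have := h.per 0; rw [zero_add] at this; exact this.symm)
  set m := Pool.Agent.Helper793.CM.mean W c with hm
  set ω : ℝ := 2 * Real.pi / W with hω
  have hω0 : 0 < ω := by have := Real.pi_pos; positivity
  have h2 : ∫ s in (0:ℝ)..W, ‖deriv c s‖ ^ 2 = W := by
    simp only [hu]; simp
  have h3 : ∫ s in (0:ℝ)..W, (conj (c s) * deriv c s).im = twoA c W := rfl
  rw [h2, h3] at h1
  have hcont : Continuous fun s => deriv c s - I * (ω : ℝ) * (c s - m) := by fun_prop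
  have h4 : ∫ s in (0:ℝ)..W, ‖deriv c s - I * (ω : ℝ) * (c s - m)‖ ^ 2 ≤ 0 := by
    have : W / 2 * ∫ s in (0:ℝ)..W, ‖deriv c s - I * (ω : ℝ) * (c s - m)‖ ^ 2 ≤ 0 := by
      nlinarith
    by_contra hcon
    push Not at hcon
    have := mul_pos (show 0 < W / 2 by positivity) hcon
    linarith
  have h5 : ∀ s ∈ Icc 0 W, deriv c s - I * (ω : ℝ) * (c s - m) = 0 := by
    by_contra hcon
    push Not at hcon
    obtain ⟨s, hs, hne⟩ := hcon
    have := intervalIntegral.integral_pos (a := 0) (b := W) hW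
      (f := fun s => ‖deriv c s - I * (ω : ℝ) * (c s - m)‖ ^ 2)
      ((hcont.norm.pow 2).continuousOn) (fun x _ => by positivity) ⟨s, hs, by positivity⟩
    linarith
  have h6 : ∀ s, deriv c s = I * (ω : ℝ) * (c s - m) := by
    intro s
    have hp : Function.Periodic (fun s => deriv c s - I * (ω : ℝ) * (c s - m)) W := by
      intro s
      simp only [periodic_deriv h s, h.per s]
    obtain ⟨s', hs', he⟩ := hp.exists_mem_Ico₀ hW s
    have h7 := h5 s' ⟨hs'.1, hs'.2.le⟩
    rw [h7] at he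
    exact sub_eq_zero.mp he
  -- solution of the equation
  have h7 : ∀ s : ℝ, c s - m = (c 0 - m) * exp (((ω * s : ℝ) : ℂ) * I) := by
    have hd : ∀ s : ℝ, HasDerivAt (fun s : ℝ => (c s - m) * exp (-(((ω * s : ℝ) : ℂ) * I))) 0 s := by
      intro s
      have k1 := (hasDerivAt h s).sub_const m
      have k2 : HasDerivAt (fun s : ℝ => -(((ω * s : ℝ) : ℂ) * I)) (-(((ω * 1 : ℝ) : ℂ) * I)) s :=
        ((((hasDerivAt_id s).const_mul ω).ofReal_comp).mul_const I).neg
      refine HasDerivAt.congr_deriv (k1.mul k2.cexp) ?_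
      rw [h6 s]
      push_cast
      ring
    intro s
    have k1 := is_const_of_deriv_eq_zero (fun x => (hd x).differentiableAt)
      (fun x => (hd x).deriv) s 0
    simp only [mul_zero, ofReal_zero, zero_mul, neg_zero, exp_zero, mul_one] at k1
    rw [← k1, mul_assoc, ← exp_add, neg_add_cancel, exp_zero, mul_one]
  have hne : c 0 - m ≠ 0 := by
    intro h0
    have := h6 0
    rw [h0, mul_zero] at this
    exact h.reg 0 this
  refine ⟨m, ‖c 0 - m‖, norm_pos_iff.mpr hne, ?_⟩
  ext z
  rw [mem_sphere_iff_norm]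
  constructor
  · rintro ⟨s, rfl⟩
    rw [h7, norm_mul, norm_exp_ofReal_mul_I, mul_one]
  · intro hz
    have hz' : ‖(z - m) / (c 0 - m)‖ = 1 := by
      rw [norm_div, hz, div_self (norm_pos_iff.mpr hne).ne']
    refine ⟨arg ((z - m) / (c 0 - m)) / ω, ?_⟩
    have k1 := h7 (arg ((z - m) / (c 0 - m)) / ω)
    have k2 : ω * (arg ((z - m) / (c 0 - m)) / ω) = arg ((z - m) / (c 0 - m)) := by
      field_simp
    have k3 := norm_mul_exp_arg_mul_I ((z - m) / (c 0 - m))
    rw [hz', ofReal_one, one_mul] at k3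
    rw [k2, k3, mul_div_cancel₀ _ hne] at k1
    linear_combination k1

end Main

end Pool.Agent.W714.Mink
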