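import Pool.Agent.W714.Mink.GN
import Pool.Agent.W714.Mink.Curve

set_option autoImplicit false

/-!
# Convex tables and their gauges
-/

namespace Pool.Agent.W714.Mink

open Complex Set Topology Filter
open scoped ComplexConjugate

/-- `K` is an open bounded convex set with `0 ∈ K` and strictly convex closure, and `γ` is a regular
parametrisation of class `C²` of its boundary with period `ℓ` -/
structure Tab (K : Set ℂ) (γ : ℝ → ℂ) (ℓ : ℝ) : Prop where
  isOpen : IsOpen K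
  bounded : Bornology.IsBounded K
  convex : Convex ℝ K
  strict : StrictConvex ℝ (closure K)
  zero_mem : (0:ℂ) ∈ K
  pos : 0 < ℓ
  smooth : ContDiff ℝ 2 γ
  per : Function.Periodic γ ℓ
  injOn : InjOn γ (Ico 0 ℓ)
  range_eq : range γ = frontier K
  reg : ∀ t, deriv γ t ≠ 0

variable {K : Set ℂ} {γ : ℝ → ℂ} {ℓ : ℝ}

lemma decomp (u z : ℂ) (hu : u ≠ 0) :
    z = ((conj u * z).re / ‖u‖ ^ 2) • u + ((conj u * z).im / ‖u‖ ^ 2) • (I * u) := by
  have hn : (0:ℝ) < ‖u‖ ^ 2 := by have := norm_pos_iff.mpr hu; positivity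
  have h3 : conj u * u = ((‖u‖ ^ 2 : ℝ) : ℂ) := by
    rw [mul_comm, Complex.mul_conj, Complex.normSq_eq_norm_sq]
  generalize ‖u‖ ^ 2 = n at hn h3 ⊢
  have h4 : (n : ℂ) ≠ 0 := by exact_mod_cast hn.ne'
  apply mul_left_cancel₀ h4
  rw [Complex.real_smul, Complex.real_smul]
  have h5 : (n : ℂ) * ((((conj u * z).re / n : ℝ) : ℂ) * u + (((conj u * z).im / n : ℝ) : ℂ) * (I * u))
      = (((conj u * z).re : ℂ) + ((conj u * z).im : ℂ) * I) * u := by
    push_cast
    field_simp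
  rw [h5, Complex.re_add_im, ← h3]
  ring

namespace Tab

lemma nhds_zero (h : Tab K γ ℓ) : K ∈ 𝓝 (0:ℂ) := h.isOpen.mem_nhds h.zero_mem

lemma hasDerivAt (h : Tab K γ ℓ) (t : ℝ) : HasDerivAt γ (deriv γ t) t :=
  ((h.smooth.differentiable (by simp)) t).hasDerivAt

lemma cont_deriv (h : Tab K γ ℓ) : Continuous (deriv γ) := h.smooth.continuous_deriv (by simp)

lemma mem_frontier (h : Tab K γ ℓ) (t : ℝ) : γ t ∈ frontier K := by
  rw [← h.range_eq]; exact ⟨t, rfl⟩

lemma gauge_gamma (h : Tab K γ ℓ) (t : ℝ) : gauge K (γ t) = 1 :=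
  (gauge_eq_one_iff_mem_frontier h.convex h.nhds_zero).mpr (h.mem_frontier t)

lemma gauge_hom (r : ℝ) (hr : 0 < r) (v : ℂ) : gauge K (r * v) = r * gauge K v := by
  have h1 := gauge_smul_of_nonneg (s := K) hr.le v
  rw [Complex.real_smul, smul_eq_mul] at h1
  exact h1

lemma gauge_pos' (h : Tab K γ ℓ) (v : ℂ) (hv : v ≠ 0) : 0 < gauge K v :=
  (gauge_pos (absorbent_nhds_zero h.nhds_zero)
    (NormedSpace.isVonNBounded_iff ℝ |>.mpr h.bounded)).mpr hv

lemma exists_polar (h : Tab K γ ℓ) (v : ℂ) (hv : v ≠ 0) :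
    ∃ s : ℝ, v = (gauge K v : ℂ) * γ s := by
  have hg := h.gauge_pos' v hv
  have h1 : gauge K ((((gauge K v)⁻¹ : ℝ) : ℂ) * v) = 1 := by
    rw [gauge_hom _ (inv_pos.mpr hg), inv_mul_cancel₀ hg.ne']
  rw [gauge_eq_one_iff_mem_frontier h.convex h.nhds_zero, ← h.range_eq] at h1
  obtain ⟨s, hs⟩ := h1
  refine ⟨s, ?_⟩
  rw [hs]
  have : (gauge K v : ℂ) ≠ 0 := by exact_mod_cast hg.ne'
  push_cast
  field_simp

/-- the side of the tangent line -/
lemma side (h : Tab K γ ℓ) (t : ℝ) :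
    (∀ a ∈ K, 0 < (conj (deriv γ t) * (a - γ t)).im) ∨
      ∀ a ∈ K, (conj (deriv γ t) * (a - γ t)).im < 0 := by
  have hnot : γ t ∉ K := by
    intro hmem
    have := h.mem_frontier t
    rw [frontier, h.isOpen.interior_eq] at this
    exact this.2 hmem
  obtain ⟨f, hf⟩ := geometric_hahn_banach_open_point h.convex h.isOpen hnot
  have hcl : ∀ z ∈ closure K, f z ≤ f (γ t) := by
    intro z hz
    have : closure K ⊆ {z | f z ≤ f (γ t)} :=
      closure_minimal (fun a ha => (hf a ha).le) (isClosed_le f.continuous continuous_const)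
    exact this hz
  -- the derivative
  have hd : HasDerivAt (fun s => f (γ s)) (f (deriv γ t)) t :=
    f.hasFDerivAt.comp_hasDerivAt t (h.hasDerivAt t)
  have hmax : IsLocalMax (fun s => f (γ s)) t := by
    refine Eventually.of_forall fun s => ?_
    exact hcl _ (frontier_subset_closure (h.mem_frontier s))
  have h0 : f (deriv γ t) = 0 := hmax.hasDerivAt_eq_zero hd
  -- representation
  set u := deriv γ t with hu
  have hu0 : u ≠ 0 := h.reg t
  have hn : (0:ℝ) < ‖u‖ ^ 2 := by have := norm_pos_iff.mpr hu0; positivity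
  have hrep : ∀ z : ℂ, f z = (conj u * z).im / ‖u‖ ^ 2 * f (I * u) := by
    intro z
    have e1 := decomp u z hu0
    conv_lhs => rw [e1]
    rw [map_add, map_smul, map_smul, h0, smul_zero, zero_add, smul_eq_mul]
  have key : ∀ a ∈ K, (conj u * (a - γ t)).im / ‖u‖ ^ 2 * f (I * u) < 0 := by
    intro a ha
    rw [← hrep, map_sub]
    linarith [hf a ha]
  rcases lt_trichotomy (f (I * u)) 0 with hc | hc | hc
  · left
    intro a ha
    have h1 := key a ha
    by_contra hcon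
    push Not at hcon
    have : 0 ≤ (conj u * (a - γ t)).im / ‖u‖ ^ 2 * f (I * u) :=
      mul_nonneg_of_nonpos_of_nonpos (div_nonpos_of_nonpos_of_nonneg hcon hn.le) hc.le
    linarith
  · have h1 := key 0 h.zero_mem
    rw [hc, mul_zero] at h1
    exact absurd h1 (lt_irrefl _)
  · right
    intro a ha
    have h1 := key a ha
    by_contra hcon
    push Not at hcon
    have : 0 ≤ (conj u * (a - γ t)).im / ‖u‖ ^ 2 * f (I * u) :=
      mul_nonneg (div_nonneg hcon hn.le) hc.le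
    linarith

/-- the side does not depend on the point -/
lemma side' (h : Tab K γ ℓ) :
    (∀ t, ∀ a ∈ K, 0 < (conj (deriv γ t) * (a - γ t)).im) ∨
      ∀ t, ∀ a ∈ K, (conj (deriv γ t) * (a - γ t)).im < 0 := by
  have hc : Continuous fun t => (conj (deriv γ t) * (0 - γ t)).im := by
    have h1 := Complex.continuous_conj.comp h.cont_deriv
    have h2 := h.smooth.continuous
    exact Complex.continuous_im.comp (h1.mul (continuous_const.sub h2))
  have hne : ∀ t, (conj (deriv γ t) * (0 - γ t)).im ≠ 0 := by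
    intro t
    rcases h.side t with h1 | h1
    · exact (h1 0 h.zero_mem).ne'
    · exact (h1 0 h.zero_mem).ne
  rcases lt_or_gt_of_ne (hne 0) with h0 | h0
  · right
    intro t
    rcases h.side t with h1 | h1
    · exfalso
      have h2 := h1 0 h.zero_mem
      obtain ⟨s, hs⟩ := mem_range_of_exists_le_of_exists_ge hc ⟨0, h0.le⟩ ⟨t, h2.le⟩
      exact hne s hs
    · exact h1
  · left
    intro t
    rcases h.side t with h1 | h1
    · exact h1
    · exfalso
      have h2 := h1 0 h.zero_mem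
      obtain ⟨s, hs⟩ := mem_range_of_exists_le_of_exists_ge hc ⟨t, h2.le⟩ ⟨0, h0.le⟩
      exact hne s hs

lemma midpoint_mem (h : Tab K γ ℓ) {a b : ℂ} (ha : a ∈ closure K) (hb : b ∈ closure K)
    (hab : a ≠ b) : ((1 / 2 : ℝ) : ℂ) * (a + b) ∈ K := by
  have h1 := h.strict ha hb hab (a := (1/2:ℝ)) (b := (1/2:ℝ)) (by norm_num) (by norm_num)
    (by norm_num)
  rw [h.convex.interior_closure_eq_interior_of_nonempty_interior
    ⟨0, by rw [h.isOpen.interior_eq]; exact h.zero_mem⟩, h.isOpen.interior_eq] at h1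
  rw [mul_add]
  simpa only [Complex.real_smul] using h1

lemma gamma_add_ne (h : Tab K γ ℓ) (t : ℝ) {x : ℝ} (hx : x ∈ Ioo 0 ℓ) : γ (t + x) ≠ γ t := by
  intro he
  have hL := h.pos
  obtain ⟨n, hn⟩ : ∃ n : ℤ, t - n * ℓ ∈ Ico 0 ℓ := by
    refine ⟨⌊t / ℓ⌋, ?_⟩
    have h1 := Int.floor_le (t / ℓ)
    have h2 := Int.lt_floor_add_one (t / ℓ)
    rw [le_div_iff₀ hL] at h1
    rw [div_lt_iff₀ hL] at h2
    constructor <;> linarith
  obtain ⟨m, hm⟩ : ∃ n : ℤ, t + x - n * ℓ ∈ Ico 0 ℓ := by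
    refine ⟨⌊(t + x) / ℓ⌋, ?_⟩
    have h1 := Int.floor_le ((t + x) / ℓ)
    have h2 := Int.lt_floor_add_one ((t + x) / ℓ)
    rw [le_div_iff₀ hL] at h1
    rw [div_lt_iff₀ hL] at h2
    constructor <;> linarith
  have e1 : γ (t - n * ℓ) = γ t := h.per.sub_int_mul_eq n
  have e2 : γ (t + x - m * ℓ) = γ (t + x) := h.per.sub_int_mul_eq m
  have e3 := h.injOn hn hm (by rw [e1, e2, he])
  have e4 : x = (m - n : ℤ) * ℓ := by push_cast; linarith
  rcases le_or_gt (m - n) 0 with h5 | h5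
  · have : ((m - n : ℤ) : ℝ) ≤ 0 := by exact_mod_cast h5
    have := mul_nonpos_of_nonpos_of_nonneg this hL.le
    linarith [hx.1]
  · have : (1 : ℝ) ≤ ((m - n : ℤ) : ℝ) := by exact_mod_cast h5
    have := mul_le_mul_of_nonneg_right this hL.le
    linarith [hx.2]

/-- a positively oriented table gives a curve to the left of its tangents -/
lemma rcurve (h : Tab K γ ℓ) (hl : ∀ t, ∀ a ∈ K, 0 < (conj (deriv γ t) * (a - γ t)).im) :
    RCurve γ ℓ := by
  refine ⟨h.pos, h.smooth, h.per, h.reg, fun t x hx => ?_⟩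
  have h1 := h.midpoint_mem (frontier_subset_closure (h.mem_frontier t))
    (frontier_subset_closure (h.mem_frontier (t + x))) (h.gamma_add_ne t hx).symm
  have h2 := hl t _ h1
  have e : conj (deriv γ t) * (((1 / 2 : ℝ) : ℂ) * (γ t + γ (t + x)) - γ t)
      = ((1 / 2 : ℝ) : ℂ) * (conj (deriv γ t) * (γ (t + x) - γ t)) := by
    push_cast; ring
  rw [e, Complex.im_ofReal_mul] at h2
  linarith

lemma cross_ne (h : Tab K γ ℓ) (t : ℝ) : (conj (deriv γ t) * γ t).im ≠ 0 := by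
  have h1 : (conj (deriv γ t) * γ t).im = -(conj (deriv γ t) * (0 - γ t)).im := by
    rw [zero_sub, mul_neg, Complex.neg_im, neg_neg]
  rw [h1, neg_ne_zero]
  rcases h.side t with h2 | h2
  · exact (h2 0 h.zero_mem).ne'
  · exact (h2 0 h.zero_mem).ne

/-- the gauge is smooth away from the origin -/
lemma contDiffAt_gauge (h : Tab K γ ℓ) (v : ℂ) (hv : v ≠ 0) : ContDiffAt ℝ 2 (gauge K) v := by
  obtain ⟨s₀, hs₀⟩ := h.exists_polar v hv
  set r₀ := gauge K v with hr₀
  have hr0 : 0 < r₀ := h.gauge_pos' v hv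
  set Φ : ℝ × ℝ → ℂ := fun p => (p.1 : ℂ) * γ p.2 with hΦ
  have hΦs : ContDiff ℝ 2 Φ :=
    (Complex.ofRealCLM.contDiff.comp contDiff_fst).mul (h.smooth.comp contDiff_snd)
  have hΦv : Φ (r₀, s₀) = v := hs₀.symm
  set f' := fderiv ℝ Φ (r₀, s₀) with hf'
  have hfd : HasFDerivAt Φ f' (r₀, s₀) :=
    ((hΦs.differentiable (by simp)) (r₀, s₀)).hasFDerivAt
  have hf1 : f' (1, 0) = γ s₀ := by
    have h1 : HasDerivAt (fun t : ℝ => ((r₀ + t, s₀) : ℝ × ℝ)) (1, 0) 0 := by
      have a1 : HasDerivAt (fun t : ℝ => r₀ + t) 1 0 := (hasDerivAt_id (0:ℝ)).const_add r₀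
      exact a1.prodMk (hasDerivAt_const (0:ℝ) s₀)
    have h2 : HasDerivAt (fun t : ℝ => Φ (r₀ + t, s₀)) (f' (1, 0)) 0 := by
      have h3 : HasFDerivAt Φ f' ((fun t : ℝ => ((r₀ + t, s₀) : ℝ × ℝ)) 0) := by
        simp only [add_zero]; exact hfd
      exact h3.comp_hasDerivAt 0 h1
    have h4 : HasDerivAt (fun t : ℝ => Φ (r₀ + t, s₀)) (1 * γ s₀) 0 := by
      have a1 : HasDerivAt (fun t : ℝ => ((r₀ + t : ℝ) : ℂ)) ((1:ℝ) : ℂ) 0 :=
        ((hasDerivAt_id (0:ℝ)).const_add r₀).ofReal_comp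
      rw [ofReal_one] at a1
      exact a1.mul_const (γ s₀)
    rw [one_mul] at h4
    exact h2.unique h4
  have hf2 : f' (0, 1) = r₀ * deriv γ s₀ := by
    have h1 : HasDerivAt (fun t : ℝ => ((r₀, t) : ℝ × ℝ)) (0, 1) s₀ :=
      (hasDerivAt_const s₀ r₀).prodMk (hasDerivAt_id s₀)
    have h2 : HasDerivAt (fun t : ℝ => Φ (r₀, t)) (f' (0, 1)) s₀ :=
      hfd.comp_hasDerivAt s₀ h1
    have h4 : HasDerivAt (fun t : ℝ => Φ (r₀, t)) (r₀ * deriv γ s₀) s₀ := by
      change HasDerivAt (fun t : ℝ => (r₀ : ℂ) * γ t) (r₀ * deriv γ s₀) s₀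
      exact (h.hasDerivAt s₀).const_mul _
    exact h2.unique h4
  have hfe : ∀ a b : ℝ, f' (a, b) = a * γ s₀ + b * (r₀ * deriv γ s₀) := by
    intro a b
    have : ((a, b) : ℝ × ℝ) = a • (1, 0) + b • (0, 1) := by simp
    rw [this, map_add, map_smul, map_smul, hf1, hf2, Complex.real_smul, Complex.real_smul]
  have hcr := h.cross_ne s₀
  have hinj : Function.Injective (f' : ℝ × ℝ →ₗ[ℝ] ℂ) := by
    rw [← LinearMap.ker_eq_bot, LinearMap.ker_eq_bot']
    rintro ⟨a, b⟩ hab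
    change f' (a, b) = 0 at hab
    rw [hfe] at hab
    have h1 : (conj (deriv γ s₀) * (a * γ s₀ + b * (r₀ * deriv γ s₀))).im = 0 := by
      rw [hab, mul_zero, Complex.zero_im]
    have e : (conj (deriv γ s₀) * (a * γ s₀ + b * (r₀ * deriv γ s₀))).im
        = a * (conj (deriv γ s₀) * γ s₀).im := by
      simp only [Complex.mul_im, Complex.mul_re, Complex.add_re, Complex.add_im, Complex.conj_re,
        Complex.conj_im, Complex.ofReal_re, Complex.ofReal_im]
      ring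
    rw [e] at h1
    rcases mul_eq_zero.mp h1 with h2 | h2
    · rw [h2] at hab
      simp only [ofReal_zero, zero_mul, zero_add] at hab
      have h3 : (r₀ : ℂ) * deriv γ s₀ ≠ 0 := mul_ne_zero (by exact_mod_cast hr0.ne') (h.reg s₀)
      rcases mul_eq_zero.mp hab with h4 | h4
      · have : b = 0 := by exact_mod_cast h4
        rw [h2, this]; rfl
      · exact absurd h4 h3
    · exact absurd h2 hcr
  have hfr : Module.finrank ℝ (ℝ × ℝ) = Module.finrank ℝ ℂ := by
    rw [Module.finrank_prod, Module.finrank_self, Complex.finrank_real_complex]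
  set E := (LinearMap.linearEquivOfInjective (f' : ℝ × ℝ →ₗ[ℝ] ℂ) hinj
    hfr).toContinuousLinearEquiv with hE
  have hEf : (E : ℝ × ℝ →L[ℝ] ℂ) = f' := by
    ext <;> rfl
  have hfd' : HasFDerivAt Φ (E : ℝ × ℝ →L[ℝ] ℂ) (r₀, s₀) := by rw [hEf]; exact hfd
  have hcd : ContDiffAt ℝ 2 Φ (r₀, s₀) := hΦs.contDiffAt
  have h2ne : (2 : WithTop ℕ∞) ≠ 0 := by simp
  set inv := hcd.localInverse hfd' h2ne with hinv
  have hinvs : ContDiffAt ℝ 2 inv (Φ (r₀, s₀)) := hcd.to_localInverse hfd' h2ne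
  have hinv0 : inv (Φ (r₀, s₀)) = (r₀, s₀) := hcd.localInverse_apply_image hfd' h2ne
  have hright : ∀ᶠ z in 𝓝 (Φ (r₀, s₀)), Φ (inv z) = z :=
    (hcd.hasStrictFDerivAt' hfd' h2ne).eventually_right_inverse
  have hposn : ∀ᶠ z in 𝓝 (Φ (r₀, s₀)), 0 < (inv z).1 := by
    have h1 : ContinuousAt (fun z => (inv z).1) (Φ (r₀, s₀)) :=
      continuous_fst.continuousAt.comp hinvs.continuousAt
    have h2 : 0 < (inv (Φ (r₀, s₀))).1 := by rw [hinv0]; exact hr0
    exact h1.eventually (lt_mem_nhds h2)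
  rw [hΦv] at hinvs hright hposn
  have h1 : ContDiffAt ℝ 2 (fun z => (inv z).1) v := contDiff_fst.contDiffAt.comp v hinvs
  apply h1.congr_of_eventuallyEq
  filter_upwards [hright, hposn] with z hz hzp
  conv_lhs => rw [← hz]
  simp only [hΦ]
  rw [gauge_hom _ hzp, h.gauge_gamma, mul_one]

/-- the gauge of a table -/
theorem gn (h : Tab K γ ℓ) : GN (gauge K) where
  hom := gauge_hom
  sub v w := gauge_add_le h.convex (absorbent_nhds_zero h.nhds_zero) v w
  pos := h.gauge_pos'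
  zero := gauge_zero
  smooth := h.contDiffAt_gauge
  strict v w hv hw hvw := by
    rw [gauge_eq_one_iff_mem_frontier h.convex h.nhds_zero] at hv hw
    have h1 := h.midpoint_mem (frontier_subset_closure hv) (frontier_subset_closure hw) hvw
    rw [gauge_lt_one_iff_mem_interior h.convex h.nhds_zero, h.isOpen.interior_eq]
    exact h1

end Tab

end Pool.Agent.W714.Mink
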