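import Pool.Agent.W714.Mink.Curve

set_option autoImplicit false

/-!
# Isotropic position
-/

namespace Pool.Agent.W714.Mink

open Complex Set Topology Filter MeasureTheory
open scoped ComplexConjugate

variable {γ : ℝ → ℂ} {L : ℝ}

/-- the length after the linear map `z ↦ z + μ conj z` -/
noncomputable def Imu (γ : ℝ → ℂ) (L : ℝ) (μ : ℂ) : ℝ :=
  ∫ t in (0:ℝ)..L, ‖deriv γ t + μ * conj (deriv γ t)‖

lemma continuous_integrand (h : RCurve γ L) :
    Continuous fun p : ℂ × ℝ => ‖deriv γ p.2 + p.1 * conj (deriv γ p.2)‖ := by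
  have h1 := continuous_deriv' h
  have h2 := Complex.continuous_conj.comp (h1.comp (continuous_snd (X := ℂ)))
  exact ((h1.comp continuous_snd).add (continuous_fst.mul h2)).norm

lemma continuous_Imu (h : RCurve γ L) : Continuous (Imu γ L) :=
  intervalIntegral.continuous_parametric_intervalIntegral_of_continuous'
    (f := fun μ t => ‖deriv γ t + μ * conj (deriv γ t)‖) (continuous_integrand h) _ _

lemma Imu_pos (h : RCurve γ L) (μ : ℂ) : 0 < Imu γ L μ := by
  have hL := h.pos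
  have hc : Continuous fun t => ‖deriv γ t + μ * conj (deriv γ t)‖ :=
    (continuous_integrand h).comp (show Continuous fun t : ℝ => ((μ, t) : ℂ × ℝ) by fun_prop)
  have hex : ∃ t ∈ Icc 0 L, deriv γ t + μ * conj (deriv γ t) ≠ 0 := by
    by_contra hcon
    push Not at hcon
    -- all tangents are parallel
    have hreal : ∀ t ∈ Icc 0 L, (conj (deriv γ 0) * deriv γ t).im = 0 := by
      intro t ht
      have h0 := hcon 0 ⟨le_rfl, hL.le⟩
      have h1 := hcon t ht
      have e0 : conj (deriv γ 0) = -(conj μ * deriv γ 0) := by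
        have := congrArg (starRingEnd ℂ) h0
        rw [map_add, map_mul, Complex.conj_conj, map_zero] at this
        linear_combination this
      have e1 : conj (deriv γ t) = -(conj μ * deriv γ t) := by
        have := congrArg (starRingEnd ℂ) h1
        rw [map_add, map_mul, Complex.conj_conj, map_zero] at this
        linear_combination this
      have e2 : conj (conj (deriv γ 0) * deriv γ t) = conj (deriv γ 0) * deriv γ t := by
        rw [map_mul, Complex.conj_conj, e1, e0]; ring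
      exact Complex.conj_eq_iff_im.mp e2
    have hx : L / 2 ∈ Ioo 0 L := ⟨by linarith, by linarith⟩
    have h1 := h.left 0 (L / 2) hx
    rw [zero_add] at h1
    have hd : ∀ t, HasDerivAt (fun t => (conj (deriv γ 0) * (γ t - γ 0)).im)
        (conj (deriv γ 0) * deriv γ t).im t := by
      intro t
      have := ((hasDerivAt h t).sub_const (γ 0)).const_mul (conj (deriv γ 0))
      exact Complex.imCLM.hasFDerivAt.comp_hasDerivAt t this
    have h2 := (convex_Icc (0:ℝ) (L / 2)).norm_image_sub_le_of_norm_hasDerivWithin_le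
      (f := fun t => (conj (deriv γ 0) * (γ t - γ 0)).im)
      (f' := fun t => (conj (deriv γ 0) * deriv γ t).im) (C := 0)
      (fun t _ => (hd t).hasDerivWithinAt)
      (fun t ht => by
        rw [hreal t ⟨ht.1, ht.2.trans (by linarith)⟩]; simp)
      (left_mem_Icc.mpr (by linarith)) (right_mem_Icc.mpr (by linarith))
    rw [zero_mul, norm_le_zero_iff, sub_self, mul_zero, Complex.zero_im, sub_zero] at h2
    linarith
  obtain ⟨t, ht, hne⟩ := hex
  exact intervalIntegral.integral_pos hL hc.continuousOn (fun x _ => norm_nonneg _)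
    ⟨t, ht, norm_pos_iff.mpr hne⟩

/-- a minimum of the length among unimodular images -/
lemma exists_min (h : RCurve γ L) : ∃ μ₀ : ℂ, ‖μ₀‖ < 1 ∧ ∀ μ : ℂ, ‖μ‖ < 1 →
    Imu γ L μ₀ ^ 2 * (1 - ‖μ‖ ^ 2) ≤ Imu γ L μ ^ 2 * (1 - ‖μ₀‖ ^ 2) := by
  have hc := continuous_Imu h
  obtain ⟨μm, -, hmin⟩ := (isCompact_closedBall (0:ℂ) 1).exists_isMinOn
    (by simp) hc.continuousOn
  set m := Imu γ L μm with hm
  have hmpos : 0 < m := Imu_pos h μm
  set I0 := Imu γ L 0 with hI0
  have hI0pos : 0 < I0 := Imu_pos h 0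
  have hmI : m ≤ I0 := hmin (by simp)
  set q := (m / I0) ^ 2 with hq
  have hq0 : 0 < q := by positivity
  have hq1 : q ≤ 1 := by
    rw [hq, div_pow, div_le_one (by positivity)]
    exact pow_le_pow_left₀ hmpos.le hmI 2
  set ρ := Real.sqrt (1 - q) with hρ
  have hρ2 : ρ ^ 2 = 1 - q := Real.sq_sqrt (by linarith)
  have hρ0 : 0 ≤ ρ := Real.sqrt_nonneg _
  have hρ1 : ρ < 1 := by nlinarith
  have hpos : ∀ μ ∈ Metric.closedBall (0:ℂ) ρ, 0 < 1 - ‖μ‖ ^ 2 := by
    intro μ hμ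
    rw [mem_closedBall_zero_iff] at hμ
    have := norm_nonneg μ
    nlinarith
  have hcE : ContinuousOn (fun μ => Imu γ L μ ^ 2 / (1 - ‖μ‖ ^ 2)) (Metric.closedBall (0:ℂ) ρ) := by
    apply ContinuousOn.div
    · exact (hc.pow 2).continuousOn
    · fun_prop
    · intro μ hμ
      exact (hpos μ hμ).ne'
  obtain ⟨μ₀, hμ₀, hmin₀⟩ := (isCompact_closedBall (0:ℂ) ρ).exists_isMinOn
    ⟨0, by simp [hρ0]⟩ hcE
  have hμ₀' : ‖μ₀‖ ≤ ρ := mem_closedBall_zero_iff.mp hμ₀
  have hp0 := hpos μ₀ hμ₀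
  refine ⟨μ₀, hμ₀'.trans_lt hρ1, fun μ hμ => ?_⟩
  have hp : 0 < 1 - ‖μ‖ ^ 2 := by
    have := norm_nonneg μ
    nlinarith
  suffices h1 : Imu γ L μ₀ ^ 2 / (1 - ‖μ₀‖ ^ 2) ≤ Imu γ L μ ^ 2 / (1 - ‖μ‖ ^ 2) by
    rwa [div_le_div_iff₀ hp0 hp] at h1
  rcases le_or_gt ‖μ‖ ρ with h2 | h2
  · exact hmin₀ (mem_closedBall_zero_iff.mpr h2)
  · have h3 : Imu γ L μ₀ ^ 2 / (1 - ‖μ₀‖ ^ 2) ≤ I0 ^ 2 := by
      have := hmin₀ (show (0:ℂ) ∈ Metric.closedBall (0:ℂ) ρ by simp [hρ0])
      simp only [mem_ofPred_eq, norm_zero] at this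
      norm_num at this
      exact this
    have h4 : m ≤ Imu γ L μ := hmin (mem_closedBall_zero_iff.mpr hμ.le)
    have h5 : 1 - ‖μ‖ ^ 2 ≤ q := by
      have : ρ ^ 2 ≤ ‖μ‖ ^ 2 := pow_le_pow_left₀ hρ0 h2.le 2
      linarith
    have h6 : I0 ^ 2 ≤ Imu γ L μ ^ 2 / (1 - ‖μ‖ ^ 2) := by
      rw [le_div_iff₀ hp]
      calc I0 ^ 2 * (1 - ‖μ‖ ^ 2) ≤ I0 ^ 2 * q := mul_le_mul_of_nonneg_left h5 (sq_nonneg _)
        _ = m ^ 2 := by rw [hq]; field_simp
        _ ≤ Imu γ L μ ^ 2 := pow_le_pow_left₀ hmpos.le h4 2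
    exact h3.trans h6

/-- **Isotropic position.** -/
theorem exists_isotropic (h : RCurve γ L) : ∃ μ : ℂ, ‖μ‖ < 1 ∧
    ∫ t in (0:ℝ)..L, (deriv γ t + μ * conj (deriv γ t)) * (deriv γ t + μ * conj (deriv γ t))
      / ((‖deriv γ t + μ * conj (deriv γ t)‖ : ℝ) : ℂ) = 0 := by
  obtain ⟨μ₀, hμ₀, hmin⟩ := exists_min h
  refine ⟨μ₀, hμ₀, ?_⟩
  have hL := h.pos
  set w : ℝ → ℂ := fun t => deriv γ t + μ₀ * conj (deriv γ t) with hw
  have hwc : Continuous w := by
    have h1 := continuous_deriv' h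
    exact h1.add (continuous_const.mul (Complex.continuous_conj.comp h1))
  have hwne : ∀ t, w t ≠ 0 := by
    intro t h0
    have h1 : deriv γ t = -(μ₀ * conj (deriv γ t)) := by
      have : deriv γ t + μ₀ * conj (deriv γ t) = 0 := h0
      linear_combination this
    have h2 := congrArg norm h1
    rw [norm_neg, norm_mul, Complex.norm_conj] at h2
    have h3 := norm_pos_iff.mpr (h.reg t)
    nlinarith
  have hwn : ∀ t, 0 < ‖w t‖ := fun t => norm_pos_iff.mpr (hwne t)
  set P := ∫ t in (0:ℝ)..L, ‖w t‖ with hP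
  have hPI : P = Imu γ L μ₀ := rfl
  have hPpos : 0 < P := by rw [hPI]; exact Imu_pos h μ₀
  set Q := ∫ t in (0:ℝ)..L, conj (w t) * conj (w t) / ((‖w t‖ : ℝ) : ℂ) with hQ
  have hwnc : Continuous fun t => ((‖w t‖ : ℝ) : ℂ) := by fun_prop
  have hcc : Continuous fun t => conj (w t) := Complex.continuous_conj.comp hwc
  have hQc : Continuous fun t => conj (w t) * conj (w t) / ((‖w t‖ : ℝ) : ℂ) :=
    (hcc.mul hcc).div hwnc fun t => by exact_mod_cast (hwn t).ne'
  -- the variation inequality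
  have hvar : ∀ ν : ℂ, ‖ν‖ < 1 →
      P ^ 2 * (1 - ‖ν‖ ^ 2) ≤ (∫ t in (0:ℝ)..L, ‖w t + ν * conj (w t)‖) ^ 2 := by
    intro ν hν
    have hden : (1:ℂ) + ν * conj μ₀ ≠ 0 := by
      intro h0
      have h1 : ν * conj μ₀ = -1 := by linear_combination h0
      have h2 := congrArg norm h1
      rw [norm_mul, Complex.norm_conj, norm_neg, norm_one] at h2
      have := norm_nonneg ν
      have := norm_nonneg μ₀
      nlinarith
    set D := ‖(1:ℂ) + ν * conj μ₀‖ with hD
    have hDpos : 0 < D := norm_pos_iff.mpr hden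
    set μ' := (μ₀ + ν) / (1 + ν * conj μ₀) with hμ'
    have hid : D ^ 2 * (1 - ‖μ'‖ ^ 2) = (1 - ‖ν‖ ^ 2) * (1 - ‖μ₀‖ ^ 2) := by
      have h1 : D ^ 2 * ‖μ'‖ ^ 2 = ‖μ₀ + ν‖ ^ 2 := by
        rw [hμ', norm_div, div_pow, ← hD]
        field_simp
      have h2 : D ^ 2 * (1 - ‖μ'‖ ^ 2) = D ^ 2 - ‖μ₀ + ν‖ ^ 2 := by rw [← h1]; ring
      rw [h2, hD]
      simp only [Complex.sq_norm, Complex.normSq_apply, Complex.add_re, Complex.add_im,
        Complex.mul_re, Complex.mul_im, Complex.conj_re, Complex.conj_im, Complex.one_re,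
        Complex.one_im]
      ring
    have hν2 : 0 < 1 - ‖ν‖ ^ 2 := by have := norm_nonneg ν; nlinarith
    have hμ2 : 0 < 1 - ‖μ₀‖ ^ 2 := by have := norm_nonneg μ₀; nlinarith
    have hμ'1 : ‖μ'‖ < 1 := by
      have h1 : 0 < D ^ 2 * (1 - ‖μ'‖ ^ 2) := by rw [hid]; positivity
      have h2 : 0 < 1 - ‖μ'‖ ^ 2 := by
        by_contra hcon
        push Not at hcon
        have := mul_nonpos_of_nonneg_of_nonpos (sq_nonneg D) hcon
        linarith
      have := norm_nonneg μ'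
      nlinarith
    have hint : ∫ t in (0:ℝ)..L, ‖w t + ν * conj (w t)‖ = D * Imu γ L μ' := by
      rw [Imu, ← intervalIntegral.integral_const_mul]
      congr 1
      funext t
      rw [hD, ← norm_mul]
      congr 1
      have h1 : (1 + ν * conj μ₀) * μ' = μ₀ + ν := by rw [hμ']; field_simp
      simp only [hw, map_add, map_mul, Complex.conj_conj]
      linear_combination (-conj (deriv γ t)) * h1
    have h3 := hmin μ' hμ'1
    rw [hint, hPI]
    have h4 : Imu γ L μ₀ ^ 2 * ((1 - ‖ν‖ ^ 2) * (1 - ‖μ₀‖ ^ 2))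
        ≤ (D * Imu γ L μ') ^ 2 * (1 - ‖μ₀‖ ^ 2) := by
      rw [← hid]
      have := mul_le_mul_of_nonneg_left h3 (sq_nonneg D)
      nlinarith
    have h5 : (Imu γ L μ₀ ^ 2 * (1 - ‖ν‖ ^ 2)) * (1 - ‖μ₀‖ ^ 2)
        ≤ (D * Imu γ L μ') ^ 2 * (1 - ‖μ₀‖ ^ 2) := by linarith
    exact le_of_mul_le_mul_right h5 hμ2
  -- the upper bound
  have hup : ∀ ν : ℂ, ∫ t in (0:ℝ)..L, ‖w t + ν * conj (w t)‖
      ≤ P + ‖ν‖ ^ 2 * P / 2 + (ν * Q).re := by
    intro ν
    have hc1 : Continuous fun t => ‖w t + ν * conj (w t)‖ :=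
      (hwc.add (continuous_const.mul hcc)).norm
    have hc2 : Continuous fun t => (1 + ‖ν‖ ^ 2 / 2) * ‖w t‖ := by fun_prop
    have hc3 : Continuous fun t => (ν * (conj (w t) * conj (w t) / ((‖w t‖ : ℝ) : ℂ))).re :=
      Complex.continuous_re.comp (continuous_const.mul hQc)
    have h1 : ∫ t in (0:ℝ)..L, ‖w t + ν * conj (w t)‖ ≤ ∫ t in (0:ℝ)..L,
        ((1 + ‖ν‖ ^ 2 / 2) * ‖w t‖ + (ν * (conj (w t) * conj (w t) / ((‖w t‖ : ℝ) : ℂ))).re) := by
      apply intervalIntegral.integral_mono_on hL.le (hc1.intervalIntegrable _ _)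
        ((hc2.add hc3).intervalIntegrable _ _)
      intro t _
      change ‖w t + ν * conj (w t)‖ ≤ (1 + ‖ν‖ ^ 2 / 2) * ‖w t‖
        + (ν * (conj (w t) * conj (w t) / ((‖w t‖ : ℝ) : ℂ))).re
      have hn := hwn t
      have e1 : (ν * (conj (w t) * conj (w t) / ((‖w t‖ : ℝ) : ℂ))).re
          = (ν * (conj (w t) * conj (w t))).re / ‖w t‖ := by
        rw [← mul_div_assoc, Complex.div_ofReal_re]
      have e2 : ‖w t + ν * conj (w t)‖ ^ 2
          = ‖w t‖ ^ 2 * (1 + ‖ν‖ ^ 2) + 2 * (ν * (conj (w t) * conj (w t))).re := by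
        simp only [Complex.sq_norm, Complex.normSq_apply, Complex.add_re, Complex.add_im,
          Complex.mul_re, Complex.mul_im, Complex.conj_re, Complex.conj_im]
        ring
      rw [e1]
      have e3 : (1 + ‖ν‖ ^ 2 / 2) * ‖w t‖ + (ν * (conj (w t) * conj (w t))).re / ‖w t‖
          = (‖w t‖ ^ 2 + ‖w t + ν * conj (w t)‖ ^ 2) / (2 * ‖w t‖) := by
        rw [e2]
        field_simp
        ring
      rw [e3, le_div_iff₀ (by positivity)]
      nlinarith [sq_nonneg (‖w t‖ - ‖w t + ν * conj (w t)‖)]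
    refine h1.trans (le_of_eq ?_)
    rw [intervalIntegral.integral_add (hc2.intervalIntegrable _ _) (hc3.intervalIntegrable _ _),
      intervalIntegral.integral_const_mul]
    have h2 := intervalIntegral.intervalIntegral_re (μ := volume) (a := 0) (b := L)
      (f := fun t => ν * (conj (w t) * conj (w t) / ((‖w t‖ : ℝ) : ℂ)))
      ((continuous_const.mul hQc).intervalIntegrable _ _)
    simp only [RCLike.re_to_complex] at h2
    rw [h2, intervalIntegral.integral_const_mul]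
    ring
  -- conclusion
  have hQ0 : Q = 0 := by
    by_contra hne
    set q := ‖Q‖ ^ 2 with hq
    have hqpos : 0 < q := by have := norm_pos_iff.mpr hne; positivity
    have hlim : Tendsto (fun s : ℝ => 2 * s * P ^ 2 + s * q * (s * P / 2 - 1) ^ 2) (𝓝[>] 0)
        (𝓝 (2 * 0 * P ^ 2 + 0 * q * (0 * P / 2 - 1) ^ 2)) := by
      have : Continuous fun s : ℝ => 2 * s * P ^ 2 + s * q * (s * P / 2 - 1) ^ 2 := by fun_prop
      exact (this.tendsto 0).mono_left nhdsWithin_le_nhds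
    have hge : 2 * P ≤ 2 * 0 * P ^ 2 + 0 * q * (0 * P / 2 - 1) ^ 2 := by
      apply ge_of_tendsto hlim
      have hsmall : ∀ᶠ s : ℝ in 𝓝[>] 0, s * ‖Q‖ < 1 := by
        have : Continuous fun s : ℝ => s * ‖Q‖ := by fun_prop
        have h1 := this.tendsto 0
        rw [zero_mul] at h1
        exact (h1.mono_left nhdsWithin_le_nhds).eventually (gt_mem_nhds one_pos)
      filter_upwards [self_mem_nhdsWithin, hsmall] with s hs hs1
      have hs0 : 0 < s := hs
      set ν : ℂ := -((s : ℂ) * conj Q) with hν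
      have hνn : ‖ν‖ = s * ‖Q‖ := by
        rw [hν, norm_neg, norm_mul, Complex.norm_conj, norm_real, Real.norm_eq_abs, abs_of_pos hs0]
      have hνq : ‖ν‖ ^ 2 = s ^ 2 * q := by rw [hνn, mul_pow]
      have hre : (ν * Q).re = -(s * q) := by
        have : ν * Q = -(((s * q : ℝ)) : ℂ) := by
          rw [hν, hq]
          have h3 : conj Q * Q = ((‖Q‖ ^ 2 : ℝ) : ℂ) := by
            rw [mul_comm, Complex.mul_conj, Complex.normSq_eq_norm_sq]
          push_cast at h3 ⊢
          linear_combination (-(s:ℂ)) * h3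
        rw [this]; simp
      have h1 := hvar ν (by rw [hνn]; exact hs1)
      have h2 := hup ν
      rw [hre, hνq] at h2
      have h3 : 0 ≤ ∫ t in (0:ℝ)..L, ‖w t + ν * conj (w t)‖ :=
        intervalIntegral.integral_nonneg hL.le fun t _ => norm_nonneg _
      have h4 : (∫ t in (0:ℝ)..L, ‖w t + ν * conj (w t)‖) ^ 2
          ≤ (P + s ^ 2 * q * P / 2 + -(s * q)) ^ 2 := pow_le_pow_left₀ h3 h2 2
      rw [hνq] at h1
      have h5 := h1.trans h4
      have h6 : s * q * (2 * P) ≤ s * q * (2 * s * P ^ 2 + s * q * (s * P / 2 - 1) ^ 2) := by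
        nlinarith
      exact le_of_mul_le_mul_left h6 (by positivity)
    linarith
  have hfin : ∫ t in (0:ℝ)..L, w t * w t / ((‖w t‖ : ℝ) : ℂ) = conj Q := by
    rw [hQ]
    have : ∀ f : ℝ → ℂ, conj (∫ t in (0:ℝ)..L, f t) = ∫ t in (0:ℝ)..L, conj (f t) := by
      intro f
      simp only [intervalIntegral, map_sub, integral_conj]
    rw [this]
    congr 1
    funext t
    simp only [map_div₀, map_mul, Complex.conj_conj, Complex.conj_ofReal]
  rw [hfin, hQ0, map_zero]

end Pool.Agent.W714.Mink
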