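import Pool.Agent.W714.Mink.Defs
import Pool.Agent.W714.Mink.Core
import Pool.Agent.W714.Mink.Gauge
import Pool.Agent.W714.Mink.Pos

set_option autoImplicit false

/-!
# Totally integrable Minkowski billiards are elliptic
-/

namespace Pool.Agent.W714.Mink

open Complex Set Topology Filter MeasureTheory
open scoped ComplexConjugate

variable {K : Set ℂ} {γ : ℝ → ℂ} {ℓ : ℝ}

lemma Table.tab (h : Table K γ ℓ) : Tab K γ ℓ where
  isOpen := h.isOpen
  bounded := h.bounded
  convex := h.convex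
  strict := h.strictConvex
  zero_mem := h.zero_mem
  pos := h.length_pos
  smooth := h.smooth
  per := h.periodic
  injOn := h.simple
  range_eq := h.boundary
  reg t h0 := by
    have := h.unit_speed t
    rw [h0, gauge_zero] at this
    exact zero_ne_one this

lemma gauge_equiv (A : ℂ ≃L[ℝ] ℂ) (K : Set ℂ) (v : ℂ) : gauge (A '' K) (A v) = gauge K v := by
  unfold gauge
  congr 1
  ext r
  simp only [mem_ofPred_eq]
  constructor
  · rintro ⟨hr, x, ⟨y, hy, rfl⟩, hx⟩
    refine ⟨hr, y, hy, A.injective ?_⟩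
    simp only at hx ⊢
    rw [← hx, map_smul]
  · rintro ⟨hr, x, hx, rfl⟩
    refine ⟨hr, A x, ⟨x, hx, rfl⟩, ?_⟩
    simp only [map_smul]

lemma deriv_equiv (h : Tab K γ ℓ) (A : ℂ ≃L[ℝ] ℂ) (t : ℝ) :
    deriv (fun t => A (γ t)) t = A (deriv γ t) :=
  ((A : ℂ →L[ℝ] ℂ).hasFDerivAt.comp_hasDerivAt t (h.hasDerivAt t)).deriv

/-- linear images of tables -/
lemma Tab.image (h : Tab K γ ℓ) (A : ℂ ≃L[ℝ] ℂ) : Tab (A '' K) (fun t => A (γ t)) ℓ where
  isOpen := A.toHomeomorph.isOpenMap K h.isOpen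
  bounded := (A : ℂ →L[ℝ] ℂ).lipschitz.isBounded_image h.bounded
  convex := h.convex.linear_image (A : ℂ →ₗ[ℝ] ℂ)
  strict := by
    have h1 : closure (A '' K) = A '' closure K := (A.toHomeomorph.image_closure K).symm
    rw [h1]
    exact h.strict.linear_image (A : ℂ →ₗ[ℝ] ℂ) A.toHomeomorph.isOpenMap
  zero_mem := ⟨0, h.zero_mem, map_zero A⟩
  pos := h.pos
  smooth := A.contDiff.comp h.smooth
  per t := by simp only [h.per t]
  injOn x hx y hy hxy := h.injOn hx hy (A.injective hxy)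
  range_eq := by
    have h1 : frontier (A '' K) = A '' frontier K := (A.toHomeomorph.image_frontier K).symm
    rw [h1, ← h.range_eq, ← range_comp]
    rfl
  reg t h0 := by
    rw [deriv_equiv h A] at h0
    exact h.reg t (A.injective (by rw [h0, map_zero]))

/-- the linear map `z ↦ z + μ conj z` -/
noncomputable def fmu (μ : ℂ) : ℂ →ₗ[ℝ] ℂ where
  toFun z := z + μ * conj z
  map_add' x y := by simp; ring
  map_smul' r x := by simp; ring

lemma exists_equiv {μ : ℂ} (hμ : ‖μ‖ < 1) : ∃ A : ℂ ≃L[ℝ] ℂ, ∀ z, A z = z + μ * conj z := by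
  have hinj : Function.Injective (fmu μ) := by
    rw [← LinearMap.ker_eq_bot, LinearMap.ker_eq_bot']
    intro z hz
    have h1 : z + μ * conj z = 0 := hz
    have h2 : z = -(μ * conj z) := by linear_combination h1
    have h3 := congrArg norm h2
    rw [norm_neg, norm_mul, Complex.norm_conj] at h3
    by_contra hne
    have := norm_pos_iff.mpr hne
    nlinarith
  exact ⟨(LinearMap.linearEquivOfInjective (fmu μ) hinj rfl).toContinuousLinearEquiv, fun z => rfl⟩

/-- a positively oriented linear image in isotropic position -/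
lemma exists_position (h : Tab K γ ℓ) : ∃ A : ℂ ≃L[ℝ] ℂ,
    RCurve (fun t => A (γ t)) ℓ ∧
      ∫ t in (0:ℝ)..ℓ, deriv (fun t => A (γ t)) t * deriv (fun t => A (γ t)) t
        / ((‖deriv (fun t => A (γ t)) t‖ : ℝ) : ℂ) = 0 := by
  -- orientation
  obtain ⟨A₁, hA₁⟩ : ∃ A₁ : ℂ ≃L[ℝ] ℂ, ∀ t, ∀ a ∈ A₁ '' K,
      0 < (conj (deriv (fun t => A₁ (γ t)) t) * (a - A₁ (γ t))).im := by
    rcases h.side' with h1 | h1
    · refine ⟨ContinuousLinearEquiv.refl ℝ ℂ, ?_⟩
      rintro t _ ⟨a, ha, rfl⟩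
      exact h1 t a ha
    · refine ⟨Complex.conjCLE, ?_⟩
      rintro t _ ⟨a, ha, rfl⟩
      rw [deriv_equiv h]
      have h2 := h1 t a ha
      simp only [Complex.conjCLE_apply, Complex.conj_conj]
      have e : deriv γ t * (conj a - conj (γ t)) = conj (conj (deriv γ t) * (a - γ t)) := by
        simp only [map_mul, map_sub, Complex.conj_conj]
      rw [e, Complex.conj_im]
      linarith
  have hT₁ := h.image A₁
  have hR₁ := hT₁.rcurve hA₁
  obtain ⟨μ, hμ, hiso⟩ := exists_isotropic hR₁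
  obtain ⟨A₂, hA₂⟩ := exists_equiv hμ
  have hT₂ := hT₁.image A₂
  have hd := deriv_equiv hT₁ A₂
  have hcomp : ∀ z, (A₁.trans A₂) z = A₂ (A₁ z) := fun z => rfl
  refine ⟨A₁.trans A₂, ?_, ?_⟩
  · simp only [hcomp]
    apply hT₂.rcurve
    rintro t _ ⟨a, ha, rfl⟩
    rw [hd t]
    have h1 := hA₁ t a ha
    have e : (conj (A₂ (deriv (fun t => A₁ (γ t)) t)) * (A₂ a - A₂ (A₁ (γ t)))).im
        = (1 - ‖μ‖ ^ 2) * (conj (deriv (fun t => A₁ (γ t)) t) * (a - A₁ (γ t))).im := by
      rw [← map_sub, hA₂, hA₂]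
      generalize deriv (fun t => A₁ (γ t)) t = u
      generalize a - A₁ (γ t) = z
      simp only [Complex.sq_norm, Complex.normSq_apply, map_add, map_mul, Complex.conj_conj,
        Complex.add_re, Complex.add_im, Complex.mul_re, Complex.mul_im, Complex.conj_re,
        Complex.conj_im]
      ring
    rw [e]
    have := norm_nonneg μ
    exact mul_pos (by nlinarith) h1
  · have e : ∀ t, deriv (fun t => A₂ (A₁ (γ t))) t = deriv (fun t => A₁ (γ t)) t
        + μ * conj (deriv (fun t => A₁ (γ t)) t) := fun t => by rw [hd t, hA₂]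
    simp only [hcomp, e]
    exact hiso

/-- the billiard relation in a linear image -/
lemma isMap_iff (A : ℂ ≃L[ℝ] ℂ) {G : ℂ → ℂ} {R : ℝ → ℝ}
    (hN : Nrm (gauge (A '' K)) G R) (hR : RCurve (fun t => A (γ t)) ℓ) (T : PhaseCyl ℓ → PhaseCyl ℓ) :
    IsMinkowskiBilliard K γ ℓ T ↔
      IsMap (ℓ := ℓ) (gP (fun t => A (γ t)) G) (gM (fun t => A (γ t)) G) T := by
  have hG := isGen hN hR
  have hgen : ∀ t t₁, genFun K γ t t₁ = gS (fun t => A (γ t)) (gauge (A '' K)) t t₁ := by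
    intro t t₁
    rw [genFun, gS, ← map_sub, gauge_equiv]
  have h2 : ∀ (t : ℝ) (y : Ioo (0:ℝ) ℓ), deriv (fun s => genFun K γ t s) (t + y)
      = gP (fun t => A (γ t)) G t (t + y) := by
    intro t y
    simp only [hgen]
    exact (hG.dy t (t + y) (by linarith [y.2.1]) (by linarith [y.2.2])).deriv
  have h1 : ∀ (t : ℝ) (y : Ioo (0:ℝ) ℓ), deriv (fun s => genFun K γ s (t + y)) t
      = -gM (fun t => A (γ t)) G t (t + y) := by
    intro t y
    simp only [hgen]
    exact (hG.dx t (t + y) (by linarith [y.2.1]) (by linarith [y.2.2])).deriv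
  constructor
  · intro h t y
    obtain ⟨h3, h4⟩ := h t y (t + y) _ rfl rfl
    rw [h2 t y, h1 (t + y) (T ((t : AddCircle ℓ), y)).2] at h4
    exact ⟨h3, by linarith⟩
  · rintro h t y t₁ t₂ rfl rfl
    obtain ⟨h3, h4⟩ := h t y
    rw [h2 t y, h1 (t + y) (T ((t : AddCircle ℓ), y)).2]
    exact ⟨h3, by linarith⟩

/-- existence and uniqueness of the Minkowski billiard map -/
theorem existsUnique_billiard (h : Table K γ ℓ) :
    ∃! T : PhaseCyl ℓ → PhaseCyl ℓ, IsMinkowskiBilliard K γ ℓ T := by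
  obtain ⟨A, hR, -⟩ := exists_position h.tab
  have hN := (h.tab.image A).gn.nrm
  refine ⟨tm hN hR, (isMap_iff A hN hR _).mpr (isMap_tm hN hR), fun T hT => ?_⟩
  exact eq_tm hN hR ((isMap_iff A hN hR T).mp hT)

/-- **The rigidity theorem.** -/
theorem isEllipse_of_integrable (h : Table K γ ℓ) {T : PhaseCyl ℓ → PhaseCyl ℓ}
    (hT : IsMinkowskiBilliard K γ ℓ T) (hI : IsTotallyIntegrable T) : IsEllipse (range γ) := by
  obtain ⟨A, hR, hiso⟩ := exists_position h.tab
  have hN := (h.tab.image A).gn.nrm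
  obtain ⟨F, h1, h2, h3⟩ := hI
  obtain ⟨m, r, hr, hc⟩ := circle_of_foliated hN hR hiso ((isMap_iff A hN hR T).mp hT) F h1 h2 h3
  have hr' : (r : ℂ) ≠ 0 := by exact_mod_cast hr.ne'
  refine ⟨(ContinuousLinearEquiv.smulLeft (R₁ := ℝ) (M₁ := ℂ) (Units.mk0 r hr.ne')).trans A.symm,
    A.symm m, ?_⟩
  have e : ∀ z : ℂ, ((ContinuousLinearEquiv.smulLeft (R₁ := ℝ) (M₁ := ℂ)
      (Units.mk0 r hr.ne')).trans A.symm) z + A.symm m = A.symm ((r : ℂ) * z + m) := by
    intro z
    rw [map_add]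
    rfl
  ext z
  constructor
  · rintro ⟨t, rfl⟩
    have h4 : A (γ t) ∈ Metric.sphere m r := by rw [← hc]; exact ⟨t, rfl⟩
    rw [mem_sphere_iff_norm] at h4
    refine ⟨(r : ℂ)⁻¹ * (A (γ t) - m), ?_, ?_⟩
    · rw [mem_sphere_iff_norm, sub_zero, norm_mul, h4, norm_inv, norm_real, Real.norm_eq_abs,
        abs_of_pos hr, inv_mul_cancel₀ hr.ne']
    · simp only
      rw [e, ← mul_assoc, mul_inv_cancel₀ hr', one_mul, sub_add_cancel,
        ContinuousLinearEquiv.symm_apply_apply]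
  · rintro ⟨w, hw, rfl⟩
    rw [mem_sphere_iff_norm, sub_zero] at hw
    simp only
    rw [e]
    have h4 : (r : ℂ) * w + m ∈ range fun t => A (γ t) := by
      rw [hc, mem_sphere_iff_norm, add_sub_cancel_right, norm_mul, hw, norm_real,
        Real.norm_eq_abs, abs_of_pos hr, mul_one]
    obtain ⟨t, ht⟩ := h4
    exact ⟨t, by rw [← ht, ContinuousLinearEquiv.symm_apply_apply]⟩

end Pool.Agent.W714.Mink
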