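import Pool.Agent.W714.Mink.Nrm

set_option autoImplicit false

/-!
# From a smooth sublinear function to the gradient data
-/

namespace Pool.Agent.W714.Mink

open Complex Set Topology Filter
open scoped ComplexConjugate

/-- a smooth strictly convex gauge -/
structure GN (g : ℂ → ℝ) : Prop where
  hom : ∀ r : ℝ, 0 < r → ∀ v : ℂ, g (r * v) = r * g v
  sub : ∀ v w : ℂ, g (v + w) ≤ g v + g w
  pos : ∀ v : ℂ, v ≠ 0 → 0 < g v
  zero : g 0 = 0
  smooth : ∀ v : ℂ, v ≠ 0 → ContDiffAt ℝ 2 g v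
  strict : ∀ v w : ℂ, g v = 1 → g w = 1 → v ≠ w → g ((1 / 2 : ℝ) * (v + w)) < 1

/-- the gradient -/
noncomputable def grd (g : ℂ → ℝ) (v : ℂ) : ℂ :=
  (fderiv ℝ g v 1 : ℂ) + (fderiv ℝ g v I : ℂ) * I

lemma ip_grd (g : ℂ → ℝ) (v w : ℂ) : ip (grd g v) w = fderiv ℝ g v w := by
  have h1 : w = w.re • (1:ℂ) + w.im • I := by
    apply Complex.ext <;> simp
  have h2 : fderiv ℝ g v w = w.re * fderiv ℝ g v 1 + w.im * fderiv ℝ g v I := by
    conv_lhs => rw [h1]
    rw [map_add, map_smul, map_smul, smul_eq_mul, smul_eq_mul]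
  rw [h2]
  simp [ip, grd]
  ring

/-- the curvature radius -/
noncomputable def radR (g : ℂ → ℝ) (θ : ℝ) : ℝ :=
  ip (deriv (fun θ : ℝ => grd g (exp (θ * I))) θ) (I * exp (θ * I))

variable {g : ℂ → ℝ}

lemma hasDerivAt_expI (θ : ℝ) : HasDerivAt (fun θ : ℝ => exp (θ * I)) (I * exp (θ * I)) θ := by
  have h1 : HasDerivAt (fun θ : ℝ => ((θ : ℂ) * I)) (1 * I) θ :=
    (Complex.ofRealCLM.hasDerivAt (x := θ)).mul_const I
  have h2 := h1.cexp
  rw [one_mul, mul_comm] at h2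
  exact h2

lemma GN.hasFDerivAt (h : GN g) {v : ℂ} (hv : v ≠ 0) : HasFDerivAt g (fderiv ℝ g v) v :=
  ((h.smooth v hv).differentiableAt (by simp)).hasFDerivAt

lemma GN.diff (h : GN g) {v : ℂ} (hv : v ≠ 0) (c : ℝ → ℂ) (c' : ℂ) (t : ℝ)
    (hc : HasDerivAt c c' t) (hct : c t = v) :
    HasDerivAt (fun t => g (c t)) (ip (grd g v) c') t := by
  rw [ip_grd]
  have h1 := h.hasFDerivAt hv
  rw [← hct] at h1 ⊢
  exact h1.comp_hasDerivAt t hc

lemma GN.contDiffAt_grd (h : GN g) {v : ℂ} (hv : v ≠ 0) : ContDiffAt ℝ 1 (grd g) v := by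
  have h1 : ContDiffAt ℝ 1 (fderiv ℝ g) v := (h.smooth v hv).fderiv_right (by norm_num)
  have h2 : ContDiffAt ℝ 1 (fun v => fderiv ℝ g v 1) v := h1.clm_apply contDiffAt_const
  have h3 : ContDiffAt ℝ 1 (fun v => fderiv ℝ g v I) v := h1.clm_apply contDiffAt_const
  have h4 : ContDiffAt ℝ 1 (fun v => ((fderiv ℝ g v 1 : ℝ) : ℂ)) v :=
    Complex.ofRealCLM.contDiff.contDiffAt.comp v h2
  have h5 : ContDiffAt ℝ 1 (fun v => ((fderiv ℝ g v I : ℝ) : ℂ)) v :=
    Complex.ofRealCLM.contDiff.contDiffAt.comp v h3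
  exact h4.add (h5.mul contDiffAt_const)

lemma GN.scale (h : GN g) (r : ℝ) (hr : 0 < r) (v : ℂ) : grd g (r * v) = grd g v := by
  by_cases hv : v = 0
  · rw [hv, mul_zero]
  have hrv : (r : ℂ) * v ≠ 0 := mul_ne_zero (by exact_mod_cast hr.ne') hv
  have h1 : HasFDerivAt (fun x : ℂ => (r : ℂ) * x) (r • ContinuousLinearMap.id ℝ ℂ) v := by
    have := (hasFDerivAt_id (𝕜 := ℝ) v).const_smul r
    have e : (fun x : ℂ => (r : ℂ) * x) = r • (fun x : ℂ => x) := by
      funext x; simp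
    rw [e]; exact this
  have h2 := (h.hasFDerivAt hrv).comp v h1
  have h3 : HasFDerivAt (fun x : ℂ => r * g x) (r • fderiv ℝ g v) v :=
    (h.hasFDerivAt hv).const_smul r
  have e2 : (g ∘ fun x : ℂ => (r : ℂ) * x) = fun x : ℂ => r * g x := by
    funext x; exact h.hom r hr x
  rw [e2] at h2
  have h4 := h2.unique h3
  have h5 : fderiv ℝ g ((r : ℂ) * v) = fderiv ℝ g v := by
    refine ContinuousLinearMap.ext fun w => ?_
    have h6 : (fderiv ℝ g ((r : ℂ) * v)) (r • w) = r • (fderiv ℝ g v) w :=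
      congrArg (fun f : ℂ →L[ℝ] ℝ => f w) h4
    rw [map_smul, smul_eq_mul, smul_eq_mul] at h6
    exact mul_left_cancel₀ hr.ne' h6
  rw [grd, grd, h5]

lemma GN.supp (h : GN g) (v w : ℂ) (hv : v ≠ 0) : ip (grd g v) w ≤ g w := by
  have h1 := h.diff hv (fun t : ℝ => v + t * w) (1 * w) 0
    ((((Complex.ofRealCLM.hasDerivAt (x := (0:ℝ))).mul_const w)).const_add v) (by simp)
  rw [one_mul] at h1
  have h2 := (hasDerivAt_iff_tendsto_slope.mp h1).mono_left
    (nhdsWithin_mono (0:ℝ) (show Ioi (0:ℝ) ⊆ {0}ᶜ from fun x hx => ne_of_gt hx))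
  apply le_of_tendsto h2
  filter_upwards [self_mem_nhdsWithin] with t ht
  have ht' : 0 < t := ht
  rw [slope_def_field]
  simp only [ofReal_zero, zero_mul, add_zero, sub_zero]
  rw [div_le_iff₀ ht']
  have h3 := h.sub v (t * w)
  rw [h.hom t ht'] at h3
  linarith

lemma GN.euler (h : GN g) (v : ℂ) (hv : v ≠ 0) : ip (grd g v) v = g v := by
  have h1 := h.diff hv (fun t : ℝ => (t : ℂ) * v) (1 * v) 1
    ((Complex.ofRealCLM.hasDerivAt (x := (1:ℝ))).mul_const v) (by simp)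
  rw [one_mul] at h1
  have h2 : HasDerivAt (fun t : ℝ => t * g v) (1 * g v) 1 := (hasDerivAt_id (1:ℝ)).mul_const _
  rw [one_mul] at h2
  have e : (fun t : ℝ => g ((t : ℂ) * v)) =ᶠ[𝓝 1] fun t : ℝ => t * g v := by
    filter_upwards [lt_mem_nhds (show (0:ℝ) < 1 by norm_num)] with t ht
    exact h.hom t ht v
  exact (h1.congr_of_eventuallyEq e.symm).unique h2

lemma GN.inj (h : GN g) (v w : ℂ) (hv : v ≠ 0) (hw : w ≠ 0) (he : grd g v = grd g w) :
    ∃ r : ℝ, 0 < r ∧ w = r * v := by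
  have gv := h.pos v hv
  have gw := h.pos w hw
  set v' : ℂ := (((g v)⁻¹ : ℝ) : ℂ) * v with hv'
  set w' : ℂ := (((g w)⁻¹ : ℝ) : ℂ) * w with hw'
  have e1 : g v' = 1 := by rw [hv', h.hom _ (inv_pos.mpr gv), inv_mul_cancel₀ gv.ne']
  have e2 : g w' = 1 := by rw [hw', h.hom _ (inv_pos.mpr gw), inv_mul_cancel₀ gw.ne']
  have hv'0 : v' ≠ 0 := mul_ne_zero (by exact_mod_cast (inv_pos.mpr gv).ne') hv
  have hw'0 : w' ≠ 0 := mul_ne_zero (by exact_mod_cast (inv_pos.mpr gw).ne') hw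
  have e3 : grd g v' = grd g w' := by
    rw [hv', hw', h.scale _ (inv_pos.mpr gv), h.scale _ (inv_pos.mpr gw), he]
  by_cases hvw : v' = w'
  · refine ⟨g w / g v, div_pos gw gv, ?_⟩
    rw [hv', hw'] at hvw
    have h1 : (g w : ℂ) ≠ 0 := by exact_mod_cast gw.ne'
    have h2 : (g v : ℂ) ≠ 0 := by exact_mod_cast gv.ne'
    push_cast at hvw ⊢
    have h3 : (g v : ℂ) * (g w) * ((g v : ℂ)⁻¹ * v) = (g v : ℂ) * (g w) * ((g w : ℂ)⁻¹ * w) := by
      rw [hvw]
    have h4 : (g w : ℂ) * v = (g v) * w := by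
      have a1 : (g v : ℂ) * (g w) * ((g v : ℂ)⁻¹ * v) = (g w : ℂ) * v := by field_simp
      have a2 : (g v : ℂ) * (g w) * ((g w : ℂ)⁻¹ * w) = (g v : ℂ) * w := by field_simp
      rw [← a1, ← a2]; exact h3
    field_simp
    linear_combination -h4
  · exfalso
    have h1 := h.strict v' w' e1 e2 hvw
    have h2 := h.supp v' ((1 / 2 : ℝ) * (v' + w')) hv'0
    rw [ip_smul, ip_add, h.euler v' hv'0, e3, h.euler w' hw'0, e1, e2] at h2
    linarith

lemma ip_expand (a : ℂ) (θ : ℝ) :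
    a = (ip a (exp (θ * I)) : ℂ) * exp (θ * I) + (ip a (I * exp (θ * I)) : ℂ) * (I * exp (θ * I)) := by
  have h1 : ‖exp (θ * I)‖ ^ 2 = 1 := by rw [norm_exp_ofReal_mul_I]; norm_num
  rw [Complex.sq_norm, Complex.normSq_apply] at h1
  generalize exp (θ * I) = E at h1 ⊢
  apply Complex.ext
  · simp [ip]
    linear_combination (-a.re) * h1
  · simp [ip]
    linear_combination (-a.im) * h1

lemma GN.contDiff_pp (h : GN g) : ContDiff ℝ 1 (fun θ : ℝ => grd g (exp (θ * I))) := by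
  rw [contDiff_iff_contDiffAt]
  intro θ
  have h1 : ContDiffAt ℝ 1 (fun θ : ℝ => exp (θ * I)) θ := by
    have : ContDiff ℝ 1 (fun θ : ℝ => ((θ : ℂ) * I)) :=
      Complex.ofRealCLM.contDiff.mul contDiff_const
    exact (this.cexp).contDiffAt
  exact (h.contDiffAt_grd (exp_ne_zero _)).comp θ h1

lemma HasDerivAt.ip2 {a b : ℝ → ℂ} {a' b' : ℂ} {x : ℝ} (ha : HasDerivAt a a' x)
    (hb : HasDerivAt b b' x) : HasDerivAt (fun x => ip (a x) (b x)) (ip a' (b x) + ip (a x) b') x := by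
  have ra : HasDerivAt (fun x => (a x).re) a'.re x := Complex.reCLM.hasFDerivAt.comp_hasDerivAt x ha
  have ia : HasDerivAt (fun x => (a x).im) a'.im x := Complex.imCLM.hasFDerivAt.comp_hasDerivAt x ha
  have rb : HasDerivAt (fun x => (b x).re) b'.re x := Complex.reCLM.hasFDerivAt.comp_hasDerivAt x hb
  have ib : HasDerivAt (fun x => (b x).im) b'.im x := Complex.imCLM.hasFDerivAt.comp_hasDerivAt x hb
  have h1 := (ra.mul rb).add (ia.mul ib)
  refine HasDerivAt.congr_deriv h1 ?_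
  simp only [ip]
  ring

lemma GN.dG (h : GN g) (θ : ℝ) : HasDerivAt (fun θ : ℝ => grd g (exp (θ * I)))
    (radR g θ * (I * exp (θ * I))) θ := by
  have h1 : HasDerivAt (fun θ : ℝ => grd g (exp (θ * I)))
      (deriv (fun θ : ℝ => grd g (exp (θ * I))) θ) θ :=
    ((h.contDiff_pp.differentiable (by simp)) θ).hasDerivAt
  set d := deriv (fun θ : ℝ => grd g (exp (θ * I))) θ with hd
  have h2 := HasDerivAt.ip2 h1 (hasDerivAt_expI θ)
  have h3 := h.diff (exp_ne_zero (θ * I)) (fun θ : ℝ => exp (θ * I)) (I * exp (θ * I)) θ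
    (hasDerivAt_expI θ) rfl
  have e : (fun x : ℝ => ip (grd g (exp (x * I))) (exp (x * I))) = fun x : ℝ => g (exp (x * I)) := by
    funext x
    exact h.euler _ (exp_ne_zero _)
  rw [e] at h2
  have h4 := h2.unique h3
  have h5 : ip d (exp (θ * I)) = 0 := by linarith
  have h6 := ip_expand d θ
  rw [h5, ofReal_zero, zero_mul, zero_add] at h6
  have h7 : d = radR g θ * (I * exp (θ * I)) := h6
  rw [← h7]
  exact h1

lemma GN.nonneg (h : GN g) (θ : ℝ) : 0 ≤ radR g θ := by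
  have h1 := hasDerivAt_iff_tendsto_slope.mp (h.dG θ)
  have h2 := hasDerivAt_iff_tendsto_slope.mp (hasDerivAt_expI θ)
  have h3 : Tendsto (fun x => ip (slope (fun θ : ℝ => grd g (exp (θ * I))) θ x)
      (slope (fun θ : ℝ => exp (θ * I)) θ x)) (𝓝[≠] θ)
      (𝓝 (ip (radR g θ * (I * exp (θ * I))) (I * exp (θ * I)))) :=
    (continuous_ip.tendsto _).comp (h1.prodMk_nhds h2)
  have h4 : ip (radR g θ * (I * exp (θ * I))) (I * exp (θ * I)) = radR g θ := by
    have h1 : ‖exp (θ * I)‖ ^ 2 = 1 := by rw [norm_exp_ofReal_mul_I]; norm_num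
    rw [Complex.sq_norm, Complex.normSq_apply] at h1
    rw [smul_ip]
    simp only [ip, Complex.mul_re, Complex.mul_im, Complex.I_re, Complex.I_im]
    linear_combination (radR g θ) * h1
  rw [h4] at h3
  apply ge_of_tendsto h3
  filter_upwards [self_mem_nhdsWithin] with x hx
  rw [slope_def_module, slope_def_module]
  simp only [Complex.real_smul]
  rw [smul_ip, ip_smul, ← mul_assoc]
  apply mul_nonneg (mul_self_nonneg _)
  rw [sub_ip, ip_sub, ip_sub, h.euler _ (exp_ne_zero _), h.euler _ (exp_ne_zero _)]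
  have a1 := h.supp (exp (θ * I)) (exp (x * I)) (exp_ne_zero _)
  have a2 := h.supp (exp (x * I)) (exp (θ * I)) (exp_ne_zero _)
  linarith

/-- the gradient data of a smooth strictly convex gauge -/
theorem GN.nrm (h : GN g) : Nrm g (grd g) (radR g) where
  diff v hv c c' t hc hct := h.diff hv c c' t hc hct
  cont v hv := (h.contDiffAt_grd hv).continuousAt
  scale := h.scale
  dG := h.dG
  contR := by
    have h1 : Continuous (deriv (fun θ : ℝ => grd g (exp (θ * I)))) :=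
      h.contDiff_pp.continuous_deriv (by simp)
    unfold radR
    exact Continuous.ip' h1 (by fun_prop)
  nonneg := h.nonneg
  supp := h.supp
  euler := h.euler
  inj := h.inj
  pos := h.pos
  zero := h.zero

end Pool.Agent.W714.Mink
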