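import Pool.Agent.W714.Mink.Sat

set_option autoImplicit false

/-!
# Monotone twist maps of the space of chords: rational leaves of foliations are graphs
-/

namespace Pool.Agent.W714.Mink

open Pool.Agent.W714.Coin Set Topology Filter

variable {ℓ : ℝ} {S P M : ℝ → ℝ → ℝ}

/-- a generating function `S x y` for `x < y < x + ℓ`, with `P = ∂₂ S` and `M = - ∂₁ S` -/
structure IsGen (ℓ : ℝ) (S P M : ℝ → ℝ → ℝ) : Prop where
  pos : 0 < ℓ
  perM : ∀ x y, M (x + ℓ) (y + ℓ) = M x y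
  dy : ∀ x y, x < y → y < x + ℓ → HasDerivAt (fun t => S x t) (P x y) y
  dx : ∀ x y, x < y → y < x + ℓ → HasDerivAt (fun t => S t y) (-(M x y)) x
  contM : ∀ x y, x < y → y < x + ℓ → ContinuousAt (fun p : ℝ × ℝ => M p.1 p.2) (x, y)
  monoP : ∀ x x' y, x < x' → x' < y → y < x + ℓ → P x y < P x' y
  antiM : ∀ x y y', x < y → y < y' → y' < x + ℓ → M x y' < M x y
  bdM : ∃ B, 0 ≤ B ∧ ∀ x y, x < y → y < x + ℓ → |M x y| ≤ B

/-- `T (x, y) = (y, z)` when `P x y = M y z` -/
def IsMap (P M : ℝ → ℝ → ℝ) (T : PC ℓ → PC ℓ) : Prop :=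
  ∀ (x : ℝ) (y : Ioo (0:ℝ) ℓ), (T ((x : AddCircle ℓ), y)).1 = ((x + y : ℝ) : AddCircle ℓ) ∧
    M (x + y) (x + y + (T ((x : AddCircle ℓ), y)).2) = P x (x + y)

/-- an invariant graph -/
structure IsCirc (ℓ : ℝ) (P M : ℝ → ℝ → ℝ) (g : ℝ → ℝ) : Prop where
  cont : Continuous g
  mono : StrictMono g
  per : ∀ x, g (x + ℓ) = g x + ℓ
  gt : ∀ x, x < g x
  lt : ∀ x, g x < x + ℓ
  el : ∀ x, M (g x) (g (g x)) = P x (g x)

/-- the displacement after `n` steps -/
noncomputable def dq (T : PC ℓ → PC ℓ) (n : ℕ) (z : PC ℓ) : ℝ :=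
  ∑ i ∈ Finset.range n, ((T^[i] z).2 : ℝ)

lemma IsMap.fst {T : PC ℓ → PC ℓ} (hT : IsMap P M T) (z : PC ℓ) :
    (T z).1 = z.1 + (((z.2 : ℝ)) : AddCircle ℓ) := by
  obtain ⟨x, hx⟩ := coe_surjP z.1
  have h := (hT x z.2).1
  rw [hx] at h
  rw [show z = (z.1, z.2) from rfl, h, AddCircle.coe_add, hx]

lemma IsMap.iter_fst {T : PC ℓ → PC ℓ} (hT : IsMap P M T) (n : ℕ) (z : PC ℓ) :
    (T^[n] z).1 = z.1 + ((dq T n z : ℝ) : AddCircle ℓ) := by
  induction n with
  | zero => simp [dq]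
  | succ n ih =>
    rw [Function.iterate_succ_apply', hT.fst, ih, dq, dq, Finset.sum_range_succ,
      AddCircle.coe_add, add_assoc]

lemma continuous_dq {T : PC ℓ → PC ℓ} (hT : Continuous T) (n : ℕ) : Continuous (dq T n) := by
  unfold dq
  apply continuous_finsetSum
  intro i _
  have : Continuous T^[i] := hT.iterate i
  fun_prop

lemma image_iterate {T : PC ℓ → PC ℓ} {Γ : Set (PC ℓ)} (h : T '' Γ = Γ) (n : ℕ) :
    T^[n] '' Γ = Γ := by
  induction n with
  | zero => simp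
  | succ n ih =>
    rw [Function.iterate_succ', image_comp, ih, h]

lemma IsRIC.iterate {T : PC ℓ → PC ℓ} {Γ : Set (PC ℓ)} (h : IsRIC T Γ) (n : ℕ) :
    IsRIC (T^[n]) Γ := by
  obtain ⟨c, h1, h2, h3, h4⟩ := h
  exact ⟨c, h1, h2, h3, image_iterate h4 n⟩

/-- a leaf of periodic points for each rational rotation number -/
theorem exists_rational_leaf (hG : IsGen ℓ S P M) {T : PC ℓ → PC ℓ} (hT : IsMap P M T)
    (hTc : Continuous T) (hTi : Function.Injective T)
    (hrec : ∀ n, n ≠ 0 → ∀ V : Set (PC ℓ), IsOpen V → V.Nonempty →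
      ∃ z ∈ V, ∃ k, k ≠ 0 ∧ (T^[n])^[k] z ∈ V)
    (F : Set (Set (PC ℓ))) (hpart : ∀ z, ∃! Γ, Γ ∈ F ∧ z ∈ Γ) (hric : ∀ Γ ∈ F, IsRIC T Γ)
    (htube : ∀ Γ ∈ F, ∃ φ : AddCircle (1 : ℝ) × ℝ → PC ℓ, IsOpenEmbedding φ ∧
      (range fun u => φ (u, 0)) = Γ ∧ ∀ t, (range fun u => φ (u, t)) ∈ F)
    (p q : ℕ) (hp : 0 < p) (hpq : p < q) :
    ∃ Γ ∈ F, ∀ z ∈ Γ, T^[q] z = z ∧ dq T q z = p * ℓ := by
  have hL := hG.pos
  have : ContractibleSpace (Ioo (0:ℝ) ℓ) :=
    (convex_Ioo _ _).contractibleSpace (nonempty_Ioo.mpr hL)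
  have hq : 0 < q := hp.trans hpq
  have hqr : (0:ℝ) < q := by exact_mod_cast hq
  have hpr : (0:ℝ) < p := by exact_mod_cast hp
  have hpq' : (p:ℝ) + 1 ≤ q := by exact_mod_cast hpq
  obtain ⟨Γ₀, hΓ₀, h0⟩ := exists_low T F hL hpart hric htube (η := ℓ / q) (by positivity)
  obtain ⟨Γ₁, hΓ₁, h1⟩ := exists_high T F hL hpart hric htube (η := ℓ / q) (by positivity)
  have hinv : ∀ Γ ∈ F, ∀ z ∈ Γ, ∀ i, T^[i] z ∈ Γ := by
    intro Γ hΓ z hz i
    obtain ⟨c, -, -, -, h4⟩ := hric Γ hΓ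
    rw [← image_iterate h4 i]
    exact ⟨z, hz, rfl⟩
  have hne : (Finset.range q).Nonempty := Finset.nonempty_range_iff.mpr hq.ne'
  have := exists_fixed_leaf (K := (p : ℤ)) hL (T := T^[q]) (D := dq T q) (hTc.iterate q)
    (hTi.iterate q) (fun a : Ioo (0:ℝ) ℓ => (a : ℝ)) continuous_subtype_val
    Subtype.val_injective (continuous_dq hTc q) (hT.iter_fst q) (hrec q hq.ne') F hpart
    (fun Γ hΓ => IsRIC.iterate (hric Γ hΓ) q) htube
    ⟨Γ₁, hΓ₁, fun z hz => by
      have h2 : ∑ i ∈ Finset.range q, (ℓ - ℓ / q) < dq T q z :=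
        Finset.sum_lt_sum_of_nonempty hne fun i _ => h1 _ (hinv Γ₁ hΓ₁ z hz i)
      rw [Finset.sum_const, Finset.card_range, nsmul_eq_mul] at h2
      have h3 : (q:ℝ) * (ℓ - ℓ / q) = q * ℓ - ℓ := by field_simp
      rw [h3] at h2
      push_cast
      nlinarith⟩
    ⟨Γ₀, hΓ₀, fun z hz => by
      have h2 : dq T q z < ∑ i ∈ Finset.range q, (ℓ / q) :=
        Finset.sum_lt_sum_of_nonempty hne fun i _ => h0 _ (hinv Γ₀ hΓ₀ z hz i)
      rw [Finset.sum_const, Finset.card_range, nsmul_eq_mul] at h2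
      have h3 : (q:ℝ) * (ℓ / q) = ℓ := by field_simp
      rw [h3] at h2
      have h4 : (1:ℝ) ≤ p := by exact_mod_cast hp
      push_cast
      nlinarith⟩
  obtain ⟨Γ, hΓ, h⟩ := this
  exact ⟨Γ, hΓ, fun z hz => ⟨(h z hz).1, by have := (h z hz).2; exact_mod_cast this⟩⟩

/-- the orbit relation in a tube -/
lemma IsGen.prev {x₁ x₂ y₁ y₂ : ℝ} (hG : IsGen ℓ S P M) {x : ℝ}
    (h1 : x₁ < x) (h1' : x < x₁ + ℓ) (h2 : x₂ < x) (h2' : x < x₂ + ℓ)
    (k1 : x < y₁) (k1' : y₁ < x + ℓ) (k2 : x < y₂) (k2' : y₂ < x + ℓ)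
    (e1 : M x y₁ = P x₁ x) (e2 : M x y₂ = P x₂ x) (hx : x₁ ≤ x₂) (hy : y₁ ≤ y₂) : y₁ = y₂ := by
  by_contra hne
  have hlt : y₁ < y₂ := lt_of_le_of_ne hy hne
  have h3 := hG.antiM x y₁ y₂ k1 hlt k2'
  rw [e1, e2] at h3
  rcases hx.eq_or_lt with h | h
  · rw [h] at h3; exact lt_irrefl _ h3
  · have := hG.monoP x₁ x₂ x h h2 h1'
    linarith

/-- a leaf of periodic points is an invariant graph -/
theorem graph_of_leaf (hG : IsGen ℓ S P M) {T : PC ℓ → PC ℓ} (hT : IsMap P M T)
    (hTc : Continuous T) (hTi : Function.Injective T)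
    (F : Set (Set (PC ℓ))) (hric : ∀ Γ ∈ F, IsRIC T Γ)
    (htube : ∀ Γ ∈ F, ∃ φ : AddCircle (1 : ℝ) × ℝ → PC ℓ, IsOpenEmbedding φ ∧
      (range fun u => φ (u, 0)) = Γ ∧ ∀ t, (range fun u => φ (u, t)) ∈ F)
    {p q : ℕ} (hq : 0 < q) {Γ : Set (PC ℓ)} (hΓ : Γ ∈ F)
    (hfix : ∀ z ∈ Γ, T^[q] z = z ∧ dq T q z = p * ℓ) :
    ∃ g : ℝ → ℝ, IsCirc ℓ P M g ∧ (∀ x, g^[q] x = x + p * ℓ) ∧
      ∀ (x : ℝ) (y : Ioo (0:ℝ) ℓ), ((x : AddCircle ℓ), y) ∈ Γ ↔ (y : ℝ) = g x - x := by
  have hL := hG.pos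
  have : ContractibleSpace (Ioo (0:ℝ) ℓ) :=
    (convex_Ioo _ _).contractibleSpace (nonempty_Ioo.mpr hL)
  obtain ⟨φ₀, hφ₀, hφ₀0, hφ₀F⟩ := htube Γ hΓ
  obtain ⟨φ, X₂, G₂, hTu, hrange⟩ := exists_tube hL T hTc hTi (fun a : Ioo (0:ℝ) ℓ => (a : ℝ))
    continuous_subtype_val Subtype.val_injective (fun z => (z.2 : ℝ)) (by fun_prop) hT.fst φ₀ hφ₀
    (fun t => hric _ (hφ₀F t)) 0
  have hΓr : (range fun u => φ (u, 0)) = Γ := by rw [hrange, hφ₀0]
  set X : ℝ → ℝ := fun u => X₂ (u, 0) with hX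
  set G : ℝ → ℝ := fun u => G₂ (u, 0) with hGdef
  set ψ : ℝ → PC ℓ := fun u => φ ((u : AddCircle (1:ℝ)), 0) with hψ
  have hXc : Continuous X := hTu.contXt 0
  have hGc : Continuous G := hTu.contGt 0
  have hGm : StrictMono G := hTu.mono 0
  have hXper : ∀ u, X (u + 1) = X u + ℓ := fun u => hTu.perX u 0
  have hGper : ∀ u, G (u + 1) = G u + 1 := fun u => hTu.perG u 0
  have hψX : ∀ u, ((X u : ℝ) : AddCircle ℓ) = (ψ u).1 := fun u => hTu.coeX u 0
  have hψG : ∀ u, ψ (G u) = T (ψ u) := fun u => hTu.semi u 0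
  have hXG : ∀ u, X (G u) = X u + (ψ u).2 := by
    intro u
    have := hTu.XG u 0
    simp only [Int.cast_zero, zero_mul, sub_zero] at this
    exact this
  have hψmem : ∀ u, ψ u ∈ Γ := fun u => by rw [← hΓr]; exact ⟨_, rfl⟩
  have hXn : ∀ (n : ℤ) u, X (u + n) = X u + n * ℓ := fun n u =>
    add_int_of_add_one X ℓ hXper n u
  have hGn : ∀ (n : ℤ) u, G (u + n) = G u + n := fun n u => by
    have := add_int_of_add_one G 1 hGper n u
    rwa [mul_one] at this
  have hGitn : ∀ (k : ℕ) (n : ℤ) u, G^[k] (u + n) = G^[k] u + n := by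
    intro k
    induction k with
    | zero => intro n u; rfl
    | succ k ih =>
      intro n u
      rw [Function.iterate_succ_apply', Function.iterate_succ_apply', ih, hGn]
  have hψint : ∀ u v : ℝ, ψ u = ψ v ↔ ∃ n : ℤ, v = u + n := by
    intro u v
    constructor
    · intro h
      have h1 := hTu.emb.injective h
      have h2 := congrArg Prod.fst h1
      simp only at h2
      rw [coe_eq_iff] at h2
      simpa using h2
    · rintro ⟨n, rfl⟩
      have : ((u : ℝ) : AddCircle (1:ℝ)) = ((u + n : ℝ) : AddCircle (1:ℝ)) := by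
        rw [coe_eq_iff]; exact ⟨n, by simp⟩
      simp only [hψ, this]
  have hψit : ∀ (n : ℕ) u, ψ (G^[n] u) = T^[n] (ψ u) := by
    intro n
    induction n with
    | zero => intro u; rfl
    | succ n ih =>
      intro u
      rw [Function.iterate_succ_apply', Function.iterate_succ_apply', hψG, ih]
  have hXit : ∀ (n : ℕ) u, X (G^[n] u) = X u + dq T n (ψ u) := by
    intro n
    induction n with
    | zero => intro u; simp [dq]
    | succ n ih =>
      intro u
      rw [Function.iterate_succ_apply', hXG, ih, hψit, dq, dq, Finset.sum_range_succ]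
      ring
  -- the relation of the orbit
  have hEL : ∀ u, M (X (G u)) (X (G (G u))) = P (X u) (X (G u)) := by
    intro u
    have h1 := (hT (X u) (ψ u).2).2
    have h2 : (((X u : ℝ) : AddCircle ℓ), (ψ u).2) = ψ u := Prod.ext (hψX u) rfl
    rw [h2, ← hψG] at h1
    rw [hXG (G u), hXG u]
    exact h1
  have hgt : ∀ u, X u < X (G u) := fun u => by
    rw [hXG]; linarith [(ψ u).2.2.1]
  have hlt : ∀ u, X (G u) < X u + ℓ := fun u => by
    rw [hXG]; linarith [(ψ u).2.2.2]
  -- the period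
  have hGq : ∀ u, G^[q] u = u + (p : ℤ) := by
    intro u
    have h1 : ψ u = ψ (G^[q] u) := by rw [hψit, (hfix _ (hψmem u)).1]
    rw [hψint] at h1
    obtain ⟨m, hm⟩ := h1
    have h2 := hXit q u
    rw [(hfix _ (hψmem u)).2, hm, hXn] at h2
    have h3 : (m : ℝ) * ℓ = p * ℓ := by linarith
    have h4 := mul_right_cancel₀ hL.ne' h3
    rw [hm, h4]
    simp
  -- monotonicity
  have hX1 : ∀ u v, u < v → v ≤ u + 1 → X u < X v := by
    intro u v₀ huv hv1
    by_contra hcon
    push Not at hcon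
    set d : ℕ → ℝ → ℝ := fun n v => X (G^[n] v) - X (G^[n] u) with hd
    have hdc : ∀ n, Continuous (d n) := by
      intro n
      have : Continuous G^[n] := hGc.iterate n
      simp only [hd]
      fun_prop
    have hdper : ∀ n v, d (n + q) v = d n v := by
      intro n v
      simp only [hd]
      rw [Function.iterate_add_apply, Function.iterate_add_apply, hGq, hGq, hGitn, hGitn, hXn, hXn]
      ring
    have hd1 : ∀ n, d n (u + 1) = ℓ := by
      intro n
      simp only [hd]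
      have h1 := hGitn n 1 u
      push_cast at h1
      rw [h1, hXper]
      ring
    set Bd : Set ℝ := ⋃ n ∈ Finset.range q, {v | v ∈ Icc v₀ (u + 1) ∧ d n v ≤ 0} with hBd
    have hBdc : IsCompact Bd := by
      apply Finset.isCompact_biUnion
      intro n _
      have : {v | v ∈ Icc v₀ (u + 1) ∧ d n v ≤ 0} = Icc v₀ (u + 1) ∩ {v | d n v ≤ 0} := rfl
      rw [this]
      exact isCompact_Icc.inter_right (isClosed_le (hdc n) continuous_const)
    have hBdn : Bd.Nonempty := by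
      refine ⟨v₀, ?_⟩
      simp only [hBd, mem_iUnion, Finset.mem_range]
      refine ⟨0, hq, ⟨le_rfl, hv1⟩, ?_⟩
      simp only [hd, Function.iterate_zero, id_eq]
      linarith
    obtain ⟨v, hv, hvmax⟩ := hBdc.exists_isGreatest hBdn
    simp only [hBd, mem_iUnion, Finset.mem_range] at hv
    obtain ⟨n, hn, hvI, hdn⟩ := hv
    have hvlt : v < u + 1 := by
      rcases hvI.2.eq_or_lt with h | h
      · rw [h, hd1] at hdn; linarith
      · exact h
    have huv' : u < v := huv.trans_le hvI.1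
    -- all differences are nonnegative
    have hnn : ∀ m, m < q → 0 ≤ d m v := by
      intro m hm
      by_contra hc
      push Not at hc
      have h1 : ∀ᶠ w in 𝓝 v, d m w < 0 := (hdc m).continuousAt.eventually (gt_mem_nhds hc)
      have h2 : ∀ᶠ w in 𝓝[>] v, d m w < 0 := h1.filter_mono nhdsWithin_le_nhds
      obtain ⟨w, hw1, hw2⟩ := (h2.and (Ioo_mem_nhdsGT hvlt)).exists
      have h3 : w ∈ Bd := by
        simp only [hBd, mem_iUnion, Finset.mem_range]
        exact ⟨m, hm, ⟨hvI.1.trans hw2.1.le, hw2.2.le⟩, hw1.le⟩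
      exact absurd (hvmax h3) (not_le.mpr hw2.1)
    have hnn' : ∀ m, 0 ≤ d m v := by
      intro m
      have h1 : ∀ k r, d (r + k * q) v = d r v := by
        intro k
        induction k with
        | zero => intro r; simp
        | succ k ih =>
          intro r
          rw [Nat.succ_mul, ← Nat.add_assoc, hdper, ih]
      rw [← Nat.mod_add_div m q, mul_comm, h1]
      exact hnn _ (Nat.mod_lt _ hq)
    -- the zero
    obtain ⟨N, hN⟩ : ∃ N, n + q = N + 1 := ⟨n + q - 1, by omega⟩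
    have hz : d (N + 1) v = 0 := by
      rw [← hN, hdper]
      exact le_antisymm hdn (hnn' n)
    have hm1 := hnn' N
    have hp1 := hnn' (N + 1 + 1)
    simp only [hd, Function.iterate_succ_apply'] at hz hm1 hp1
    set a := G^[N] u with ha
    set b := G^[N] v with hb
    have hxe : X (G b) = X (G a) := by linarith
    have h1 := hEL a
    have h2 := hEL b
    rw [hxe] at h2
    have h3 := hgt (G a)
    have h4 := hlt (G a)
    have h5 := hgt (G b)
    have h6 := hlt (G b)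
    have h7 := hgt a
    have h8 := hlt a
    have h9 := hgt b
    have h10 := hlt b
    rw [hxe] at h5 h6 h9 h10
    have h11 := hG.prev h7 h8 h9 h10 h3 h4 h5 h6 h1 h2 (by linarith) (by linarith)
    have h12 : ψ (G a) = ψ (G b) := by
      apply Prod.ext
      · rw [← hψX, ← hψX, hxe]
      · apply Subtype.ext
        have e1 := hXG (G a)
        have e2 := hXG (G b)
        rw [hxe] at e2
        linarith
    rw [hψint] at h12
    obtain ⟨m, hm⟩ := h12
    have h13 : G^[N + 1] u < G^[N + 1] v := hGm.iterate (N + 1) huv'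
    have h14 : G^[N + 1] v < G^[N + 1] (u + (1:ℤ)) := hGm.iterate (N + 1) (by push_cast; exact hvlt)
    rw [hGitn] at h14
    simp only [Function.iterate_succ_apply'] at h13 h14
    rw [← ha, ← hb, hm] at h13 h14
    have h15 : (0:ℝ) < m := by linarith
    have h16 : (m:ℝ) < (1:ℤ) := by linarith
    have h17 : 0 < m := by exact_mod_cast h15
    have h18 : m < 1 := by exact_mod_cast h16
    omega
  have hXm : StrictMono X := by
    intro u v huv
    obtain ⟨n, hn⟩ : ∃ n : ℕ, v ≤ u + n := by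
      obtain ⟨n, hn⟩ := exists_nat_ge (v - u)
      exact ⟨n, by linarith⟩
    have : ∀ n : ℕ, ∀ u v : ℝ, u < v → v ≤ u + n → X u < X v := by
      intro n
      induction n with
      | zero => intro u v h1 h2; exfalso; simp at h2; linarith
      | succ n ih =>
        intro u v h1 h2
        rcases le_or_gt v (u + 1) with h | h
        · exact hX1 u v h1 h
        · have h3 := hX1 u (u + 1) (by linarith) le_rfl
          exact h3.trans (ih (u + 1) v h (by push_cast at h2; linarith))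
    exact this n u v huv hn
  have hXs : Function.Surjective X := by
    intro y
    have h1 : ∃ u, X u ≤ y := by
      obtain ⟨n, hn⟩ := exists_nat_gt ((X 0 - y) / ℓ)
      rw [div_lt_iff₀ hL] at hn
      refine ⟨0 + (-(n:ℤ) : ℤ), ?_⟩
      rw [hXn]
      push_cast
      linarith
    have h2 : ∃ u, y ≤ X u := by
      obtain ⟨n, hn⟩ := exists_nat_gt ((y - X 0) / ℓ)
      rw [div_lt_iff₀ hL] at hn
      refine ⟨0 + (n:ℤ), ?_⟩
      rw [hXn]
      push_cast
      linarith
    exact mem_range_of_exists_le_of_exists_ge hXc h1 h2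
  set E := hXm.orderIsoOfSurjective X hXs with hE
  have hEX : ∀ u, E.symm (X u) = u := fun u => E.symm_apply_apply u
  have hXE : ∀ x, X (E.symm x) = x := fun x => E.apply_symm_apply x
  refine ⟨fun x => X (G (E.symm x)), ⟨?_, ?_, ?_, ?_, ?_, ?_⟩, ?_, ?_⟩
  · exact hXc.comp (hGc.comp E.symm.continuous)
  · exact hXm.comp (hGm.comp E.symm.strictMono)
  · intro x
    have h1 : E.symm (x + ℓ) = E.symm x + 1 := by
      apply hXm.injective
      rw [hXE, hXper, hXE]
    simp only [h1, hGper, hXper]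
  · intro x
    have := hgt (E.symm x)
    rw [hXE] at this
    exact this
  · intro x
    have := hlt (E.symm x)
    rw [hXE] at this
    exact this
  · intro x
    simp only [hEX]
    have := hEL (E.symm x)
    rw [hXE] at this
    exact this
  · intro x
    have h1 : ∀ n, (fun x => X (G (E.symm x)))^[n] x = X (G^[n] (E.symm x)) := by
      intro n
      induction n with
      | zero => simp [hXE]
      | succ n ih =>
        rw [Function.iterate_succ_apply', ih, Function.iterate_succ_apply']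
        simp only [hEX]
    rw [h1, hGq, hXn, hXE]
    simp
  · intro x y
    have h2 : (((X (E.symm x) : ℝ) : AddCircle ℓ), (ψ (E.symm x)).2) = ψ (E.symm x) :=
      Prod.ext (hψX _) rfl
    rw [hXE] at h2
    have h3 := hXG (E.symm x)
    rw [hXE] at h3
    constructor
    · intro hmem
      rw [← hΓr] at hmem
      obtain ⟨u₀, hu₀⟩ := hmem
      obtain ⟨u, rfl⟩ := coe_surj u₀
      have h4 : ψ u = ((x : AddCircle ℓ), y) := hu₀
      have h5 := hψX u
      rw [h4] at h5
      simp only at h5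
      rw [coe_eq_iff] at h5
      obtain ⟨n, hn⟩ := h5
      have h6 : X (u + n) = x := by rw [hXn, hn]
      have h7 : E.symm x = u + n := by
        apply hXm.injective; rw [hXE, h6]
      have h8 : ψ (E.symm x) = ((x : AddCircle ℓ), y) := by
        rw [h7, ← h4, eq_comm, hψint]
        exact ⟨n, rfl⟩
      rw [h8] at h3
      simp only at h3 ⊢
      linarith
    · intro hy
      have h4 : y = (ψ (E.symm x)).2 := by
        apply Subtype.ext
        simp only at hy
        rw [hy, h3]; ring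
      rw [h4, h2]
      exact hψmem _

end Pool.Agent.W714.Mink
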