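import Pool.Agent.W714.Mink.Msr

set_option autoImplicit false
set_option linter.unusedSectionVars false

/-!
# The integrated shift inequality
-/

namespace Pool.Agent.W714.Mink

open Complex Set Topology Filter MeasureTheory
open Pool.Agent.W714.Coin (arg_mem_Ioo_of_im_pos mem_slitPlane_of_im_pos hasDerivAt_arg div_im_eq
  continuous_coe coe_surjL nu lintegral_nu lintegral_lintegral_trans)

variable {γ : ℝ → ℂ} {L : ℝ} {g : ℂ → ℝ} {G : ℂ → ℂ} {R : ℝ → ℝ}

/-- the gradient as a function of the angle -/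
noncomputable def pp (G : ℂ → ℂ) (θ : ℝ) : ℂ := G (exp (θ * I))

/-- the derivative of the gradient as a function of the angle -/
noncomputable def pq (R : ℝ → ℝ) (θ : ℝ) : ℂ := R θ * (I * exp (θ * I))

lemma hasDerivAt_pp (hN : Nrm g G R) (θ : ℝ) : HasDerivAt (pp G) (pq R θ) θ := hN.dG θ

lemma continuous_pp (hN : Nrm g G R) : Continuous (pp G) :=
  continuous_iff_continuousAt.mpr fun θ => (hasDerivAt_pp hN θ).continuousAt

lemma continuous_pq (hN : Nrm g G R) : Continuous (pq R) := by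
  have := hN.contR
  unfold pq
  fun_prop

lemma exp_periodic' (θ : ℝ) : exp (((θ + 2 * Real.pi : ℝ) : ℂ) * I) = exp (θ * I) := by
  have : ((θ + 2 * Real.pi : ℝ) : ℂ) * I = θ * I + 2 * Real.pi * I := by push_cast; ring
  rw [this, exp_periodic]

lemma periodic_pp : Function.Periodic (pp G) (2 * Real.pi) := by
  intro θ
  simp only [pp, exp_periodic']

lemma periodic_pq (hN : Nrm g G R) : Function.Periodic (pq R) (2 * Real.pi) := by
  intro θ
  simp only [pq, exp_periodic', (R_periodic hN) θ]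

/-- the function whose differences we integrate -/
noncomputable def Ph (G : ℂ → ℂ) (h : RCurve γ L) (β : AddCircle L → ℂ) (δ : ℝ)
    (w : AddCircle L) (v : ℂ) : ℝ :=
  ip (G (exp (δ * I) * v)) (β w) - ip (G v) (gb h w)

lemma Ph_scale (hN : Nrm g G R) (h : RCurve γ L) (β : AddCircle L → ℂ) (δ : ℝ)
    (w : AddCircle L) {r : ℝ} (hr : 0 < r) (v : ℂ) :
    Ph G h β δ w (r * v) = Ph G h β δ w v := by
  rw [Ph, Ph, hN.scale r hr]
  congr 2
  rw [← hN.scale r hr (exp (δ * I) * v)]
  congr 1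
  ring

lemma Ph_vv_A (hN : Nrm g G R) (h : RCurve γ L) (β : AddCircle L → ℂ) (δ : ℝ) (w : AddCircle L)
    {x : ℝ} (hx : x ∈ Ioo 0 L) :
    Ph G h β δ w (vv h w x) = Ph G h β δ w (exp (angA h w x * I) * gd h w) := by
  have h1 := Ph_scale hN h β δ w
    (div_pos (norm_pos_iff.mpr (vv_ne h w hx)) (norm_pos_iff.mpr (gd_ne h w)))
    (exp (angA h w x * I) * gd h w)
  rwa [← vv_A] at h1

lemma Ph_vv_B (hN : Nrm g G R) (h : RCurve γ L) (β : AddCircle L → ℂ) (δ : ℝ) (w w' : AddCircle L)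
    {x : ℝ} (hx : x ∈ Ioo 0 L) :
    Ph G h β δ w' (vv h w x)
      = Ph G h β δ w' (exp (((-angB h w x : ℝ) : ℂ) * I) * gd h (w + (x : AddCircle L))) := by
  have h1 := Ph_scale hN h β δ w'
    (div_pos (norm_pos_iff.mpr (vv_ne h w hx))
      (norm_pos_iff.mpr (gd_ne h (w + (x : AddCircle L)))))
    (exp (((-angB h w x : ℝ) : ℂ) * I) * gd h (w + (x : AddCircle L)))
  rwa [← vv_B] at h1

/-- the integrand on the circle of directions -/
noncomputable def Ps (G : ℂ → ℂ) (R : ℝ → ℝ) (h : RCurve γ L) (β : AddCircle L → ℂ) (δ : ℝ)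
    (w : AddCircle L) (θ : ℝ) : ℝ :=
  (ip (pp G (θ + δ)) (β w) - ip (pp G θ) (gb h w)) * ip (pq R θ) (gd h w)

lemma continuous_Ps (hN : Nrm g G R) (h : RCurve γ L) (β : AddCircle L → ℂ) (δ : ℝ)
    (w : AddCircle L) : Continuous (Ps G R h β δ w) := by
  have h1 := continuous_pp hN
  have h2 := continuous_pq hN
  unfold Ps
  exact ((Continuous.ip' (by fun_prop) (by fun_prop)).sub
    (Continuous.ip' (by fun_prop) (by fun_prop))).mul (Continuous.ip' (by fun_prop) (by fun_prop))

lemma periodic_Ps (hN : Nrm g G R) (h : RCurve γ L) (β : AddCircle L → ℂ) (δ : ℝ)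
    (w : AddCircle L) : Function.Periodic (Ps G R h β δ w) (2 * Real.pi) := by
  intro θ
  have e : θ + 2 * Real.pi + δ = θ + δ + 2 * Real.pi := by ring
  simp only [Ps, e, periodic_pp _, periodic_pq hN _]

lemma Ps_eq (hN : Nrm g G R) (h : RCurve γ L) (β : AddCircle L → ℂ) (δ : ℝ)
    (w : AddCircle L) (τ : ℝ) :
    Ps G R h β δ w (τ + arg (gd h w))
      = Ph G h β δ w (exp (τ * I) * gd h w) * -(R (τ + arg (gd h w)) * ‖gd h w‖ * Real.sin τ) := by
  rw [Ps, pq, Nrm.ip_rot (R (τ + arg (gd h w))) (arg (gd h w)) τ (gd h w) rfl, Ph, pp, pp]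
  congr 2
  · rw [show τ + arg (gd h w) + δ = (τ + δ) + arg (gd h w) by ring, ← hN.G_rot (gd_ne h w)]
    congr 2
    rw [← mul_assoc, ← exp_add]
    congr 2
    push_cast
    ring
  · rw [← hN.G_rot (gd_ne h w)]

lemma inner_A (hN : Nrm g G R) (h : RCurve γ L) (β : AddCircle L → ℂ) (δ : ℝ) (s : ℝ) :
    ∫ x, dens R h (s : AddCircle L) x * Ph G h β δ (s : AddCircle L) (vv h (s : AddCircle L) x) ∂(nu L)
      = -∫ τ in (0:ℝ)..Real.pi, Ps G R h β δ (s : AddCircle L) (τ + arg (gd h (s : AddCircle L))) := by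
  set w : AddCircle L := (s : AddCircle L) with hw
  have h0 : ∫ x, dens R h w x * Ph G h β δ w (vv h w x) ∂(nu L)
      = ∫ x in Ioo 0 L, dens R h w x * Ph G h β δ w (vv h w x) :=
    integral_subtype_comap measurableSet_Ioo (fun x : ℝ => dens R h w x * Ph G h β δ w (vv h w x))
  have himg : (fun x : ℝ => angA h w x) '' Ioo 0 L = Ioo 0 Real.pi := by
    ext α
    constructor
    · rintro ⟨x, hx, rfl⟩
      exact angA_mem h w hx
    · intro hα
      obtain ⟨x, hx, hxα⟩ := exists_angA_eq h w hα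
      exact ⟨x, hx, hxα⟩
  have h1 := integral_image_eq_integral_abs_deriv_smul (s := Ioo 0 L)
    (f := fun x : ℝ => angA h w x) measurableSet_Ioo
    (fun x hx => (hasDerivAt_angA h s hx).hasDerivWithinAt) (strictMonoOn_angA h w).injOn
    (fun τ => Ps G R h β δ w (τ + arg (gd h w)))
  rw [himg] at h1
  rw [h0, intervalIntegral.integral_of_le Real.pi_pos.le, integral_Ioc_eq_integral_Ioo, h1,
    ← integral_neg]
  apply setIntegral_congr_fun measurableSet_Ioo
  intro x hx
  simp only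
  have hv := norm_pos_iff.mpr (vv_ne h w hx)
  have hZB := ZB_im_pos h w hx
  have hnn : 0 ≤ (ZB h (s : AddCircle L) x).im / ‖γ (s + x) - γ s‖ ^ 2 := by
    rw [← hw]; positivity
  rw [Ps_eq hN, Ph_vv_A hN h β δ w hx, abs_of_nonneg hnn, smul_eq_mul, dens,
    ← R_arg_smul hN (gd_ne h w) (div_pos hv (norm_pos_iff.mpr (gd_ne h w))) (vv_A h w x)]
  have h4 := sin_angA h w x
  have h5 : ‖γ (s + x) - γ s‖ = ‖vv h w x‖ := by rw [hw, vv_coe]
  rw [← hw, h5]
  have h6 : R (angA h w x + arg (gd h w)) * ‖gd h w‖ * Real.sin (angA h w x)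
      = R (angA h w x + arg (gd h w)) * ((ZA h w x).im / ‖vv h w x‖) := by
    rw [← h4]; ring
  rw [h6]
  field_simp

lemma inner_B (hN : Nrm g G R) (h : RCurve γ L) (β : AddCircle L → ℂ) (δ : ℝ) (s : ℝ) :
    ∫ x, dens R h ((s : AddCircle L) - ((x : ℝ) : AddCircle L)) x *
      Ph G h β δ (s : AddCircle L) (vv h ((s : AddCircle L) - ((x : ℝ) : AddCircle L)) x) ∂(nu L)
      = ∫ τ in (-Real.pi)..0, Ps G R h β δ (s : AddCircle L) (τ + arg (gd h (s : AddCircle L))) := by
  set w : AddCircle L := (s : AddCircle L) with hw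
  have hcoe : ∀ y : ℝ, ((s - y : ℝ) : AddCircle L) + (y : AddCircle L) = w := by
    intro y
    rw [← AddCircle.coe_add, sub_add_cancel]
  have h0 : ∫ x, dens R h (w - ((x : ℝ) : AddCircle L)) x *
      Ph G h β δ w (vv h (w - ((x : ℝ) : AddCircle L)) x) ∂(nu L)
      = ∫ x in Ioo 0 L, dens R h ((s - x : ℝ) : AddCircle L) x *
        Ph G h β δ w (vv h ((s - x : ℝ) : AddCircle L) x) := by
    rw [← integral_subtype_comap measurableSet_Ioo (fun x : ℝ =>
      dens R h ((s - x : ℝ) : AddCircle L) x * Ph G h β δ w (vv h ((s - x : ℝ) : AddCircle L) x))]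
    rfl
  have himg : (fun x : ℝ => angB h ((s - x : ℝ) : AddCircle L) x) '' Ioo 0 L = Ioo 0 Real.pi := by
    ext α
    constructor
    · rintro ⟨x, hx, rfl⟩
      exact angB_mem h _ hx
    · intro hα
      obtain ⟨x, hx, hxα⟩ := exists_angB_eq h w hα
      refine ⟨x, hx, ?_⟩
      simp only [AddCircle.coe_sub]
      exact hxα
  have hinj : InjOn (fun x : ℝ => angB h ((s - x : ℝ) : AddCircle L) x) (Ioo 0 L) := by
    have := (strictMonoOn_angB h w).injOn
    intro a ha b hb hab
    simp only [AddCircle.coe_sub] at hab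
    exact this ha hb hab
  have h1 := integral_image_eq_integral_abs_deriv_smul (s := Ioo 0 L)
    (f := fun x : ℝ => angB h ((s - x : ℝ) : AddCircle L) x) measurableSet_Ioo
    (fun x hx => (hasDerivAt_angB h s hx).hasDerivWithinAt) hinj
    (fun τ => Ps G R h β δ w (-τ + arg (gd h w)))
  rw [himg] at h1
  have h2 : ∫ τ in (-Real.pi)..0, Ps G R h β δ w (τ + arg (gd h w))
      = ∫ τ in (0:ℝ)..Real.pi, Ps G R h β δ w (-τ + arg (gd h w)) := by
    rw [intervalIntegral.integral_comp_neg (fun τ => Ps G R h β δ w (τ + arg (gd h w))), neg_zero]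
  rw [h0, h2, intervalIntegral.integral_of_le Real.pi_pos.le, integral_Ioc_eq_integral_Ioo, h1]
  apply setIntegral_congr_fun measurableSet_Ioo
  intro x hx
  simp only
  set w' : AddCircle L := ((s - x : ℝ) : AddCircle L) with hw'
  have hv := norm_pos_iff.mpr (vv_ne h w' hx)
  have hZA := ZA_im_pos h w' hx
  have h5 : ‖γ s - γ (s - x)‖ = ‖vv h w' x‖ := by rw [hw', vv_coe, sub_add_cancel]
  have hnn : 0 ≤ (ZA h w' x).im / ‖γ s - γ (s - x)‖ ^ 2 := by
    rw [h5]; positivity
  have hcw : w' + (x : AddCircle L) = w := hcoe x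
  have hPs := Ps_eq hN h β δ w (-angB h w' x)
  have hPh := Ph_vv_B hN h β δ w' w hx
  have hB := vv_B h w' x
  have h4 := sin_angB h w' x
  rw [hcw] at hPh hB h4
  rw [hPs, hPh, abs_of_nonneg hnn, smul_eq_mul, dens, h5,
    ← R_arg_smul hN (gd_ne h w) (div_pos hv (norm_pos_iff.mpr (gd_ne h w))) hB, Real.sin_neg]
  have h6 : R (-angB h w' x + arg (gd h w)) * ‖gd h w‖ * Real.sin (angB h w' x)
      = R (-angB h w' x + arg (gd h w)) * ((ZB h w' x).im / ‖vv h w' x‖) := by
    rw [← h4]; ring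
  have h7 : -(R (-angB h w' x + arg (gd h w)) * ‖gd h w‖ * -Real.sin (angB h w' x))
      = R (-angB h w' x + arg (gd h w)) * ((ZB h w' x).im / ‖vv h w' x‖) := by rw [← h6]; ring
  rw [h7]
  field_simp

lemma inner_diff (hN : Nrm g G R) (h : RCurve γ L) (β : AddCircle L → ℂ) (δ : ℝ) (w : AddCircle L) :
    ∫ x, dens R h (w - ((x : ℝ) : AddCircle L)) x *
      Ph G h β δ w (vv h (w - ((x : ℝ) : AddCircle L)) x) ∂(nu L)
      - ∫ x, dens R h w x * Ph G h β δ w (vv h w x) ∂(nu L)
      = ∫ θ in (-Real.pi)..Real.pi, Ps G R h β δ w θ := by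
  obtain ⟨s, rfl⟩ := coe_surjL w
  rw [inner_A hN h β δ s, inner_B hN h β δ s, sub_neg_eq_add]
  set w : AddCircle L := (s : AddCircle L) with hw
  have hc := continuous_Ps hN h β δ w
  have hc' : Continuous fun τ => Ps G R h β δ w (τ + arg (gd h w)) := by fun_prop
  rw [intervalIntegral.integral_add_adjacent_intervals (hc'.intervalIntegrable _ _)
    (hc'.intervalIntegrable _ _), intervalIntegral.integral_comp_add_right
    (fun τ => Ps G R h β δ w τ)]
  have h1 := (periodic_Ps hN h β δ w).intervalIntegral_add_eq (-Real.pi + arg (gd h w)) (-Real.pi)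
  have e1 : -Real.pi + arg (gd h w) + 2 * Real.pi = Real.pi + arg (gd h w) := by ring
  have e2 : -Real.pi + 2 * Real.pi = Real.pi := by ring
  rw [e1, e2] at h1
  exact h1

variable [hLf : Fact (0 < L)]

/-- the shear -/
noncomputable def shear (L : ℝ) : PC L ≃ₜ PC L where
  toFun z := (z.1 - ((z.2 : ℝ) : AddCircle L), z.2)
  invFun z := (z.1 + ((z.2 : ℝ) : AddCircle L), z.2)
  left_inv z := by simp
  right_inv z := by simp
  continuous_toFun := by
    have hcoe : Continuous ((↑) : ℝ → AddCircle L) := continuous_coe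
    fun_prop
  continuous_invFun := by
    have hcoe : Continuous ((↑) : ℝ → AddCircle L) := continuous_coe
    fun_prop

lemma measurePreserving_shear : MeasurePreserving (shear L) (pr0 L) (pr0 L) := by
  have hm : Measurable (shear L) := (shear L).continuous.measurable
  refine ⟨hm, ?_⟩
  ext E hE
  rw [Measure.map_apply hm hE, ← lintegral_indicator_one (hm hE), ← lintegral_indicator_one hE]
  have hI : Measurable (E.indicator (1 : PC L → ENNReal)) := measurable_one.indicator hE
  have e : (shear L ⁻¹' E).indicator (1 : PC L → ENNReal) = E.indicator 1 ∘ shear L := by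
    funext z; rfl
  rw [e, pr0, lintegral_prod _ (hI.comp hm).aemeasurable, lintegral_prod _ hI.aemeasurable]
  have := lintegral_lintegral_trans (nu L) (fun x => -((x : ℝ) : AddCircle L))
    (fun w x => E.indicator (1 : PC L → ENNReal) (w, x)) hI
    (by
      have h5 := hI.comp hm
      convert h5 using 1
      funext ⟨w, x⟩
      simp only [Function.uncurry, Function.comp, shear, sub_eq_add_neg]
      rfl)
  rw [← this]
  apply lintegral_congr
  intro w
  apply lintegral_congr
  intro x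
  simp only [Function.comp, shear, sub_eq_add_neg]
  rfl

lemma continuous_Gvv (hN : Nrm g G R) (h : RCurve γ L) {c : ℂ} (hc : c ≠ 0) :
    Continuous fun z : PC L => G (c * vv h z.1 z.2) := by
  rw [continuous_iff_continuousAt]
  intro z
  have h1 : Continuous fun z : PC L => c * vv h z.1 z.2 := by
    have := continuous_vv h
    exact continuous_const.mul
      (this.comp (show Continuous fun z : PC L => (z.1, (z.2 : ℝ)) by fun_prop))
  exact ContinuousAt.comp (f := fun z : PC L => c * vv h z.1 z.2) (x := z)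
    (hN.cont _ (mul_ne_zero hc (vv_ne h z.1 z.2.2))) h1.continuousAt

/-- **The integrated shift inequality.** -/
theorem J_nonpos (hN : Nrm g G R) (h : RCurve γ L) {β : AddCircle L → ℂ} (hβ : Continuous β)
    (δ : ℝ) {C : ℝ}
    (hC : ∀ (z : PC L) (N : ℕ), ∑ i ∈ Finset.range N,
      (fun z : PC L => g (β (z.1 + ((z.2 : ℝ) : AddCircle L)) - β z.1) - g (vv h z.1 z.2))
        ((tm hN h)^[i] z) ≤ C) :
    ∫ w : AddCircle L, ∫ θ in (-Real.pi)..Real.pi, Ps G R h β δ w θ ≤ 0 := by
  have hfin := isFiniteMeasure_mum hN h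
  have hcoe : Continuous ((↑) : ℝ → AddCircle L) := continuous_coe
  have hgb := continuous_gb h
  have hvv : Continuous fun z : PC L => vv h z.1 z.2 :=
    (continuous_vv h).comp (show Continuous fun z : PC L => (z.1, (z.2 : ℝ)) by fun_prop)
  obtain ⟨B, hB0, hB⟩ := hN.exists_G_bound
  obtain ⟨Cβ, hCβ⟩ : ∃ Cβ, ∀ w, ‖β w‖ ≤ Cβ := by
    obtain ⟨Cβ, h1⟩ := isCompact_univ.exists_bound_of_continuousOn (s := (univ : Set (AddCircle L)))
      hβ.continuousOn
    exact ⟨Cβ, fun w => h1 w trivial⟩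
  obtain ⟨Cγ, hCγ⟩ : ∃ Cγ, ∀ w, ‖gb h w‖ ≤ Cγ := by
    obtain ⟨Cγ, h1⟩ := isCompact_univ.exists_bound_of_continuousOn (s := (univ : Set (AddCircle L)))
      hgb.continuousOn
    exact ⟨Cγ, fun w => h1 w trivial⟩
  -- the functions
  set Δ : PC L → ℝ := fun z =>
    g (β (z.1 + ((z.2 : ℝ) : AddCircle L)) - β z.1) - g (vv h z.1 z.2) with hΔ
  set F1 : PC L → ℝ := fun z => Ph G h β δ (z.1 + ((z.2 : ℝ) : AddCircle L)) (vv h z.1 z.2) with hF1
  set F2 : PC L → ℝ := fun z => Ph G h β δ z.1 (vv h z.1 z.2) with hF2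
  have hE : exp (δ * I) ≠ 0 := exp_ne_zero _
  have c1 := continuous_Gvv hN h hE
  have c2 := continuous_Gvv hN h one_ne_zero
  simp only [one_mul] at c2
  have hF1c : Continuous F1 := by
    simp only [hF1, Ph]
    exact (Continuous.ip' c1 (by fun_prop)).sub (Continuous.ip' c2 (by fun_prop))
  have hF2c : Continuous F2 := by
    simp only [hF2, Ph]
    exact (Continuous.ip' c1 (by fun_prop)).sub (Continuous.ip' c2 (by fun_prop))
  have hgc := hN.continuous_g
  have hΔc : Continuous Δ := by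
    simp only [hΔ]
    exact (hgc.comp (by fun_prop)).sub (hgc.comp hvv)
  have hPhb : ∀ w v, v ≠ 0 → |Ph G h β δ w v| ≤ B * Cβ + B * Cγ := by
    intro w v hv
    rw [Ph]
    have a1 : |ip (G (exp (δ * I) * v)) (β w)| ≤ B * Cβ :=
      (abs_ip_le _ _).trans (mul_le_mul (hB _ (mul_ne_zero hE hv)) (hCβ w) (norm_nonneg _) hB0.le)
    have a2 : |ip (G v) (gb h w)| ≤ B * Cγ :=
      (abs_ip_le _ _).trans (mul_le_mul (hB _ hv) (hCγ w) (norm_nonneg _) hB0.le)
    have := abs_sub (ip (G (exp (δ * I) * v)) (β w)) (ip (G v) (gb h w))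
    linarith
  have hF1i : Integrable F1 (mum R h) := by
    apply Integrable.of_bound hF1c.aestronglyMeasurable (B * Cβ + B * Cγ)
    filter_upwards with z
    exact hPhb _ _ (vv_ne h z.1 z.2.2)
  have hF2i : Integrable F2 (mum R h) := by
    apply Integrable.of_bound hF2c.aestronglyMeasurable (B * Cβ + B * Cγ)
    filter_upwards with z
    exact hPhb _ _ (vv_ne h z.1 z.2.2)
  have hΔi : Integrable Δ (mum R h) := by
    apply Integrable.of_bound hΔc.aestronglyMeasurable (B * (Cβ + Cβ) + B * (Cγ + Cγ))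
    filter_upwards with z
    simp only [hΔ]
    have a1 := hN.abs_g_le hB (β (z.1 + ((z.2 : ℝ) : AddCircle L)) - β z.1)
    have a2 := hN.abs_g_le hB (vv h z.1 z.2)
    have a3 : ‖β (z.1 + ((z.2 : ℝ) : AddCircle L)) - β z.1‖ ≤ Cβ + Cβ :=
      (norm_sub_le _ _).trans (add_le_add (hCβ _) (hCβ _))
    have a4 : ‖vv h z.1 z.2‖ ≤ Cγ + Cγ :=
      (norm_sub_le _ _).trans (add_le_add (hCγ _) (hCγ _))
    have a5 := mul_le_mul_of_nonneg_left a3 hB0.le
    have a6 := mul_le_mul_of_nonneg_left a4 hB0.le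
    rw [Real.norm_eq_abs]
    have := abs_sub (g (β (z.1 + ((z.2 : ℝ) : AddCircle L)) - β z.1)) (g (vv h z.1 z.2))
    linarith
  have h1 : ∫ z, Δ z ∂(mum R h) ≤ 0 :=
    integral_nonpos_of_sum_le (mum R h) (measurePreserving_tm hN h) hΔi hC
  have hle : ∀ z, F1 z - F2 z ≤ Δ z := by
    intro z
    have hv := vv_ne h z.1 z.2.2
    simp only [hF1, hF2, hΔ, Ph]
    have a1 := hN.supp (exp (δ * I) * vv h z.1 z.2)
      (β (z.1 + ((z.2 : ℝ) : AddCircle L)) - β z.1) (mul_ne_zero hE hv)
    have a2 := hN.euler (vv h z.1 z.2) hv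
    rw [ip_sub] at a1
    have a3 : ip (G (vv h z.1 z.2)) (vv h z.1 z.2)
        = ip (G (vv h z.1 z.2)) (gb h (z.1 + ((z.2 : ℝ) : AddCircle L)))
          - ip (G (vv h z.1 z.2)) (gb h z.1) := by
      rw [← ip_sub]; rfl
    linarith
  have h2 : ∫ z, (F1 z - F2 z) ∂(mum R h) ≤ 0 :=
    (integral_mono (hF1i.sub hF2i) hΔi hle).trans h1
  rw [integral_sub hF1i hF2i] at h2
  -- pass to the product measure
  have hmd := measurable_densP hN h
  have htop : ∀ᵐ z ∂(pr0 L), ENNReal.ofReal (dens R h z.1 z.2) < ⊤ :=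
    Eventually.of_forall fun z => ENNReal.ofReal_lt_top
  have htr : ∀ z : PC L, (ENNReal.ofReal (dens R h z.1 z.2)).toReal = dens R h z.1 z.2 :=
    fun z => ENNReal.toReal_ofReal (dens_nonneg hN h z.1 z.2.2)
  have hconv : ∀ F : PC L → ℝ, ∫ z, F z ∂(mum R h) = ∫ z, dens R h z.1 z.2 * F z ∂(pr0 L) := by
    intro F
    rw [mum, integral_withDensity_eq_integral_toReal_smul hmd htop]
    simp only [htr, smul_eq_mul]
  have hconvi : ∀ F : PC L → ℝ, Integrable F (mum R h) →
      Integrable (fun z => dens R h z.1 z.2 * F z) (pr0 L) := by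
    intro F hF
    rw [mum, integrable_withDensity_iff_integrable_smul' hmd htop] at hF
    simpa only [htr, smul_eq_mul] using hF
  have i1 := hconvi F1 hF1i
  have i2 := hconvi F2 hF2i
  rw [hconv, hconv] at h2
  have hsh := measurePreserving_shear (L := L)
  have h3 := hsh.integral_comp (shear L).measurableEmbedding (fun z => dens R h z.1 z.2 * F1 z)
  have i1' : Integrable (fun z => dens R h (shear L z).1 (shear L z).2 * F1 (shear L z)) (pr0 L) :=
    hsh.integrable_comp_of_integrable i1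
  rw [← h3] at h2
  rw [pr0] at h2 i1' i2
  rw [integral_prod _ i1', integral_prod _ i2, ← integral_sub i1'.integral_prod_left
    i2.integral_prod_left] at h2
  refine le_trans (le_of_eq ?_) h2
  apply integral_congr_ae
  filter_upwards with w
  rw [← inner_diff hN h β δ w]
  congr 1
  apply integral_congr_ae
  filter_upwards with x
  have e1 : shear L (w, x) = (w - ((x : ℝ) : AddCircle L), x) := rfl
  simp only [hF1, e1, sub_add_cancel]

end Pool.Agent.W714.Mink
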