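import Pool.Agent.W714.Mink.Jint

set_option autoImplicit false
set_option linter.unusedSectionVars false

/-!
# The integrated shift inequality in terms of correlation integrals
-/

namespace Pool.Agent.W714.Mink

open Complex Set Topology Filter MeasureTheory
open Pool.Agent.W714.Coin (continuous_coe coe_surjL)
open scoped ComplexConjugate

variable {γ : ℝ → ℂ} {L : ℝ} {g : ℂ → ℝ} {G : ℂ → ℂ} {R : ℝ → ℝ}

/-- correlation of the gradient with its derivative -/
noncomputable def D1 (G : ℂ → ℂ) (R : ℝ → ℝ) (δ : ℝ) : ℂ :=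
  ∫ θ in (-Real.pi)..Real.pi, pp G (θ + δ) * conj (pq R θ)

/-- correlation of the gradient with its derivative -/
noncomputable def D2 (G : ℂ → ℂ) (R : ℝ → ℝ) (δ : ℝ) : ℂ :=
  ∫ θ in (-Real.pi)..Real.pi, pp G (θ + δ) * pq R θ

lemma ip_mul_ip (a b c d : ℂ) : ip a b * ip c d
    = (1 / 2) * (conj (a * c) * (b * d) + conj (a * conj c) * (b * conj d)).re := by
  simp only [ip, Complex.add_re, Complex.mul_re, Complex.mul_im, Complex.conj_re, Complex.conj_im,
    map_mul, Complex.conj_conj]
  ring

lemma intervalIntegral_conj {a b : ℝ} (f : ℝ → ℂ) :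
    ∫ x in a..b, conj (f x) = conj (∫ x in a..b, f x) := by
  simp only [intervalIntegral, map_sub, integral_conj]

lemma theta_int (hN : Nrm g G R) (δ : ℝ) (b d : ℂ) :
    ∫ θ in (-Real.pi)..Real.pi, ip (pp G (θ + δ)) b * ip (pq R θ) d
      = (1 / 2) * (conj (D2 G R δ) * (b * d) + conj (D1 G R δ) * (b * conj d)).re := by
  have c1 := continuous_pp hN
  have c2 := continuous_pq hN
  have c3 : Continuous fun θ => conj (pp G (θ + δ) * pq R θ) * (b * d) :=
    (Complex.continuous_conj.comp ((c1.comp (by fun_prop)).mul c2)).mul continuous_const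
  have c4 : Continuous fun θ => conj (pp G (θ + δ) * conj (pq R θ)) * (b * conj d) :=
    (Complex.continuous_conj.comp ((c1.comp (by fun_prop)).mul
      (Complex.continuous_conj.comp c2))).mul continuous_const
  have e1 : ∀ θ, ip (pp G (θ + δ)) b * ip (pq R θ) d
      = (1 / 2) * (conj (pp G (θ + δ) * pq R θ) * (b * d)
        + conj (pp G (θ + δ) * conj (pq R θ)) * (b * conj d)).re := fun θ => ip_mul_ip _ _ _ _
  simp only [e1]
  rw [intervalIntegral.integral_const_mul]
  congr 1
  have h1 := intervalIntegral.intervalIntegral_re (μ := volume) (a := -Real.pi) (b := Real.pi)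
    (f := fun θ => conj (pp G (θ + δ) * pq R θ) * (b * d)
        + conj (pp G (θ + δ) * conj (pq R θ)) * (b * conj d))
    ((c3.add c4).intervalIntegrable _ _)
  simp only [RCLike.re_to_complex] at h1
  rw [h1, intervalIntegral.integral_add (c3.intervalIntegrable _ _) (c4.intervalIntegrable _ _),
    intervalIntegral.integral_mul_const, intervalIntegral.integral_mul_const,
    intervalIntegral_conj, intervalIntegral_conj]
  rfl

variable [hLf : Fact (0 < L)]

/-- the inequality in terms of the correlation integrals -/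
theorem corr_le (hN : Nrm g G R) (h : RCurve γ L) {β : AddCircle L → ℂ} (hβ : Continuous β)
    (δ : ℝ) {C : ℝ}
    (hC : ∀ (z : PC L) (N : ℕ), ∑ i ∈ Finset.range N,
      (fun z : PC L => g (β (z.1 + ((z.2 : ℝ) : AddCircle L)) - β z.1) - g (vv h z.1 z.2))
        ((tm hN h)^[i] z) ≤ C) :
    (conj (D2 G R δ) * (∫ t in (0:ℝ)..L, β (t : AddCircle L) * deriv γ t)
      + conj (D1 G R δ) * (∫ t in (0:ℝ)..L, β (t : AddCircle L) * conj (deriv γ t))).re
    ≤ (conj (D2 G R 0) * (∫ t in (0:ℝ)..L, γ t * deriv γ t)
      + conj (D1 G R 0) * (∫ t in (0:ℝ)..L, γ t * conj (deriv γ t))).re := by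
  have hJ := J_nonpos hN h hβ δ hC
  have c1 := continuous_pp hN
  have c2 := continuous_pq hN
  have hcoe : Continuous ((↑) : ℝ → AddCircle L) := continuous_coe
  have hγ := h.smooth.continuous
  have hγ' := continuous_deriv' h
  have e1 : ∀ w : AddCircle L, ∫ θ in (-Real.pi)..Real.pi, Ps G R h β δ w θ
      = (1 / 2) * (conj (D2 G R δ) * (β w * gd h w) + conj (D1 G R δ) * (β w * conj (gd h w))).re
      - (1 / 2) * (conj (D2 G R 0) * (gb h w * gd h w)
        + conj (D1 G R 0) * (gb h w * conj (gd h w))).re := by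
    intro w
    rw [← theta_int hN δ, ← theta_int hN 0]
    have c3 : Continuous fun θ => ip (pp G (θ + δ)) (β w) * ip (pq R θ) (gd h w) :=
      (Continuous.ip' (c1.comp (by fun_prop)) continuous_const).mul
        (Continuous.ip' c2 continuous_const)
    have c4 : Continuous fun θ => ip (pp G (θ + 0)) (gb h w) * ip (pq R θ) (gd h w) :=
      (Continuous.ip' (c1.comp (by fun_prop)) continuous_const).mul
        (Continuous.ip' c2 continuous_const)
    rw [← intervalIntegral.integral_sub (c3.intervalIntegrable _ _) (c4.intervalIntegrable _ _)]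
    congr 1
    funext θ
    rw [Ps, add_zero]
    ring
  simp only [e1] at hJ
  have h2 := AddCircle.intervalIntegral_preimage L 0 (fun w : AddCircle L =>
    (1 / 2) * (conj (D2 G R δ) * (β w * gd h w) + conj (D1 G R δ) * (β w * conj (gd h w))).re
      - (1 / 2) * (conj (D2 G R 0) * (gb h w * gd h w)
        + conj (D1 G R 0) * (gb h w * conj (gd h w))).re)
  rw [zero_add] at h2
  rw [← h2] at hJ
  simp only [gb_coe, gd_coe] at hJ
  have k : ∀ (f : ℝ → ℂ), Continuous f → ∀ a b : ℂ,
      ∫ t in (0:ℝ)..L, (1 / 2 : ℝ) * (a * (f t * deriv γ t) + b * (f t * conj (deriv γ t))).re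
      = (1 / 2 : ℝ) * (a * (∫ t in (0:ℝ)..L, f t * deriv γ t)
        + b * (∫ t in (0:ℝ)..L, f t * conj (deriv γ t))).re := by
    intro f hf a b
    rw [intervalIntegral.integral_const_mul]
    congr 1
    have k1 : Continuous fun t => a * (f t * deriv γ t) := by fun_prop
    have k2 : Continuous fun t => b * (f t * conj (deriv γ t)) :=
      continuous_const.mul (hf.mul (Complex.continuous_conj.comp hγ'))
    have h1 := intervalIntegral.intervalIntegral_re (μ := volume) (a := 0) (b := L)
      (f := fun t => a * (f t * deriv γ t) + b * (f t * conj (deriv γ t)))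
      ((k1.add k2).intervalIntegrable _ _)
    simp only [RCLike.re_to_complex] at h1
    rw [h1, intervalIntegral.integral_add (k1.intervalIntegrable _ _) (k2.intervalIntegrable _ _),
      intervalIntegral.integral_const_mul, intervalIntegral.integral_const_mul]
  have hβc : Continuous fun t : ℝ => β (t : AddCircle L) := by fun_prop
  have kc : ∀ (f : ℝ → ℂ), Continuous f → ∀ a b : ℂ, Continuous fun t : ℝ =>
      (1 / 2 : ℝ) * (a * (f t * deriv γ t) + b * (f t * conj (deriv γ t))).re := by
    intro f hf a b
    have k1 : Continuous fun t => a * (f t * deriv γ t) := by fun_prop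
    have k2 : Continuous fun t => b * (f t * conj (deriv γ t)) :=
      continuous_const.mul (hf.mul (Complex.continuous_conj.comp hγ'))
    exact continuous_const.mul (Complex.continuous_re.comp (k1.add k2))
  rw [intervalIntegral.integral_sub ((kc _ hβc _ _).intervalIntegrable _ _)
    ((kc _ hγ _ _).intervalIntegrable _ _), k _ hβc, k _ hγ] at hJ
  linarith

end Pool.Agent.W714.Mink
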