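import Pool.Agent.W714.Mink.Sys
import Pool.Agent.W714.Coin.Meas

set_option autoImplicit false
set_option linter.unusedSectionVars false

/-!
# The invariant measure of a Minkowski billiard
-/

namespace Pool.Agent.W714.Mink

open Complex Set Topology Filter MeasureTheory
open Pool.Agent.W714.Coin (arg_mem_Ioo_of_im_pos mem_slitPlane_of_im_pos hasDerivAt_arg div_im_eq
  continuous_coe coe_surjL nu lintegral_nu lintegral_lintegral_trans)

variable {γ : ℝ → ℂ} {L : ℝ} {g : ℂ → ℝ} {G : ℂ → ℂ} {R : ℝ → ℝ}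

lemma R_periodic (hN : Nrm g G R) : Function.Periodic R (2 * Real.pi) := by
  intro θ
  have h1 := hN.dG (θ + 2 * Real.pi)
  have h2 := h1.comp_add_const θ (2 * Real.pi)
  have e : (fun x : ℝ => G (exp (((x + 2 * Real.pi : ℝ) : ℂ) * I))) = fun x : ℝ => G (exp (x * I)) := by
    funext x
    congr 1
    have : ((x + 2 * Real.pi : ℝ) : ℂ) * I = x * I + 2 * Real.pi * I := by push_cast; ring
    rw [this, exp_periodic]
  rw [e] at h2
  have h3 := h2.unique (hN.dG θ)
  have h4 : exp (((θ + 2 * Real.pi : ℝ) : ℂ) * I) = exp (θ * I) := by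
    have : ((θ + 2 * Real.pi : ℝ) : ℂ) * I = θ * I + 2 * Real.pi * I := by push_cast; ring
    rw [this, exp_periodic]
  rw [h4] at h3
  have h5 := mul_right_cancel₀ (mul_ne_zero I_ne_zero (exp_ne_zero _)) h3
  exact_mod_cast h5

lemma R_congr (hN : Nrm g G R) {a b : ℝ} (h : exp (a * I) = exp (b * I)) : R a = R b := by
  rw [exp_eq_exp_iff_exists_int] at h
  obtain ⟨n, hn⟩ := h
  have h2 : (a : ℂ) = b + n * (2 * Real.pi) := by
    have : (a : ℂ) * I = (b + n * (2 * Real.pi)) * I := by rw [hn]; ring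
    exact mul_right_cancel₀ I_ne_zero this
  have h3 : a = b + n * (2 * Real.pi) := by exact_mod_cast h2
  rw [h3]
  exact (R_periodic hN).int_mul n b

lemma R_arg_smul (hN : Nrm g G R) {u v : ℂ} (hu : u ≠ 0) {r : ℝ} (hr : 0 < r) {τ : ℝ}
    (h : v = (r : ℂ) * (exp (τ * I) * u)) : R (τ + arg u) = R (arg v) := by
  apply R_congr hN
  have hv : v ≠ 0 := by
    rw [h]
    exact mul_ne_zero (by exact_mod_cast hr.ne') (mul_ne_zero (exp_ne_zero _) hu)
  have h1 := norm_mul_exp_arg_mul_I u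
  have h2 := norm_mul_exp_arg_mul_I v
  have h3 : ‖v‖ = r * ‖u‖ := by
    rw [h, norm_mul, norm_mul, norm_real, norm_exp_ofReal_mul_I, one_mul, Real.norm_eq_abs,
      abs_of_pos hr]
  have h4 : ((‖v‖ : ℝ) : ℂ) ≠ 0 := by exact_mod_cast (norm_pos_iff.mpr hv).ne'
  apply mul_left_cancel₀ h4
  rw [h2, h3]
  push_cast
  rw [add_mul, exp_add]
  rw [h]
  linear_combination r * exp (τ * I) * h1

/-- the density of the invariant measure -/
noncomputable def dens (R : ℝ → ℝ) (h : RCurve γ L) (w : AddCircle L) (x : ℝ) : ℝ :=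
  R (arg (vv h w x)) * (ZA h w x).im * (ZB h w x).im / ‖vv h w x‖ ^ 3

lemma dens_nonneg (hN : Nrm g G R) (h : RCurve γ L) (w : AddCircle L) {x : ℝ} (hx : x ∈ Ioo 0 L) :
    0 ≤ dens R h w x := by
  have h1 := hN.nonneg (arg (vv h w x))
  have h2 := ZA_im_pos h w hx
  have h3 := ZB_im_pos h w hx
  unfold dens
  positivity

lemma measurable_dens (hN : Nrm g G R) (h : RCurve γ L) :
    Measurable fun p : AddCircle L × ℝ => dens R h p.1 p.2 := by
  have a1 : Measurable fun p : AddCircle L × ℝ => (ZA h p.1 p.2).im :=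
    (Complex.continuous_im.comp (continuous_ZA h)).measurable
  have a2 : Measurable fun p : AddCircle L × ℝ => (ZB h p.1 p.2).im :=
    (Complex.continuous_im.comp (continuous_ZB h)).measurable
  have a0 : Measurable fun p : AddCircle L × ℝ => vv h p.1 p.2 := (continuous_vv h).measurable
  have a3 : Measurable fun p : AddCircle L × ℝ => ‖vv h p.1 p.2‖ ^ 3 := (a0.norm).pow_const 3
  have a4 : Measurable fun p : AddCircle L × ℝ => R (arg (vv h p.1 p.2)) :=
    hN.contR.measurable.comp (measurable_arg.comp a0)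
  exact ((a4.mul a1).mul a2).div a3

lemma sin_angA (h : RCurve γ L) (w : AddCircle L) (x : ℝ) :
    ‖gd h w‖ * Real.sin (angA h w x) = (ZA h w x).im / ‖vv h w x‖ := by
  rw [angA, Complex.sin_arg]
  have h2 : ‖ZA h w x‖ = ‖gd h w‖ * ‖vv h w x‖ := by
    rw [ZA, norm_mul, Complex.norm_conj]; rfl
  rw [h2]
  have := norm_pos_iff.mpr (gd_ne h w)
  field_simp

lemma sin_angB (h : RCurve γ L) (w : AddCircle L) (x : ℝ) :
    ‖gd h (w + (x : AddCircle L))‖ * Real.sin (angB h w x) = (ZB h w x).im / ‖vv h w x‖ := by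
  rw [angB, Complex.sin_arg]
  have h2 : ‖ZB h w x‖ = ‖gd h (w + (x : AddCircle L))‖ * ‖vv h w x‖ := by
    rw [ZB, norm_mul, Complex.norm_conj, mul_comm]; rfl
  rw [h2]
  have := norm_pos_iff.mpr (gd_ne h (w + (x : AddCircle L)))
  field_simp

lemma hasDerivAt_Mt (hN : Nrm g G R) (h : RCurve γ L) (s : ℝ) {x : ℝ} (hx : x ∈ Ioo 0 L) :
    HasDerivAt (fun x : ℝ => Mt G h (s : AddCircle L) x) (-dens R h (s : AddCircle L) x) x := by
  set w : AddCircle L := (s : AddCircle L) with hw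
  have hu := gd_ne h w
  have h1 := hN.hasDerivAt_m hu (angA h w x)
  have h2 := hasDerivAt_angA h s hx
  have h3 := HasDerivAt.comp x h1 h2
  have e1 : (fun x : ℝ => Mt G h w x) =ᶠ[𝓝 x]
      ((fun τ : ℝ => ip (G (exp (τ * I) * gd h w)) (gd h w)) ∘ fun x : ℝ => angA h w x) := by
    filter_upwards [Ioo_mem_nhds hx.1 hx.2] with y hy
    exact Mt_eq hN h w hy
  rw [e1.hasDerivAt_iff]
  refine HasDerivAt.congr_deriv h3 ?_
  have hv := norm_pos_iff.mpr (vv_ne h w hx)
  unfold dens
  rw [← R_arg_smul hN hu (div_pos hv (norm_pos_iff.mpr hu)) (vv_A h w x)]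
  have h4 := sin_angA h w x
  have h5 : ‖γ (s + x) - γ s‖ = ‖vv h w x‖ := by rw [hw, vv_coe]
  rw [← hw, h5]
  have h6 : R (angA h w x + arg (gd h w)) * ‖gd h w‖ * Real.sin (angA h w x)
      = R (angA h w x + arg (gd h w)) * ((ZA h w x).im / ‖vv h w x‖) := by
    rw [← h4]; ring
  rw [h6]
  field_simp

lemma hasDerivAt_Pt (hN : Nrm g G R) (h : RCurve γ L) (s : ℝ) {x : ℝ} (hx : x ∈ Ioo 0 L) :
    HasDerivAt (fun x : ℝ => Pt G h ((s - x : ℝ) : AddCircle L) x)
      (-dens R h ((s - x : ℝ) : AddCircle L) x) x := by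
  have hcoe : ∀ y : ℝ, ((s - y : ℝ) : AddCircle L) + (y : AddCircle L) = (s : AddCircle L) := by
    intro y
    rw [← AddCircle.coe_add, sub_add_cancel]
  set u := gd h (s : AddCircle L) with hudef
  have hu : u ≠ 0 := gd_ne h _
  set w : AddCircle L := ((s - x : ℝ) : AddCircle L) with hw
  have h1 := hN.hasDerivAt_m hu (-angB h w x)
  have h2 := (hasDerivAt_angB h s hx).neg
  have h3 := HasDerivAt.comp (h₂ := fun τ : ℝ => ip (G (exp (τ * I) * u)) u)
    (h := fun x : ℝ => -angB h ((s - x : ℝ) : AddCircle L) x) x h1 h2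
  have e1 : (fun x : ℝ => Pt G h ((s - x : ℝ) : AddCircle L) x) =ᶠ[𝓝 x]
      ((fun τ : ℝ => ip (G (exp (τ * I) * u)) u) ∘
        fun x : ℝ => -angB h ((s - x : ℝ) : AddCircle L) x) := by
    filter_upwards [Ioo_mem_nhds hx.1 hx.2] with y hy
    have := Pt_eq hN h ((s - y : ℝ) : AddCircle L) hy
    rw [hcoe] at this
    exact this
  rw [e1.hasDerivAt_iff]
  refine HasDerivAt.congr_deriv h3 ?_
  have hv := norm_pos_iff.mpr (vv_ne h w hx)
  have hB := vv_B h w x
  rw [hw, hcoe, ← hw, ← hudef] at hB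
  unfold dens
  rw [← R_arg_smul hN hu (div_pos hv (norm_pos_iff.mpr hu)) hB]
  have h4 := sin_angB h w x
  rw [hw, hcoe, ← hw, ← hudef] at h4
  have h5 : ‖γ s - γ (s - x)‖ = ‖vv h w x‖ := by rw [hw, vv_coe, sub_add_cancel]
  rw [← hw, h5, Real.sin_neg]
  have h6 : R (-angB h w x + arg u) * ‖u‖ * Real.sin (angB h w x)
      = R (-angB h w x + arg u) * ((ZB h w x).im / ‖vv h w x‖) := by
    rw [← h4]; ring
  have h7 : -(R (-angB h w x + arg u) * ‖u‖ * -Real.sin (angB h w x))
      = R (-angB h w x + arg u) * ((ZB h w x).im / ‖vv h w x‖) := by rw [← h6]; ring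
  rw [h7]
  field_simp

/-- change of variables from chords to momenta -/
lemma lintegral_momentum (F F' : ℝ → ℝ) (hd : ∀ x ∈ Ioo 0 L, HasDerivAt F (-(F' x)) x)
    (hnn : ∀ x ∈ Ioo 0 L, 0 ≤ F' x) (hinj : InjOn F (Ioo 0 L)) (q : ℝ → ENNReal) :
    ∫⁻ r in F '' Ioo 0 L, q r = ∫⁻ x in Ioo 0 L, ENNReal.ofReal (F' x) * q (F x) := by
  rw [lintegral_image_eq_lintegral_abs_deriv_mul measurableSet_Ioo
    (fun x hx => (hd x hx).hasDerivWithinAt) hinj q]
  apply setLIntegral_congr_fun measurableSet_Ioo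
  intro x hx
  simp only
  rw [abs_neg, abs_of_nonneg (hnn x hx)]

variable [hLf : Fact (0 < L)]

/-- the product measure -/
noncomputable def pr0 (L : ℝ) [Fact (0 < L)] : Measure (PC L) :=
  (volume : Measure (AddCircle L)).prod (nu L)

instance : IsFiniteMeasure (pr0 L) := by unfold pr0; infer_instance

/-- the invariant measure -/
noncomputable def mum (R : ℝ → ℝ) (h : RCurve γ L) : Measure (PC L) :=
  (pr0 L).withDensity fun z => ENNReal.ofReal (dens R h z.1 z.2)

lemma measurable_densP (hN : Nrm g G R) (h : RCurve γ L) :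
    Measurable fun z : PC L => ENNReal.ofReal (dens R h z.1 z.2) := by
  have : Measurable fun z : PC L => (z.1, (z.2 : ℝ)) :=
    measurable_fst.prodMk (measurable_subtype_coe.comp measurable_snd)
  exact ((measurable_dens hN h).comp this).ennreal_ofReal

lemma lintegral_mum (hN : Nrm g G R) (h : RCurve γ L) {F : PC L → ENNReal} (hF : Measurable F) :
    ∫⁻ z, F z ∂(mum R h)
      = ∫⁻ w : AddCircle L, ∫⁻ x, ENNReal.ofReal (dens R h w x) * F (w, x) ∂(nu L) := by
  rw [mum, lintegral_withDensity_eq_lintegral_mul _ (measurable_densP hN h) hF, pr0, lintegral_prod]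
  · rfl
  · exact ((measurable_densP hN h).mul hF).aemeasurable

lemma lintegral_dens_le (hN : Nrm g G R) (h : RCurve γ L) :
    ∃ C : ℝ, ∀ w : AddCircle L, ∫⁻ x, ENNReal.ofReal (dens R h w x) ∂(nu L) ≤ ENNReal.ofReal C := by
  obtain ⟨B, hB, hB'⟩ := hN.exists_G_bound
  have hc : Continuous fun w : AddCircle L => ‖gd h w‖ := (continuous_gd h).norm
  obtain ⟨w₀, -, hw₀⟩ := isCompact_univ.exists_isMaxOn (s := (univ : Set (AddCircle L)))
    ⟨0, trivial⟩ hc.continuousOn
  refine ⟨2 * (B * ‖gd h w₀‖), fun w => ?_⟩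
  obtain ⟨s, rfl⟩ := coe_surjL w
  rw [lintegral_nu L (fun x : ℝ => ENNReal.ofReal (dens R h (s : AddCircle L) x))]
  have h1 := lintegral_momentum (L := L) (fun x : ℝ => Mt G h (s : AddCircle L) x)
    (fun x => dens R h (s : AddCircle L) x) (fun x hx => hasDerivAt_Mt hN h s hx)
    (fun x hx => dens_nonneg hN h _ hx) (strictAnti_Mt hN h _).injOn (fun _ => 1)
  simp only [mul_one] at h1
  rw [← h1, setLIntegral_one]
  have h2 : (fun x : ℝ => Mt G h (s : AddCircle L) x) '' Ioo 0 L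
      ⊆ Ioo (-g (-gd h (s : AddCircle L))) (g (gd h (s : AddCircle L))) := by
    rintro _ ⟨x, hx, rfl⟩
    exact Mt_mem hN h _ hx
  refine (measure_mono h2).trans ?_
  rw [Real.volume_Ioo]
  apply ENNReal.ofReal_le_ofReal
  have h3 := hN.abs_g_le hB' (gd h (s : AddCircle L))
  have h4 := hN.abs_g_le hB' (-gd h (s : AddCircle L))
  rw [norm_neg] at h4
  have h5 : ‖gd h (s : AddCircle L)‖ ≤ ‖gd h w₀‖ := hw₀ (mem_univ _)
  have h6 := mul_le_mul_of_nonneg_left h5 hB.le
  have h7 := le_abs_self (g (gd h (s : AddCircle L)))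
  have h8 := le_abs_self (g (-gd h (s : AddCircle L)))
  linarith

lemma isFiniteMeasure_mum (hN : Nrm g G R) (h : RCurve γ L) : IsFiniteMeasure (mum R h) := by
  apply isFiniteMeasure_withDensity
  obtain ⟨C, hC⟩ := lintegral_dens_le hN h
  have h1 : ∫⁻ z : PC L, ENNReal.ofReal (dens R h z.1 z.2) ∂(pr0 L)
      = ∫⁻ w : AddCircle L, ∫⁻ x, ENNReal.ofReal (dens R h w x) ∂(nu L) := by
    rw [pr0, lintegral_prod _ (measurable_densP hN h).aemeasurable]
  rw [h1]
  refine (lintegral_mono (g := fun _ => ENNReal.ofReal C) hC).trans_lt ?_ |>.ne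
  rw [lintegral_const]
  exact ENNReal.mul_lt_top ENNReal.ofReal_lt_top (measure_lt_top _ _)

/-- open sets have positive measure -/
lemma isOpenPos_mum (hN : Nrm g G R) (h : RCurve γ L) : (mum R h).IsOpenPosMeasure := by
  constructor
  intro U hU hne h0
  rw [mum, withDensity_apply_eq_zero (measurable_densP hN h)] at h0
  -- a point of `U` with positive curvature radius
  obtain ⟨⟨w, y⟩, hwy⟩ := hne
  obtain ⟨s, rfl⟩ := coe_surjP w
  set w : AddCircle L := (s : AddCircle L) with hw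
  have hcs : Continuous fun x : Ioo (0:ℝ) L => ((w, x) : PC L) := by fun_prop
  have hV : IsOpen ((fun x : Ioo (0:ℝ) L => ((w, x) : PC L)) ⁻¹' U) := hU.preimage hcs
  have hV' : IsOpen (Subtype.val '' ((fun x : Ioo (0:ℝ) L => ((w, x) : PC L)) ⁻¹' U)) :=
    isOpen_Ioo.isOpenMap_subtype_val _ hV
  have hymem : (y : ℝ) ∈ (Subtype.val '' ((fun x : Ioo (0:ℝ) L => ((w, x) : PC L)) ⁻¹' U)) :=
    ⟨y, hwy, rfl⟩
  obtain ⟨ε, hε, hball⟩ := Metric.isOpen_iff.mp hV' _ hymem
  have hab : (y:ℝ) < y + ε / 2 := by linarith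
  have hsub : Icc (y:ℝ) (y + ε / 2) ⊆
      (Subtype.val '' ((fun x : Ioo (0:ℝ) L => ((w, x) : PC L)) ⁻¹' U)) := by
    intro x hx
    apply hball
    rw [Metric.mem_ball, Real.dist_eq, abs_lt]
    constructor <;> linarith [hx.1, hx.2]
  have hb : (y:ℝ) + ε / 2 ∈ Ioo 0 L := by
    obtain ⟨b, -, hb⟩ := hsub (right_mem_Icc.mpr hab.le)
    rw [← hb]; exact b.2
  have hang := strictMonoOn_angA h w y.2 hb hab
  simp only at hang
  obtain ⟨τ', hτ', hR⟩ := hN.exists_R_pos (show angA h w y + arg (gd h w)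
    < angA h w (y + ε / 2) + arg (gd h w) by linarith)
  have hcont : ContinuousOn (fun x => angA h w x) (Icc (y:ℝ) (y + ε / 2)) := by
    intro x hx
    have hx' : x ∈ Ioo 0 L := ⟨y.2.1.trans_le hx.1, hx.2.trans_lt hb.2⟩
    have := continuousAt_angA h w hx'
    exact (ContinuousAt.comp (f := fun x : ℝ => (w, x)) (x := x) this
      (by fun_prop)).continuousWithinAt
  obtain ⟨x, hx, hxe⟩ := intermediate_value_Icc hab.le hcont
    (show τ' - arg (gd h w) ∈ Icc _ _ from ⟨by linarith [hτ'.1], by linarith [hτ'.2]⟩)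
  have hx' : x ∈ Ioo 0 L := ⟨y.2.1.trans_le hx.1, hx.2.trans_lt hb.2⟩
  -- positivity of the density at this point
  have hxU : ((w, ⟨x, hx'⟩) : PC L) ∈ U := by
    obtain ⟨x₁, h1, h2⟩ := hsub hx
    have : x₁ = ⟨x, hx'⟩ := Subtype.ext h2
    rw [← this]; exact h1
  have hv := norm_pos_iff.mpr (vv_ne h w hx')
  have hRpos : 0 < R (arg (vv h w x)) := by
    rw [← R_arg_smul hN (gd_ne h w) (div_pos hv (norm_pos_iff.mpr (gd_ne h w))) (vv_A h w x)]
    simp only at hxe
    rw [hxe, sub_add_cancel]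
    exact hR
  -- the set where `R (arg v) > 0` is open
  have hOpen : IsOpen {z : PC L | 0 < ‖G (vv h z.1 z.2)‖ + 1} := by
    have : {z : PC L | 0 < ‖G (vv h z.1 z.2)‖ + 1} = univ := by
      ext z; simp only [mem_ofPred_eq, mem_univ, iff_true]; positivity
    rw [this]; exact isOpen_univ
  -- continuity of `R ∘ arg`
  have hRc : ∀ v : ℂ, v ≠ 0 → ContinuousAt (fun v => R (arg v)) v := by
    intro v hv
    have hrel : ∀ᶠ v' in 𝓝 v, R (arg v') = R (arg v + arg (v' / v)) := by
      filter_upwards [isOpen_compl_singleton.mem_nhds (show v ∈ ({0}ᶜ : Set ℂ) from hv)] with v' hv'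
      apply R_congr hN
      have hv'0 : v' ≠ 0 := hv'
      have h1 := norm_mul_exp_arg_mul_I v
      have h2 := norm_mul_exp_arg_mul_I v'
      have h3 := norm_mul_exp_arg_mul_I (v' / v)
      have h4 : ((‖v'‖ : ℝ) : ℂ) ≠ 0 := by exact_mod_cast (norm_pos_iff.mpr hv'0).ne'
      have h5 : ((‖v‖ : ℝ) : ℂ) ≠ 0 := by exact_mod_cast (norm_pos_iff.mpr hv).ne'
      have h6 : ((‖v' / v‖ : ℝ) : ℂ) * ‖v‖ = ‖v'‖ := by
        rw [norm_div]
        push_cast
        field_simp
      apply mul_left_cancel₀ h4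
      rw [h2]
      push_cast
      rw [add_mul, exp_add, ← h6]
      have h7 : v' = v * (v' / v) := by field_simp
      calc v' = v * (v' / v) := h7
        _ = (((‖v‖ : ℝ) : ℂ) * exp (arg v * I)) * (((‖v' / v‖ : ℝ) : ℂ) * exp (arg (v' / v) * I)) := by
            rw [h1, h3]
        _ = _ := by ring
    have hc1 : ContinuousAt (fun v' => R (arg v + arg (v' / v))) v := by
      have h1 : ContinuousAt arg (v / v) := by
        rw [div_self hv]; exact continuousAt_arg one_mem_slitPlane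
      have h2 : ContinuousAt (fun v' : ℂ => arg (v' / v)) v :=
        ContinuousAt.comp (f := fun v' : ℂ => v' / v) (x := v) h1 (by fun_prop)
      exact hN.contR.continuousAt.comp (continuousAt_const.add h2)
    exact hc1.congr (hrel.mono fun _ h => h.symm)
  have hcp : ContinuousAt (fun z : PC L => R (arg (vv h z.1 z.2))) (w, ⟨x, hx'⟩) := by
    have h1 : ContinuousAt (fun z : PC L => vv h z.1 z.2) (w, ⟨x, hx'⟩) := by
      have := continuous_vv h
      exact (this.comp (show Continuous fun z : PC L => (z.1, (z.2:ℝ)) by fun_prop)).continuousAt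
    exact ContinuousAt.comp (f := fun z : PC L => vv h z.1 z.2) (g := fun v => R (arg v))
      (x := ((w, ⟨x, hx'⟩) : PC L)) (hRc _ (vv_ne h w hx')) h1
  have hev : ∀ᶠ z : PC L in 𝓝 (w, ⟨x, hx'⟩), 0 < R (arg (vv h z.1 z.2)) :=
    hcp.eventually (lt_mem_nhds hRpos)
  have hev2 : ∀ᶠ z : PC L in 𝓝 (w, ⟨x, hx'⟩),
      z ∈ {x : PC L | ENNReal.ofReal (dens R h x.1 x.2) ≠ 0} ∩ U := by
    filter_upwards [hev, hU.mem_nhds hxU] with z hz hzU
    refine ⟨?_, hzU⟩
    simp only [mem_ofPred_eq, ne_eq, ENNReal.ofReal_eq_zero, not_le]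
    have h2 := ZA_im_pos h z.1 z.2.2
    have h3 := ZB_im_pos h z.1 z.2.2
    have h4 := norm_pos_iff.mpr (vv_ne h z.1 z.2.2)
    unfold dens
    positivity
  have hpos : (pr0 L).IsOpenPosMeasure := by unfold pr0; infer_instance
  exact (Measure.measure_pos_of_mem_nhds (pr0 L) hev2).ne' h0

/-- the billiard map preserves the measure -/
lemma measurePreserving_tm (hN : Nrm g G R) (h : RCurve γ L) :
    MeasurePreserving (tm hN h) (mum R h) (mum R h) := by
  classical
  have hm : Measurable (tm hN h) := (continuous_tm hN h).measurable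
  refine ⟨hm, ?_⟩
  ext E hE
  rw [Measure.map_apply hm hE, ← lintegral_indicator_one (hm hE), ← lintegral_indicator_one hE]
  set J : PC L → ENNReal := E.indicator 1 with hJdef
  have hJ : Measurable J := measurable_one.indicator hE
  have e : (tm hN h ⁻¹' E).indicator (1 : PC L → ENNReal) = J ∘ tm hN h := by
    funext z; rfl
  rw [e, lintegral_mum hN h (hJ.comp hm), lintegral_mum hN h hJ]
  have hcoe : Continuous ((↑) : ℝ → AddCircle L) := continuous_coe
  have hval : Continuous fun p : AddCircle L × Ioo (0:ℝ) L => ((p.2 : ℝ) : AddCircle L) := by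
    fun_prop
  have hsub : Measurable fun p : PC L => ((p.1 - ((p.2 : ℝ) : AddCircle L), p.2) : PC L) :=
    (Continuous.prodMk (continuous_fst.sub hval) continuous_snd).measurable
  have m1 : Measurable fun p : PC L => ENNReal.ofReal (dens R h p.1 p.2) := measurable_densP hN h
  have m2 : Measurable fun p : PC L => J (tm hN h p) := hJ.comp hm
  have key := lintegral_lintegral_trans (nu L) (fun x => ((x : ℝ) : AddCircle L))
    (fun w x => ENNReal.ofReal (dens R h (w - ((x : ℝ) : AddCircle L)) x) *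
          J (tm hN h (w - ((x : ℝ) : AddCircle L), x)))
    (by
      have h5 := (m1.mul m2).comp hsub
      exact h5)
    (by
      convert m1.mul m2 using 1
      funext ⟨w, x⟩
      simp only [Function.uncurry, add_sub_cancel_right, Pi.mul_apply])
  have key2 : ∫⁻ w : AddCircle L, ∫⁻ x, ENNReal.ofReal (dens R h w x) *
      (J ∘ tm hN h) (w, x) ∂(nu L)
      = ∫⁻ w : AddCircle L, ∫⁻ x, ENNReal.ofReal (dens R h (w - ((x : ℝ) : AddCircle L)) x) *
          J (tm hN h (w - ((x : ℝ) : AddCircle L), x)) ∂(nu L) := by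
    rw [← key]
    apply lintegral_congr
    intro w
    apply lintegral_congr
    intro x
    simp only [add_sub_cancel_right, Function.comp]
  rw [key2]
  apply lintegral_congr
  intro w
  obtain ⟨s, rfl⟩ := coe_surjL w
  set w : AddCircle L := (s : AddCircle L) with hw
  -- the function of the momentum
  set q : ℝ → ENNReal := fun r => if hr : ∃ y ∈ Ioo 0 L, Mt G h w y = r then
    J (w, ⟨hr.choose, hr.choose_spec.1⟩) else 0 with hq
  have hq' : ∀ (y : Ioo (0:ℝ) L), q (Mt G h w y) = J (w, y) := by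
    intro y
    have hr : ∃ y' ∈ Ioo 0 L, Mt G h w y' = Mt G h w y := ⟨y, y.2, rfl⟩
    simp only [hq]
    rw [dif_pos hr]
    have h1 : hr.choose = y :=
      (strictAnti_Mt hN h w).injOn hr.choose_spec.1 y.2 hr.choose_spec.2
    congr 2
    exact Subtype.ext h1
  have hq2 : ∀ (x : Ioo (0:ℝ) L), q (Pt G h (w - ((x : ℝ) : AddCircle L)) x)
      = J (tm hN h (w - ((x : ℝ) : AddCircle L), x)) := by
    intro x
    set z : PC L := (w - ((x : ℝ) : AddCircle L), x) with hz
    have h1 : z.1 + (((z.2 : ℝ)) : AddCircle L) = w := by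
      simp only [hz, sub_add_cancel]
    have h2 := nexty_eq hN h z
    rw [h1] at h2
    have h3 : tm hN h z = (w, ⟨nexty hN h z, nexty_mem hN h z⟩) := Prod.ext h1 rfl
    rw [h3, ← hq']
    rw [← show Mt G h w (nexty hN h z) = Pt G h (w - ((x : ℝ) : AddCircle L)) x from h2]
  have l1 : ∫⁻ x, ENNReal.ofReal (dens R h (w - ((x : ℝ) : AddCircle L)) x) *
          J (tm hN h (w - ((x : ℝ) : AddCircle L), x)) ∂(nu L)
      = ∫⁻ x in Ioo 0 L, ENNReal.ofReal (dens R h ((s - x : ℝ) : AddCircle L) x) *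
          q (Pt G h ((s - x : ℝ) : AddCircle L) x) := by
    rw [← lintegral_nu L (fun x : ℝ => ENNReal.ofReal (dens R h ((s - x : ℝ) : AddCircle L) x) *
          q (Pt G h ((s - x : ℝ) : AddCircle L) x))]
    apply lintegral_congr
    intro x
    rw [← hq2, AddCircle.coe_sub]
  have l2 : ∫⁻ x, ENNReal.ofReal (dens R h w x) * J (w, x) ∂(nu L)
      = ∫⁻ x in Ioo 0 L, ENNReal.ofReal (dens R h w x) * q (Mt G h w x) := by
    rw [← lintegral_nu L (fun x : ℝ => ENNReal.ofReal (dens R h w x) * q (Mt G h w x))]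
    apply lintegral_congr
    intro x
    rw [← hq']
  rw [l1, l2, ← lintegral_momentum (fun x : ℝ => Mt G h w x) (fun x => dens R h w x)
    (fun x hx => hasDerivAt_Mt hN h s hx) (fun x hx => dens_nonneg hN h _ hx)
    (strictAnti_Mt hN h _).injOn q]
  have hPinj : InjOn (fun x : ℝ => Pt G h ((s - x : ℝ) : AddCircle L) x) (Ioo 0 L) := by
    have := (strictAnti_Pt hN h w).injOn
    intro a ha b hb hab
    simp only [AddCircle.coe_sub] at hab
    exact this ha hb hab
  rw [← lintegral_momentum (fun x : ℝ => Pt G h ((s - x : ℝ) : AddCircle L) x)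
    (fun x => dens R h ((s - x : ℝ) : AddCircle L) x)
    (fun x hx => hasDerivAt_Pt hN h s hx) (fun x hx => dens_nonneg hN h _ hx) hPinj q]
  have himg : (fun x : ℝ => Pt G h ((s - x : ℝ) : AddCircle L) x) '' Ioo 0 L
      = (fun x : ℝ => Mt G h w x) '' Ioo 0 L := by
    ext r
    constructor
    · rintro ⟨x, hx, rfl⟩
      have h1 := Pt_mem hN h ((s - x : ℝ) : AddCircle L) hx
      rw [← AddCircle.coe_add, sub_add_cancel] at h1
      obtain ⟨y, hy, hye⟩ := exists_Mt_eq hN h w h1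
      exact ⟨y, hy, hye⟩
    · rintro ⟨x, hx, rfl⟩
      obtain ⟨y, hy, hye⟩ := exists_Pt_eq hN h w (Mt_mem hN h w hx)
      refine ⟨y, hy, ?_⟩
      simp only [AddCircle.coe_sub]
      exact hye
  rw [himg]

/-- there are no wandering open sets for the iterates -/
lemma recurrent_tm (hN : Nrm g G R) (h : RCurve γ L) (n : ℕ) (V : Set (PC L))
    (hV : IsOpen V) (hne : V.Nonempty) : ∃ z ∈ V, ∃ k, k ≠ 0 ∧ ((tm hN h)^[n])^[k] z ∈ V := by
  have := isFiniteMeasure_mum hN h
  have := isOpenPos_mum hN h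
  have hc := ((measurePreserving_tm hN h).iterate n).conservative
  exact hc.exists_mem_iterate_mem hV.measurableSet.nullMeasurableSet
    (hV.measure_pos (mum R h) hne).ne'

/-- a bounded function with bounded orbit sums has nonpositive integral -/
lemma integral_nonpos_of_sum_le {X : Type*} [MeasurableSpace X] (μ : Measure X) [IsFiniteMeasure μ]
    {T : X → X} (hT : MeasurePreserving T μ μ) {Δ : X → ℝ} (hΔ : Integrable Δ μ)
    {C : ℝ} (hC : ∀ z N, ∑ i ∈ Finset.range N, Δ (T^[i] z) ≤ C) : ∫ z, Δ z ∂μ ≤ 0 := by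
  have hint : ∀ i, Integrable (fun z => Δ (T^[i] z)) μ := fun i =>
    (hT.iterate i).integrable_comp_of_integrable hΔ
  have heq : ∀ i, ∫ z, Δ (T^[i] z) ∂μ = ∫ z, Δ z ∂μ := by
    intro i
    have h1 := hT.iterate i
    have h2 : AEStronglyMeasurable Δ (Measure.map T^[i] μ) := by
      rw [h1.map_eq]; exact hΔ.aestronglyMeasurable
    rw [← integral_map h1.aemeasurable h2, h1.map_eq]
  by_contra hcon
  push Not at hcon
  have hN : ∀ N : ℕ, N * ∫ z, Δ z ∂μ ≤ C * μ.real univ := by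
    intro N
    have h1 : ∫ z, ∑ i ∈ Finset.range N, Δ (T^[i] z) ∂μ = N * ∫ z, Δ z ∂μ := by
      rw [integral_finsetSum _ fun i _ => hint i]
      simp only [heq, Finset.sum_const, Finset.card_range, nsmul_eq_mul]
    rw [← h1]
    have h2 : ∫ z, ∑ i ∈ Finset.range N, Δ (T^[i] z) ∂μ ≤ ∫ _, C ∂μ :=
      integral_mono (integrable_finsetSum _ fun i _ => hint i) (integrable_const _)
        fun z => hC z N
    rw [integral_const, smul_eq_mul] at h2
    linarith
  obtain ⟨N, hN'⟩ := exists_nat_gt (C * μ.real univ / ∫ z, Δ z ∂μ)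
  rw [div_lt_iff₀ hcon] at hN'
  linarith [hN N]

end Pool.Agent.W714.Mink
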