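import Mathlib

set_option autoImplicit false

/-!
# Smooth Minkowski norms of the plane
-/

namespace Pool.Agent.W714.Mink

open Complex Set Topology Filter

/-- the real inner product of the plane -/
def ip (a b : ℂ) : ℝ := a.re * b.re + a.im * b.im

lemma ip_add (a b c : ℂ) : ip a (b + c) = ip a b + ip a c := by simp [ip]; ring
lemma ip_sub (a b c : ℂ) : ip a (b - c) = ip a b - ip a c := by simp [ip]; ring
lemma ip_neg (a b : ℂ) : ip a (-b) = -ip a b := by simp [ip]; ring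
lemma ip_smul (a b : ℂ) (r : ℝ) : ip a (r * b) = r * ip a b := by
  simp [ip]; ring
lemma sub_ip (a b c : ℂ) : ip (a - b) c = ip a c - ip b c := by simp [ip]; ring
lemma add_ip (a b c : ℂ) : ip (a + b) c = ip a c + ip b c := by simp [ip]; ring
lemma neg_ip (a b : ℂ) : ip (-a) b = -ip a b := by simp [ip]; ring
lemma smul_ip (a b : ℂ) (r : ℝ) : ip (r * a) b = r * ip a b := by simp [ip]; ring
lemma ip_zero (a : ℂ) : ip a 0 = 0 := by simp [ip]

lemma ip_eq (a b : ℂ) : ip a b = ((starRingEnd ℂ) a * b).re := by simp [ip]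

lemma abs_ip_le (a b : ℂ) : |ip a b| ≤ ‖a‖ * ‖b‖ := by
  rw [ip_eq]
  refine (Complex.abs_re_le_norm _).trans ?_
  rw [norm_mul, Complex.norm_conj]

lemma continuous_ip : Continuous fun p : ℂ × ℂ => ip p.1 p.2 := by
  unfold ip
  fun_prop

lemma Continuous.ip' {X : Type*} [TopologicalSpace X] {f g : X → ℂ} (hf : Continuous f)
    (hg : Continuous g) : Continuous fun x => ip (f x) (g x) := by
  exact continuous_ip.comp (hf.prodMk hg)

lemma ContinuousAt.ip' {X : Type*} [TopologicalSpace X] {f g : X → ℂ} {x : X}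
    (hf : ContinuousAt f x) (hg : ContinuousAt g x) : ContinuousAt (fun x => ip (f x) (g x)) x := by
  exact ContinuousAt.comp (f := fun x => (f x, g x)) (g := fun p : ℂ × ℂ => ip p.1 p.2)
    continuous_ip.continuousAt (hf.prodMk hg)

lemma HasDerivAt.ip_left {f : ℝ → ℂ} {f' : ℂ} {t : ℝ} (hf : HasDerivAt f f' t) (b : ℂ) :
    HasDerivAt (fun t => ip (f t) b) (ip f' b) t := by
  have h1 : HasDerivAt (fun t => (f t).re) f'.re t := Complex.reCLM.hasFDerivAt.comp_hasDerivAt t hf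
  have h2 : HasDerivAt (fun t => (f t).im) f'.im t := Complex.imCLM.hasFDerivAt.comp_hasDerivAt t hf
  exact (h1.mul_const b.re).add (h2.mul_const b.im)

/-- a `C²` Minkowski norm `g` with strictly convex unit ball, with its gradient `G` -/
structure Nrm (g : ℂ → ℝ) (G : ℂ → ℂ) (R : ℝ → ℝ) : Prop where
  diff : ∀ v : ℂ, v ≠ 0 → ∀ (c : ℝ → ℂ) (c' : ℂ) (t : ℝ), HasDerivAt c c' t → c t = v →
    HasDerivAt (fun t => g (c t)) (ip (G v) c') t
  cont : ∀ v : ℂ, v ≠ 0 → ContinuousAt G v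
  scale : ∀ r : ℝ, 0 < r → ∀ v, G (r * v) = G v
  dG : ∀ θ : ℝ, HasDerivAt (fun θ : ℝ => G (exp (θ * I))) (R θ * (I * exp (θ * I))) θ
  contR : Continuous R
  nonneg : ∀ θ, 0 ≤ R θ
  supp : ∀ v w : ℂ, v ≠ 0 → ip (G v) w ≤ g w
  euler : ∀ v : ℂ, v ≠ 0 → ip (G v) v = g v
  inj : ∀ v w : ℂ, v ≠ 0 → w ≠ 0 → G v = G w → ∃ r : ℝ, 0 < r ∧ w = r * v
  pos : ∀ v : ℂ, v ≠ 0 → 0 < g v
  zero : g 0 = 0

variable {g : ℂ → ℝ} {G : ℂ → ℂ} {R : ℝ → ℝ}

namespace Nrm

lemma G_polar (h : Nrm g G R) {v : ℂ} (hv : v ≠ 0) : G v = G (exp (arg v * I)) := by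
  have h1 := h.scale ‖v‖ (norm_pos_iff.mpr hv) (exp (arg v * I))
  rwa [norm_mul_exp_arg_mul_I] at h1

lemma G_rot (h : Nrm g G R) {u : ℂ} (hu : u ≠ 0) (τ : ℝ) :
    G (exp (τ * I) * u) = G (exp (((τ + arg u : ℝ) : ℂ) * I)) := by
  have h1 := h.scale ‖u‖ (norm_pos_iff.mpr hu) (exp (((τ + arg u : ℝ) : ℂ) * I))
  rw [← h1]
  congr 1
  push_cast
  rw [add_mul, exp_add]
  linear_combination -exp (τ * I) * norm_mul_exp_arg_mul_I u

/-- the curvature radius does not vanish on an interval -/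
lemma exists_R_pos (h : Nrm g G R) {a b : ℝ} (hab : a < b) : ∃ τ ∈ Ioo a b, 0 < R τ := by
  by_contra hcon
  push Not at hcon
  have h0 : ∀ τ ∈ Ioo a b, R τ = 0 := fun τ hτ => le_antisymm (hcon τ hτ) (h.nonneg τ)
  -- a shorter interval
  obtain ⟨c, hc1, hc2⟩ : ∃ c, a < c ∧ c < min b (a + 1) := exists_between (lt_min hab (by linarith))
  obtain ⟨d, hd1, hd2⟩ := exists_between hc2
  have hdb : d < b := hd2.trans_le (min_le_left _ _)
  have hda : d < a + 1 := hd2.trans_le (min_le_right _ _)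
  have hconst : G (exp (c * I)) = G (exp (d * I)) := by
    have h1 := (convex_Icc c d).norm_image_sub_le_of_norm_hasDerivWithin_le
      (f := fun θ : ℝ => G (exp (θ * I))) (f' := fun θ => R θ * (I * exp (θ * I))) (C := 0)
      (fun t _ => (h.dG t).hasDerivWithinAt)
      (fun t ht => by
        rw [h0 t ⟨hc1.trans_le ht.1, ht.2.trans_lt hdb⟩]; simp)
      (left_mem_Icc.mpr hd1.le) (right_mem_Icc.mpr hd1.le)
    rw [zero_mul, norm_le_zero_iff, sub_eq_zero] at h1
    exact h1.symm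
  obtain ⟨r, hr, he⟩ := h.inj _ _ (exp_ne_zero _) (exp_ne_zero _) hconst
  have hn := congrArg norm he
  rw [norm_mul, norm_exp_ofReal_mul_I, norm_exp_ofReal_mul_I, norm_real, Real.norm_eq_abs,
    abs_of_pos hr, mul_one] at hn
  rw [← hn, ofReal_one, one_mul, exp_eq_exp_iff_exists_int] at he
  obtain ⟨n, hn⟩ := he
  have h2 : (d : ℂ) = c + n * (2 * Real.pi) := by
    have : (d : ℂ) * I = (c + n * (2 * Real.pi)) * I := by rw [hn]; ring
    exact mul_right_cancel₀ I_ne_zero this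
  have h3 : d = c + n * (2 * Real.pi) := by exact_mod_cast h2
  have hpi := Real.pi_gt_three
  rcases lt_trichotomy n 0 with hn0 | hn0 | hn0
  · have : (n:ℝ) ≤ -1 := by exact_mod_cast (show n ≤ -1 by omega)
    nlinarith
  · rw [hn0] at h3; simp at h3; linarith
  · have : (1:ℝ) ≤ n := by exact_mod_cast (show 1 ≤ n by omega)
    nlinarith

lemma ip_rot (R' a τ : ℝ) (u : ℂ) (ha : a = arg u) :
    ip (R' * (I * exp (((τ + a : ℝ) : ℂ) * I))) u = -(R' * ‖u‖ * Real.sin τ) := by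
  rw [smul_ip, ip_eq]
  have e : (starRingEnd ℂ) (I * exp (((τ + a : ℝ) : ℂ) * I)) * u
      = ((‖u‖ : ℝ) : ℂ) * (-I * exp (-(τ * I))) := by
    rw [map_mul, ← exp_conj, map_mul, conj_I, conj_ofReal, ha]
    have : exp (((τ + arg u : ℝ) : ℂ) * -I) * exp (arg u * I) = exp (-(τ * I)) := by
      rw [← exp_add]; congr 1; push_cast; ring
    have hu' := norm_mul_exp_arg_mul_I u
    linear_combination ((‖u‖ : ℝ) : ℂ) * (-I) * this + I * exp (((τ + arg u : ℝ) : ℂ) * -I) * hu'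
  rw [e, Complex.re_ofReal_mul]
  have : (-I * exp (-(τ * I))).re = -Real.sin τ := by
    have h1 : -(τ * I) = ((-τ : ℝ) : ℂ) * I := by push_cast; ring
    rw [h1, exp_mul_I]
    simp [← ofReal_cos, ← ofReal_sin]
  rw [this]
  ring

/-- the momentum as a function of the angle -/
lemma hasDerivAt_m (h : Nrm g G R) {u : ℂ} (hu : u ≠ 0) (τ : ℝ) :
    HasDerivAt (fun τ : ℝ => ip (G (exp (τ * I) * u)) u)
      (-(R (τ + arg u) * ‖u‖ * Real.sin τ)) τ := by
  have e : (fun τ : ℝ => ip (G (exp (τ * I) * u)) u)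
      = fun τ : ℝ => ip ((fun θ : ℝ => G (exp (θ * I))) (τ + arg u)) u := by
    funext τ
    simp only
    rw [h.G_rot hu]
  rw [e]
  have h1 := (h.dG (τ + arg u)).comp_add_const τ (arg u)
  have h2 := HasDerivAt.ip_left h1 u
  rw [ip_rot (R (τ + arg u)) (arg u) τ u rfl] at h2
  exact h2

lemma m_anti (h : Nrm g G R) {u : ℂ} (hu : u ≠ 0) :
    StrictAntiOn (fun τ : ℝ => ip (G (exp (τ * I) * u)) u) (Icc 0 Real.pi) := by
  have hanti : AntitoneOn (fun τ : ℝ => ip (G (exp (τ * I) * u)) u) (Icc 0 Real.pi) := by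
    apply antitoneOn_of_deriv_nonpos (convex_Icc _ _)
    · intro τ _
      exact (h.hasDerivAt_m hu τ).continuousAt.continuousWithinAt
    · intro τ _
      exact (h.hasDerivAt_m hu τ).differentiableAt.differentiableWithinAt
    · intro τ hτ
      rw [interior_Icc] at hτ
      rw [(h.hasDerivAt_m hu τ).deriv]
      have h1 := h.nonneg (τ + arg u)
      have h2 := Real.sin_pos_of_pos_of_lt_pi hτ.1 hτ.2
      have h3 := norm_nonneg u
      have : 0 ≤ R (τ + arg u) * ‖u‖ * Real.sin τ := by positivity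
      linarith
  intro a ha b hb hab
  refine lt_of_le_of_ne (hanti ha hb hab.le) ?_
  intro heq
  obtain ⟨τ', hτ', hR⟩ := h.exists_R_pos (show a + arg u < b + arg u by linarith)
  set τ := τ' - arg u with hτ
  have hτab : τ ∈ Ioo a b := ⟨by linarith [hτ'.1], by linarith [hτ'.2]⟩
  have hconst : ∀ x ∈ Ioo a b, (fun τ : ℝ => ip (G (exp (τ * I) * u)) u) x
      = (fun τ : ℝ => ip (G (exp (τ * I) * u)) u) a := by
    intro x hx
    have hxI : x ∈ Icc 0 Real.pi := ⟨ha.1.trans hx.1.le, hx.2.le.trans hb.2⟩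
    apply le_antisymm (hanti ha hxI hx.1.le)
    simp only at heq
    rw [show (fun τ : ℝ => ip (G (exp (τ * I) * u)) u) a = (fun τ : ℝ => ip (G (exp (τ * I) * u)) u) b
      from heq.symm]
    exact hanti hxI hb hx.2.le
  have h1 : (fun τ : ℝ => ip (G (exp (τ * I) * u)) u) =ᶠ[𝓝 τ]
      fun _ => (fun τ : ℝ => ip (G (exp (τ * I) * u)) u) a := by
    filter_upwards [Ioo_mem_nhds hτab.1 hτab.2] with x hx using hconst x hx
  have h2 := h1.deriv_eq
  rw [(h.hasDerivAt_m hu τ).deriv, deriv_const] at h2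
  have h3 : τ + arg u = τ' := by rw [hτ]; ring
  rw [h3] at h2
  have h4 := Real.sin_pos_of_pos_of_lt_pi (ha.1.trans_lt hτab.1) (hτab.2.trans_le hb.2)
  have h5 := norm_pos_iff.mpr hu
  have : 0 < R τ' * ‖u‖ * Real.sin τ := by positivity
  linarith

lemma m_mono (h : Nrm g G R) {u : ℂ} (hu : u ≠ 0) :
    StrictMonoOn (fun τ : ℝ => ip (G (exp (τ * I) * u)) u) (Icc (-Real.pi) 0) := by
  have hanti : MonotoneOn (fun τ : ℝ => ip (G (exp (τ * I) * u)) u) (Icc (-Real.pi) 0) := by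
    apply monotoneOn_of_deriv_nonneg (convex_Icc _ _)
    · intro τ _
      exact (h.hasDerivAt_m hu τ).continuousAt.continuousWithinAt
    · intro τ _
      exact (h.hasDerivAt_m hu τ).differentiableAt.differentiableWithinAt
    · intro τ hτ
      rw [interior_Icc] at hτ
      rw [(h.hasDerivAt_m hu τ).deriv]
      have h1 := h.nonneg (τ + arg u)
      have h2 := Real.sin_pos_of_pos_of_lt_pi (x := -τ) (by linarith [hτ.2]) (by linarith [hτ.1])
      rw [Real.sin_neg] at h2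
      have h3 := norm_nonneg u
      have : 0 ≤ R (τ + arg u) * ‖u‖ * (-Real.sin τ) := by positivity
      linarith
  intro a ha b hb hab
  refine lt_of_le_of_ne (hanti ha hb hab.le) ?_
  intro heq
  obtain ⟨τ', hτ', hR⟩ := h.exists_R_pos (show a + arg u < b + arg u by linarith)
  set τ := τ' - arg u with hτ
  have hτab : τ ∈ Ioo a b := ⟨by linarith [hτ'.1], by linarith [hτ'.2]⟩
  have hconst : ∀ x ∈ Ioo a b, (fun τ : ℝ => ip (G (exp (τ * I) * u)) u) x
      = (fun τ : ℝ => ip (G (exp (τ * I) * u)) u) a := by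
    intro x hx
    have hxI : x ∈ Icc (-Real.pi) 0 := ⟨ha.1.trans hx.1.le, hx.2.le.trans hb.2⟩
    refine le_antisymm ?_ (hanti ha hxI hx.1.le)
    simp only at heq
    rw [show (fun τ : ℝ => ip (G (exp (τ * I) * u)) u) a = (fun τ : ℝ => ip (G (exp (τ * I) * u)) u) b
      from heq]
    exact hanti hxI hb hx.2.le
  have h1 : (fun τ : ℝ => ip (G (exp (τ * I) * u)) u) =ᶠ[𝓝 τ]
      fun _ => (fun τ : ℝ => ip (G (exp (τ * I) * u)) u) a := by
    filter_upwards [Ioo_mem_nhds hτab.1 hτab.2] with x hx using hconst x hx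
  have h2 := h1.deriv_eq
  rw [(h.hasDerivAt_m hu τ).deriv, deriv_const] at h2
  have h3 : τ + arg u = τ' := by rw [hτ]; ring
  rw [h3] at h2
  have h4 := Real.sin_pos_of_pos_of_lt_pi (x := -τ) (by linarith [hb.2, hτab.2])
    (by linarith [ha.1, hτab.1])
  rw [Real.sin_neg] at h4
  have h5 := norm_pos_iff.mpr hu
  have : 0 < R τ' * ‖u‖ * (-Real.sin τ) := by positivity
  linarith

lemma m_zero (h : Nrm g G R) {u : ℂ} (hu : u ≠ 0) :
    ip (G (exp (((0:ℝ) : ℂ) * I) * u)) u = g u := by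
  rw [ofReal_zero, zero_mul, exp_zero, one_mul, h.euler u hu]

lemma m_pi (h : Nrm g G R) {u : ℂ} (hu : u ≠ 0) :
    ip (G (exp (((Real.pi : ℝ) : ℂ) * I) * u)) u = -g (-u) := by
  rw [exp_pi_mul_I, neg_one_mul, ← h.euler (-u) (neg_ne_zero.mpr hu), ip_neg, neg_neg]

lemma m_neg_pi (h : Nrm g G R) {u : ℂ} (hu : u ≠ 0) :
    ip (G (exp (((-Real.pi : ℝ) : ℂ) * I) * u)) u = -g (-u) := by
  have : exp (((-Real.pi : ℝ) : ℂ) * I) = -1 := by
    rw [ofReal_neg, neg_mul, exp_neg, exp_pi_mul_I]; norm_num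
  rw [this, neg_one_mul, ← h.euler (-u) (neg_ne_zero.mpr hu), ip_neg, neg_neg]

lemma g_smul (h : Nrm g G R) {r : ℝ} (hr : 0 < r) (v : ℂ) : g (r * v) = r * g v := by
  by_cases hv : v = 0
  · rw [hv, mul_zero, h.zero, mul_zero]
  · rw [← h.euler v hv, ← h.euler (r * v) (mul_ne_zero (by exact_mod_cast hr.ne') hv),
      h.scale r hr, ip_smul]

/-- the gradient is bounded -/
lemma exists_G_bound (h : Nrm g G R) : ∃ B, 0 < B ∧ ∀ v : ℂ, v ≠ 0 → ‖G v‖ ≤ B := by
  have hc : Continuous fun θ : ℝ => G (exp (θ * I)) :=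
    continuous_iff_continuousAt.mpr fun θ => (h.dG θ).continuousAt
  obtain ⟨B, hB⟩ := isCompact_Icc.exists_bound_of_continuousOn (s := Icc (-Real.pi) Real.pi)
    hc.continuousOn
  refine ⟨max B 1, by positivity, fun v hv => ?_⟩
  rw [h.G_polar hv]
  exact (hB _ ⟨(neg_pi_lt_arg v).le, arg_le_pi v⟩).trans (le_max_left _ _)

lemma abs_g_le (h : Nrm g G R) {B : ℝ} (hB : ∀ v : ℂ, v ≠ 0 → ‖G v‖ ≤ B) (v : ℂ) :
    |g v| ≤ B * ‖v‖ := by
  by_cases hv : v = 0
  · rw [hv, h.zero]; simp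
  · rw [← h.euler v hv]
    exact (abs_ip_le _ _).trans (mul_le_mul_of_nonneg_right (hB v hv) (norm_nonneg _))

lemma continuousAt_g (h : Nrm g G R) {v : ℂ} (hv : v ≠ 0) : ContinuousAt g v := by
  have h1 : ContinuousAt (fun v => ip (G v) v) v := ContinuousAt.ip' (h.cont v hv) continuousAt_id
  apply h1.congr
  filter_upwards [isOpen_compl_singleton.mem_nhds (show v ∈ ({0}ᶜ : Set ℂ) from hv)] with w hw
  exact h.euler w hw

lemma continuous_g (h : Nrm g G R) : Continuous g := by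
  rw [continuous_iff_continuousAt]
  intro v
  by_cases hv : v = 0
  · subst hv
    obtain ⟨B, -, hB⟩ := h.exists_G_bound
    rw [ContinuousAt, h.zero]
    apply squeeze_zero_norm (a := fun v => B * ‖v‖)
    · intro w
      exact h.abs_g_le hB w
    · have : Continuous fun v : ℂ => B * ‖v‖ := by fun_prop
      have h2 := this.tendsto 0
      simpa using h2
  · exact h.continuousAt_g hv

end Nrm

end Pool.Agent.W714.Mink
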