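import Pool.Agent.W714.Coin.Leaf

set_option autoImplicit false
set_option linter.unusedVariables false

/-!
# Foliations of the cylinder by invariant closed curves: curves near the two ends
-/

namespace Pool.Agent.W714.Mink

open Pool.Agent.W714.Coin Set Topology Filter

/-- the space of oriented chords of a closed curve of length `ℓ`: `(s, y)` stands for the chord from
the point with parameter `s` to the one with parameter `s + y` -/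
abbrev PC (ℓ : ℝ) : Type := AddCircle ℓ × Ioo (0:ℝ) ℓ

section General

variable {A : Type*} [TopologicalSpace A]

/-- the leaves which meet a compact set stay in a compact set -/
lemma exists_compact_sat (F : Set (Set A))
    (hpart : ∀ z, ∃! Γ, Γ ∈ F ∧ z ∈ Γ)
    (htube : ∀ Γ ∈ F, ∃ φ : AddCircle (1 : ℝ) × ℝ → A, IsOpenEmbedding φ ∧
      (range fun u => φ (u, 0)) = Γ ∧ ∀ t, (range fun u => φ (u, t)) ∈ F) {C : Set A}
    (hC : IsCompact C) : ∃ Q : Set A, IsCompact Q ∧ C ⊆ Q ∧ ∀ Γ ∈ F, (Γ ∩ C).Nonempty → Γ ⊆ Q := by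
  have : Fact (0 < (1:ℝ)) := ⟨one_pos⟩
  have ht : ∀ z : A, ∃ φ : AddCircle (1 : ℝ) × ℝ → A,
      IsOpenEmbedding φ ∧ (∀ t, (range fun u => φ (u, t)) ∈ F) ∧ ∃ u, φ (u, 0) = z := by
    intro z
    obtain ⟨Γ, ⟨hΓ, hz⟩, -⟩ := hpart z
    obtain ⟨φ, h1, h2, h3⟩ := htube Γ hΓ
    rw [← h2] at hz
    exact ⟨φ, h1, h3, hz⟩
  choose φ hφo hφF hφz using ht
  obtain ⟨S, -, hS⟩ := hC.elim_nhds_subcover (fun z => φ z '' (univ ×ˢ Ioo (-1) 1)) (by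
    intro z _
    obtain ⟨u, hu⟩ := hφz z
    have h2 := (hφo z).isOpenMap.image_mem_nhds (x := (u, (0:ℝ)))
      (s := univ ×ˢ Ioo (-1:ℝ) 1) ((isOpen_univ.prod isOpen_Ioo).mem_nhds (by simp))
    rw [hu] at h2
    exact h2)
  refine ⟨⋃ z ∈ S, φ z '' (univ ×ˢ Icc (-1:ℝ) 1), S.isCompact_biUnion fun z _ =>
    (isCompact_univ.prod isCompact_Icc).image (hφo z).continuous, ?_, ?_⟩
  · intro z hz
    have := hS hz
    simp only [mem_iUnion] at this ⊢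
    obtain ⟨w, hw, p, hp, hpz⟩ := this
    exact ⟨w, hw, p, ⟨hp.1, Ioo_subset_Icc_self hp.2⟩, hpz⟩
  · rintro Γ hΓ ⟨w, hw, hwC⟩
    have := hS hwC
    simp only [mem_iUnion] at this
    obtain ⟨v, hv, p, hp, hpw⟩ := this
    have h2 : (range fun u => φ v (u, p.2)) = Γ :=
      (hpart w).unique ⟨hφF v p.2, ⟨p.1, hpw⟩⟩ ⟨hΓ, hw⟩
    rw [← h2]
    rintro _ ⟨u, rfl⟩
    simp only [mem_iUnion]
    exact ⟨v, hv, (u, p.2), ⟨trivial, Ioo_subset_Icc_self hp.2⟩, rfl⟩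

end General

variable {ℓ : ℝ}

lemma coe_surjP (w : AddCircle ℓ) : ∃ s : ℝ, (s : AddCircle ℓ) = w :=
  QuotientAddGroup.mk_surjective w

lemma ric_compact {T : PC ℓ → PC ℓ} {Γ : Set (PC ℓ)} (h : IsRIC T Γ) :
    IsCompact Γ := by
  have : Fact (0 < (1:ℝ)) := ⟨one_pos⟩
  obtain ⟨c, -, -, hc, -⟩ := h
  rw [← hc]
  exact isCompact_range c.continuous

lemma ric_connected {T : PC ℓ → PC ℓ} {Γ : Set (PC ℓ)} (h : IsRIC T Γ) :
    IsPreconnected Γ := by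
  obtain ⟨c, -, -, hcΓ, -⟩ := h
  have h2 : Γ = range fun x : ℝ => c (x : AddCircle (1:ℝ)) := by
    rw [← hcΓ]
    ext z
    constructor
    · rintro ⟨u, rfl⟩
      obtain ⟨x, rfl⟩ := coe_surj u
      exact ⟨x, rfl⟩
    · rintro ⟨x, rfl⟩
      exact ⟨_, rfl⟩
  rw [h2]
  have : Continuous ((↑) : ℝ → AddCircle (1:ℝ)) := continuous_coe
  exact isPreconnected_range (by fun_prop)

lemma ric_nonempty {T : PC ℓ → PC ℓ} {Γ : Set (PC ℓ)} (h : IsRIC T Γ) :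
    Γ.Nonempty := by
  obtain ⟨c, -, -, hc, -⟩ := h
  exact ⟨c 0, by rw [← hc]; exact ⟨0, rfl⟩⟩

/-- an essential closed curve meets each vertical line -/
lemma ric_fst (hL : 0 < ℓ) {T : PC ℓ → PC ℓ} {Γ : Set (PC ℓ)} (hΓ : IsRIC T Γ)
    (w : AddCircle ℓ) : ∃ z ∈ Γ, z.1 = w := by
  obtain ⟨c, -, hn, hr, -⟩ := hΓ
  have : ContractibleSpace (Ioo (0:ℝ) ℓ) :=
    (convex_Ioo _ _).contractibleSpace (nonempty_Ioo.mpr hL)
  obtain ⟨σ, κ, hσ, hκ, h1, h2⟩ := Pool.Agent.H738R2.lift_closed_curve c hn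
  obtain ⟨s, rfl⟩ := coe_surjP w
  have hboth : ∀ s : ℝ, ∃ x, s ≤ σ x := by
    intro s
    rcases lt_or_gt_of_ne hκ with h | h
    · obtain ⟨n, hn⟩ := exists_nat_gt ((s - σ 0) / (-κ))
      refine ⟨0 + (-(n : ℤ) : ℤ), ?_⟩
      rw [add_int_of_add_one σ κ h1]
      rw [div_lt_iff₀ (by linarith)] at hn
      push_cast
      linarith
    · obtain ⟨n, hn⟩ := exists_nat_gt ((s - σ 0) / κ)
      refine ⟨0 + (n : ℤ), ?_⟩
      rw [add_int_of_add_one σ κ h1]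
      rw [div_lt_iff₀ (by linarith)] at hn
      push_cast
      linarith
  have h3 : ∃ x, σ x ≤ s := by
    rcases lt_or_gt_of_ne hκ with h | h
    · obtain ⟨n, hn⟩ := exists_nat_gt ((σ 0 - s) / (-κ))
      refine ⟨0 + (n : ℤ), ?_⟩
      rw [add_int_of_add_one σ κ h1]
      rw [div_lt_iff₀ (by linarith)] at hn
      push_cast
      linarith
    · obtain ⟨n, hn⟩ := exists_nat_gt ((σ 0 - s) / κ)
      refine ⟨0 + (-(n : ℤ) : ℤ), ?_⟩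
      rw [add_int_of_add_one σ κ h1]
      rw [div_lt_iff₀ (by linarith)] at hn
      push_cast
      linarith
  obtain ⟨x, hx⟩ := mem_range_of_exists_le_of_exists_ge hσ h3 (hboth s)
  refine ⟨c (x : AddCircle (1:ℝ)), ?_, ?_⟩
  · rw [← hr]; exact ⟨_, rfl⟩
  · rw [← h2, hx]

variable (T : PC ℓ → PC ℓ) (F : Set (Set (PC ℓ)))

lemma isCompact_level (hL : 0 < ℓ) (a : Ioo (0:ℝ) ℓ) :
    IsCompact (univ ×ˢ {a} : Set (PC ℓ)) := by
  have : Fact (0 < ℓ) := ⟨hL⟩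
  exact isCompact_univ.prod isCompact_singleton

/-- curves near the lower end -/
lemma exists_low (hL : 0 < ℓ)
    (hpart : ∀ z, ∃! Γ, Γ ∈ F ∧ z ∈ Γ) (hric : ∀ Γ ∈ F, IsRIC T Γ)
    (htube : ∀ Γ ∈ F, ∃ φ : AddCircle (1 : ℝ) × ℝ → PC ℓ, IsOpenEmbedding φ ∧
      (range fun u => φ (u, 0)) = Γ ∧ ∀ t, (range fun u => φ (u, t)) ∈ F) {η : ℝ} (hη : 0 < η) :
    ∃ Γ ∈ F, ∀ z ∈ Γ, ((z.2 : ℝ)) < η := by
  set η' : ℝ := min η (ℓ / 2) with hη'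
  have h0 : 0 < η' := lt_min hη (by linarith)
  have h1 : η' < ℓ := (min_le_right _ _).trans_lt (by linarith)
  set a : Ioo (0:ℝ) ℓ := ⟨η', h0, h1⟩ with ha
  obtain ⟨Q, hQc, hCQ, hQ⟩ := exists_compact_sat F hpart htube (isCompact_level hL a)
  have hmemC : ∀ z : PC ℓ, z ∈ (univ ×ˢ {a} : Set (PC ℓ)) ↔ (z.2 : ℝ) = η' := by
    intro z
    rw [mem_prod]
    simp only [mem_univ, true_and, mem_singleton_iff, ha]
    exact Subtype.ext_iff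
  obtain ⟨z₀, hz₀, hmin⟩ := hQc.exists_isMinOn ⟨((0 : AddCircle ℓ), a), hCQ (by rw [hmemC])⟩
    (f := fun z : PC ℓ => (z.2 : ℝ)) (by fun_prop)
  have hz₀pos := z₀.2.2.1
  have hz₀le : (z₀.2 : ℝ) ≤ η' := hmin (hCQ (show ((0 : AddCircle ℓ), a) ∈ _ by rw [hmemC]))
  set b : Ioo (0:ℝ) ℓ := ⟨(z₀.2 : ℝ) / 2, by linarith, by linarith⟩ with hb
  obtain ⟨Γ, ⟨hΓ, hz⟩, hΓu⟩ := hpart ((0 : AddCircle ℓ), b)
  refine ⟨Γ, hΓ, ?_⟩
  intro z hzΓ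
  by_contra hcon
  push Not at hcon
  have h5 : η' ≤ (z.2 : ℝ) := (min_le_left _ _).trans hcon
  obtain ⟨w, hw, hwe⟩ := (ric_connected (hric Γ hΓ)).intermediate_value hz hzΓ
    (f := fun z : PC ℓ => (z.2 : ℝ)) (by fun_prop)
    (show η' ∈ Icc ((fun z : PC ℓ => (z.2 : ℝ)) ((0 : AddCircle ℓ), b))
      ((fun z : PC ℓ => (z.2 : ℝ)) z) by
      constructor
      · change (z₀.2 : ℝ) / 2 ≤ η'
        linarith
      · exact h5)
  have h6 := hQ Γ hΓ ⟨w, hw, (hmemC w).mpr hwe⟩ hz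
  have h7 := hmin h6
  simp only [mem_ofPred_eq, hb] at h7
  linarith

/-- curves near the upper end -/
lemma exists_high (hL : 0 < ℓ)
    (hpart : ∀ z, ∃! Γ, Γ ∈ F ∧ z ∈ Γ) (hric : ∀ Γ ∈ F, IsRIC T Γ)
    (htube : ∀ Γ ∈ F, ∃ φ : AddCircle (1 : ℝ) × ℝ → PC ℓ, IsOpenEmbedding φ ∧
      (range fun u => φ (u, 0)) = Γ ∧ ∀ t, (range fun u => φ (u, t)) ∈ F) {η : ℝ} (hη : 0 < η) :
    ∃ Γ ∈ F, ∀ z ∈ Γ, ℓ - η < ((z.2 : ℝ)) := by
  set η' : ℝ := ℓ - min η (ℓ / 2) with hη'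
  have hm : 0 < min η (ℓ / 2) := lt_min hη (by linarith)
  have h0 : 0 < η' := by
    have := min_le_right η (ℓ / 2)
    linarith
  have h1 : η' < ℓ := by linarith
  set a : Ioo (0:ℝ) ℓ := ⟨η', h0, h1⟩ with ha
  obtain ⟨Q, hQc, hCQ, hQ⟩ := exists_compact_sat F hpart htube (isCompact_level hL a)
  have hmemC : ∀ z : PC ℓ, z ∈ (univ ×ˢ {a} : Set (PC ℓ)) ↔ (z.2 : ℝ) = η' := by
    intro z
    rw [mem_prod]
    simp only [mem_univ, true_and, mem_singleton_iff, ha]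
    exact Subtype.ext_iff
  obtain ⟨z₀, hz₀, hmax⟩ := hQc.exists_isMaxOn ⟨((0 : AddCircle ℓ), a), hCQ (by rw [hmemC])⟩
    (f := fun z : PC ℓ => (z.2 : ℝ)) (by fun_prop)
  have hz₀lt := z₀.2.2.2
  have hz₀le : η' ≤ (z₀.2 : ℝ) := hmax (hCQ (show ((0 : AddCircle ℓ), a) ∈ _ by rw [hmemC]))
  set b : Ioo (0:ℝ) ℓ := ⟨((z₀.2 : ℝ) + ℓ) / 2, by linarith, by linarith⟩ with hb
  obtain ⟨Γ, ⟨hΓ, hz⟩, hΓu⟩ := hpart ((0 : AddCircle ℓ), b)
  refine ⟨Γ, hΓ, ?_⟩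
  intro z hzΓ
  by_contra hcon
  push Not at hcon
  have h5 : (z.2 : ℝ) ≤ η' := by
    have := min_le_left η (ℓ / 2)
    linarith
  obtain ⟨w, hw, hwe⟩ := (ric_connected (hric Γ hΓ)).intermediate_value hzΓ hz
    (f := fun z : PC ℓ => (z.2 : ℝ)) (by fun_prop)
    (show η' ∈ Icc ((fun z : PC ℓ => (z.2 : ℝ)) z)
      ((fun z : PC ℓ => (z.2 : ℝ)) ((0 : AddCircle ℓ), b)) by
      constructor
      · exact h5
      · change η' ≤ ((z₀.2 : ℝ) + ℓ) / 2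
        linarith)
  have h6 := hQ Γ hΓ ⟨w, hw, (hmemC w).mpr hwe⟩ hz
  have h7 := hmax h6
  simp only [mem_ofPred_eq, hb] at h7
  linarith

end Pool.Agent.W714.Mink
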