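import Pool.Agent.W714.Mink.Curve
import Pool.Agent.W714.Mink.Gen

set_option autoImplicit false

/-!
# The Minkowski billiard of a curve
-/

namespace Pool.Agent.W714.Mink

open Complex Set Topology Filter
open Pool.Agent.W714.Coin (arg_mem_Ioo_of_im_pos mem_slitPlane_of_im_pos hasDerivAt_arg div_im_eq
  continuous_coe coe_surjL)

/-- generating function -/
def gS (γ : ℝ → ℂ) (g : ℂ → ℝ) (x y : ℝ) : ℝ := g (γ y - γ x)

/-- momentum at the end of a chord -/
noncomputable def gP (γ : ℝ → ℂ) (G : ℂ → ℂ) (x y : ℝ) : ℝ := ip (G (γ y - γ x)) (deriv γ y)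

/-- momentum at the start of a chord -/
noncomputable def gM (γ : ℝ → ℂ) (G : ℂ → ℂ) (x y : ℝ) : ℝ := ip (G (γ y - γ x)) (deriv γ x)

variable {γ : ℝ → ℂ} {L : ℝ} {g : ℂ → ℝ} {G : ℂ → ℂ} {R : ℝ → ℝ}

/-- chord vector -/
noncomputable def vv (h : RCurve γ L) (w : AddCircle L) (x : ℝ) : ℂ :=
  gb h (w + (x : AddCircle L)) - gb h w

lemma vv_coe (h : RCurve γ L) (s x : ℝ) : vv h (s : AddCircle L) x = γ (s + x) - γ s := by
  rw [vv, ← AddCircle.coe_add, gb_coe, gb_coe]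

lemma continuous_vv (h : RCurve γ L) : Continuous fun p : AddCircle L × ℝ => vv h p.1 p.2 := by
  have h1 := continuous_gb h
  have h3 : Continuous ((↑) : ℝ → AddCircle L) := continuous_coe
  unfold vv
  fun_prop

lemma vv_ne (h : RCurve γ L) (w : AddCircle L) {x : ℝ} (hx : x ∈ Ioo 0 L) : vv h w x ≠ 0 := by
  obtain ⟨s, rfl⟩ := coe_surjL w
  rw [vv_coe]
  exact sub_ne_zero.mpr (gamma_ne h s hx)

lemma gd_ne (h : RCurve γ L) (w : AddCircle L) : gd h w ≠ 0 := by
  obtain ⟨s, rfl⟩ := coe_surjL w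
  exact h.reg s

lemma vv_A (h : RCurve γ L) (w : AddCircle L) (x : ℝ) :
    vv h w x = ((‖vv h w x‖ / ‖gd h w‖ : ℝ) : ℂ) * (exp (angA h w x * I) * gd h w) := by
  have h1 := norm_mul_exp_arg_mul_I (ZA h w x)
  have h2 : ‖ZA h w x‖ = ‖gd h w‖ * ‖vv h w x‖ := by
    rw [ZA, norm_mul, Complex.norm_conj]; rfl
  have h3 : ZA h w x = (starRingEnd ℂ) (gd h w) * vv h w x := rfl
  have h4 : (starRingEnd ℂ) (gd h w) * gd h w = ((‖gd h w‖ : ℝ) : ℂ) ^ 2 := by
    rw [mul_comm, Complex.mul_conj, Complex.normSq_eq_norm_sq]; push_cast; rfl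
  have h5 : ((‖gd h w‖ : ℝ) : ℂ) ≠ 0 := by
    exact_mod_cast (norm_pos_iff.mpr (gd_ne h w)).ne'
  rw [h2] at h1
  rw [angA]
  generalize exp (arg (ZA h w x) * I) = E at h1 ⊢
  rw [h3] at h1
  push_cast
  push_cast at h1
  field_simp
  apply mul_left_cancel₀ h5
  linear_combination (-gd h w) * h1 - vv h w x * h4

lemma vv_B (h : RCurve γ L) (w : AddCircle L) (x : ℝ) :
    vv h w x = ((‖vv h w x‖ / ‖gd h (w + (x : AddCircle L))‖ : ℝ) : ℂ) *
      (exp (((-angB h w x : ℝ) : ℂ) * I) * gd h (w + (x : AddCircle L))) := by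
  set u := gd h (w + (x : AddCircle L)) with hu
  have h1 := congrArg (starRingEnd ℂ) (norm_mul_exp_arg_mul_I (ZB h w x))
  have h2 : ‖ZB h w x‖ = ‖vv h w x‖ * ‖u‖ := by
    rw [ZB, norm_mul, Complex.norm_conj]; rfl
  have h3 : ZB h w x = (starRingEnd ℂ) (vv h w x) * u := rfl
  have h4 : (starRingEnd ℂ) u * u = ((‖u‖ : ℝ) : ℂ) ^ 2 := by
    rw [mul_comm, Complex.mul_conj, Complex.normSq_eq_norm_sq]; push_cast; rfl
  have hune : u ≠ 0 := gd_ne h _
  have h5 : ((‖u‖ : ℝ) : ℂ) ≠ 0 := by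
    exact_mod_cast (norm_pos_iff.mpr hune).ne'
  rw [h2, map_mul, conj_ofReal, ← exp_conj, map_mul, conj_I, conj_ofReal, h3, map_mul,
    Complex.conj_conj] at h1
  have e : arg ((starRingEnd ℂ) (vv h w x) * u) * -I = ((-angB h w x : ℝ) : ℂ) * I := by
    rw [angB, h3]; push_cast; ring
  rw [e] at h1
  generalize exp (((-angB h w x : ℝ) : ℂ) * I) = E at h1 ⊢
  push_cast
  push_cast at h1
  field_simp
  apply mul_left_cancel₀ h5
  linear_combination (-u) * h1 - vv h w x * h4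

lemma G_vv_A (hN : Nrm g G R) (h : RCurve γ L) (w : AddCircle L) {x : ℝ} (hx : x ∈ Ioo 0 L) :
    G (vv h w x) = G (exp (angA h w x * I) * gd h w) := by
  have h1 := hN.scale (‖vv h w x‖ / ‖gd h w‖)
    (div_pos (norm_pos_iff.mpr (vv_ne h w hx)) (norm_pos_iff.mpr (gd_ne h w)))
    (exp (angA h w x * I) * gd h w)
  rwa [← vv_A] at h1

lemma G_vv_B (hN : Nrm g G R) (h : RCurve γ L) (w : AddCircle L) {x : ℝ} (hx : x ∈ Ioo 0 L) :
    G (vv h w x) = G (exp (((-angB h w x : ℝ) : ℂ) * I) * gd h (w + (x : AddCircle L))) := by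
  have h1 := hN.scale (‖vv h w x‖ / ‖gd h (w + (x : AddCircle L))‖)
    (div_pos (norm_pos_iff.mpr (vv_ne h w hx)) (norm_pos_iff.mpr (gd_ne h _)))
    (exp (((-angB h w x : ℝ) : ℂ) * I) * gd h (w + (x : AddCircle L)))
  rwa [← vv_B] at h1

/-- momentum at the start, on the circle -/
noncomputable def Mt (G : ℂ → ℂ) (h : RCurve γ L) (w : AddCircle L) (x : ℝ) : ℝ :=
  ip (G (vv h w x)) (gd h w)

/-- momentum at the end, on the circle -/
noncomputable def Pt (G : ℂ → ℂ) (h : RCurve γ L) (w : AddCircle L) (x : ℝ) : ℝ :=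
  ip (G (vv h w x)) (gd h (w + (x : AddCircle L)))

lemma Mt_coe (h : RCurve γ L) (s x : ℝ) : Mt G h (s : AddCircle L) x = gM γ G s (s + x) := by
  rw [Mt, vv_coe, gM, gd_coe]

lemma Pt_coe (h : RCurve γ L) (s x : ℝ) : Pt G h (s : AddCircle L) x = gP γ G s (s + x) := by
  rw [Pt, vv_coe, gP, ← AddCircle.coe_add, gd_coe]

lemma Mt_eq (hN : Nrm g G R) (h : RCurve γ L) (w : AddCircle L) {x : ℝ} (hx : x ∈ Ioo 0 L) :
    Mt G h w x = ip (G (exp (angA h w x * I) * gd h w)) (gd h w) := by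
  rw [Mt, G_vv_A hN h w hx]

lemma Pt_eq (hN : Nrm g G R) (h : RCurve γ L) (w : AddCircle L) {x : ℝ} (hx : x ∈ Ioo 0 L) :
    Pt G h w x = ip (G (exp (((-angB h w x : ℝ) : ℂ) * I) * gd h (w + (x : AddCircle L))))
      (gd h (w + (x : AddCircle L))) := by
  rw [Pt, G_vv_B hN h w hx]

lemma continuousAt_Gvv (hN : Nrm g G R) (h : RCurve γ L) (w : AddCircle L) {x : ℝ}
    (hx : x ∈ Ioo 0 L) : ContinuousAt (fun p : AddCircle L × ℝ => G (vv h p.1 p.2)) (w, x) :=
  ContinuousAt.comp (f := fun p : AddCircle L × ℝ => vv h p.1 p.2) (x := (w, x))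
    (hN.cont _ (vv_ne h w hx)) (continuous_vv h).continuousAt

lemma continuousAt_Mt (hN : Nrm g G R) (h : RCurve γ L) (w : AddCircle L) {x : ℝ}
    (hx : x ∈ Ioo 0 L) : ContinuousAt (fun p : AddCircle L × ℝ => Mt G h p.1 p.2) (w, x) := by
  have h1 := continuous_gd h
  exact ContinuousAt.ip' (continuousAt_Gvv hN h w hx) (by fun_prop)

lemma continuousAt_Pt (hN : Nrm g G R) (h : RCurve γ L) (w : AddCircle L) {x : ℝ}
    (hx : x ∈ Ioo 0 L) : ContinuousAt (fun p : AddCircle L × ℝ => Pt G h p.1 p.2) (w, x) := by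
  have h1 := continuous_gd h
  have h3 : Continuous ((↑) : ℝ → AddCircle L) := continuous_coe
  exact ContinuousAt.ip' (continuousAt_Gvv hN h w hx) (by fun_prop)

lemma strictAnti_Mt (hN : Nrm g G R) (h : RCurve γ L) (w : AddCircle L) :
    StrictAntiOn (fun x : ℝ => Mt G h w x) (Ioo 0 L) := by
  intro a ha b hb hab
  simp only [Mt_eq hN h w ha, Mt_eq hN h w hb]
  exact hN.m_anti (gd_ne h w) (Ioo_subset_Icc_self (angA_mem h w ha))
    (Ioo_subset_Icc_self (angA_mem h w hb)) (strictMonoOn_angA h w ha hb hab)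

lemma strictAnti_Pt (hN : Nrm g G R) (h : RCurve γ L) (w : AddCircle L) :
    StrictAntiOn (fun x : ℝ => Pt G h (w - (x : AddCircle L)) x) (Ioo 0 L) := by
  intro a ha b hb hab
  simp only [Pt_eq hN h _ ha, Pt_eq hN h _ hb, sub_add_cancel]
  have h1 := angB_mem h (w - (a : AddCircle L)) ha
  have h2 := angB_mem h (w - (b : AddCircle L)) hb
  have h3 : angB h (w - (a : AddCircle L)) a < angB h (w - (b : AddCircle L)) b :=
    strictMonoOn_angB h w ha hb hab
  exact hN.m_mono (gd_ne h w) ⟨by linarith [h2.2], by linarith [h2.1]⟩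
    ⟨by linarith [h1.2], by linarith [h1.1]⟩ (by linarith)

lemma Pt_mem (hN : Nrm g G R) (h : RCurve γ L) (w : AddCircle L) {x : ℝ} (hx : x ∈ Ioo 0 L) :
    Pt G h w x ∈ Ioo (-g (-gd h (w + (x : AddCircle L)))) (g (gd h (w + (x : AddCircle L)))) := by
  rw [Pt_eq hN h w hx]
  have h1 := angB_mem h w hx
  have hu := gd_ne h (w + (x : AddCircle L))
  have hpi := Real.pi_pos
  constructor
  · rw [← hN.m_neg_pi hu]
    exact hN.m_mono hu ⟨le_rfl, by linarith⟩ ⟨by linarith [h1.2], by linarith [h1.1]⟩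
      (by linarith [h1.2])
  · rw [← hN.m_zero hu]
    exact hN.m_mono hu ⟨by linarith [h1.2], by linarith [h1.1]⟩ ⟨by linarith, le_rfl⟩
      (by linarith [h1.1])

lemma Mt_mem (hN : Nrm g G R) (h : RCurve γ L) (w : AddCircle L) {x : ℝ} (hx : x ∈ Ioo 0 L) :
    Mt G h w x ∈ Ioo (-g (-gd h w)) (g (gd h w)) := by
  rw [Mt_eq hN h w hx]
  have h1 := angA_mem h w hx
  have hu := gd_ne h w
  have hpi := Real.pi_pos
  constructor
  · rw [← hN.m_pi hu]
    exact hN.m_anti hu ⟨h1.1.le, h1.2.le⟩ ⟨hpi.le, le_rfl⟩ h1.2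
  · rw [← hN.m_zero hu]
    exact hN.m_anti hu ⟨le_rfl, hpi.le⟩ ⟨h1.1.le, h1.2.le⟩ h1.1

lemma exists_Mt_eq (hN : Nrm g G R) (h : RCurve γ L) (w : AddCircle L) {r : ℝ}
    (hr : r ∈ Ioo (-g (-gd h w)) (g (gd h w))) : ∃ x ∈ Ioo 0 L, Mt G h w x = r := by
  have hu := gd_ne h w
  have hpi := Real.pi_pos
  have hc : ContinuousOn (fun τ : ℝ => ip (G (exp (τ * I) * gd h w)) (gd h w)) (Icc 0 Real.pi) :=
    fun τ _ => (hN.hasDerivAt_m hu τ).continuousAt.continuousWithinAt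
  have h1 := intermediate_value_Ioo' hpi.le hc
  obtain ⟨α, hα, hαr⟩ := h1 (show r ∈ Ioo _ _ by
    rw [hN.m_pi hu, hN.m_zero hu]
    exact hr)
  obtain ⟨x, hx, hxα⟩ := exists_angA_eq h w hα
  refine ⟨x, hx, ?_⟩
  rw [Mt_eq hN h w hx, hxα]
  exact hαr

lemma exists_Pt_eq (hN : Nrm g G R) (h : RCurve γ L) (w : AddCircle L) {r : ℝ}
    (hr : r ∈ Ioo (-g (-gd h w)) (g (gd h w))) :
    ∃ x ∈ Ioo 0 L, Pt G h (w - (x : AddCircle L)) x = r := by
  have hu := gd_ne h w
  have hpi := Real.pi_pos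
  have hc : ContinuousOn (fun τ : ℝ => ip (G (exp (τ * I) * gd h w)) (gd h w))
      (Icc (-Real.pi) 0) :=
    fun τ _ => (hN.hasDerivAt_m hu τ).continuousAt.continuousWithinAt
  have h1 := intermediate_value_Ioo (show -Real.pi ≤ 0 by linarith) hc
  obtain ⟨α, hα, hαr⟩ := h1 (show r ∈ Ioo _ _ by
    rw [hN.m_neg_pi hu, hN.m_zero hu]
    exact hr)
  obtain ⟨x, hx, hxα⟩ := exists_angB_eq h w (α := -α) ⟨by linarith [hα.2], by linarith [hα.1]⟩
  refine ⟨x, hx, ?_⟩
  rw [Pt_eq hN h _ hx, hxα, neg_neg, sub_add_cancel]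
  exact hαr

/-- the system is a generating function -/
lemma isGen (hN : Nrm g G R) (h : RCurve γ L) : IsGen L (gS γ g) (gP γ G) (gM γ G) := by
  have hL := h.pos
  have hd := hasDerivAt h
  have hvne : ∀ x y : ℝ, x < y → y < x + L → γ y - γ x ≠ 0 := by
    intro x y h1 h2
    have := gamma_ne h x (x := y - x) ⟨by linarith, by linarith⟩
    rw [show x + (y - x) = y by ring] at this
    exact sub_ne_zero.mpr this
  refine ⟨hL, ?_, ?_, ?_, ?_, ?_, ?_, ?_⟩
  · intro x y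
    simp only [gM]
    rw [h.per, h.per, periodic_deriv h]
  · intro x y h1 h2
    exact hN.diff _ (hvne x y h1 h2) (fun t => γ t - γ x) (deriv γ y) y ((hd y).sub_const _) rfl
  · intro x y h1 h2
    have h3 := hN.diff _ (hvne x y h1 h2) (fun t => γ y - γ t) (-deriv γ x) x
      ((hd x).const_sub _) rfl
    rw [ip_neg] at h3
    exact h3
  · intro x y h1 h2
    have hc1 : Continuous fun p : ℝ × ℝ => γ p.2 - γ p.1 := by
      have := h.smooth.continuous
      fun_prop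
    have hc2 := continuous_deriv' h
    exact ContinuousAt.ip' (ContinuousAt.comp (f := fun p : ℝ × ℝ => γ p.2 - γ p.1) (x := (x, y))
      (hN.cont _ (hvne x y h1 h2)) hc1.continuousAt) (by fun_prop)
  · intro x x' y h1 h2 h3
    have h4 := strictAnti_Pt hN h (y : AddCircle L) (a := y - x') (b := y - x)
      ⟨by linarith, by linarith⟩ ⟨by linarith, by linarith⟩ (by linarith)
    simp only [← AddCircle.coe_sub] at h4
    rw [Pt_coe, Pt_coe] at h4
    simp only [sub_sub_cancel, add_sub_cancel] at h4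
    exact h4
  · intro x y y' h1 h2 h3
    have h4 := strictAnti_Mt hN h (x : AddCircle L) (a := y - x) (b := y' - x)
      ⟨by linarith, by linarith⟩ ⟨by linarith, by linarith⟩ (by linarith)
    simp only at h4
    rw [Mt_coe, Mt_coe] at h4
    simp only [add_sub_cancel] at h4
    exact h4
  · obtain ⟨B, hB, hB'⟩ := hN.exists_G_bound
    obtain ⟨C, hC⟩ := isCompact_Icc.exists_bound_of_continuousOn (s := Icc 0 L)
      (continuous_deriv' h).continuousOn
    refine ⟨B * |C|, by positivity, fun x y h1 h2 => ?_⟩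
    refine (abs_ip_le _ _).trans (mul_le_mul (hB' _ (hvne x y h1 h2)) ?_ (norm_nonneg _) hB.le)
    obtain ⟨x', hx', he⟩ := (periodic_deriv h).exists_mem_Ico₀ hL x
    rw [he]
    exact (hC x' ⟨hx'.1, hx'.2.le⟩).trans (le_abs_self _)

/-- the parameter length of the next chord -/
lemma exists_next (hN : Nrm g G R) (h : RCurve γ L) (z : PC L) :
    ∃ y ∈ Ioo 0 L, Mt G h (z.1 + (((z.2 : ℝ)) : AddCircle L)) y = Pt G h z.1 z.2 :=
  exists_Mt_eq hN h _ (Pt_mem hN h z.1 z.2.2)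

/-- the parameter length of the next chord -/
noncomputable def nexty (hN : Nrm g G R) (h : RCurve γ L) (z : PC L) : ℝ :=
  (exists_next hN h z).choose

lemma nexty_mem (hN : Nrm g G R) (h : RCurve γ L) (z : PC L) : nexty hN h z ∈ Ioo 0 L :=
  (exists_next hN h z).choose_spec.1

lemma nexty_eq (hN : Nrm g G R) (h : RCurve γ L) (z : PC L) :
    Mt G h (z.1 + (((z.2 : ℝ)) : AddCircle L)) (nexty hN h z) = Pt G h z.1 z.2 :=
  (exists_next hN h z).choose_spec.2

lemma nexty_unique (hN : Nrm g G R) (h : RCurve γ L) {z : PC L} {y : ℝ} (hy : y ∈ Ioo 0 L)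
    (he : Mt G h (z.1 + (((z.2 : ℝ)) : AddCircle L)) y = Pt G h z.1 z.2) : nexty hN h z = y := by
  apply (strictAnti_Mt hN h _).injOn (nexty_mem hN h z) hy
  simp only
  rw [nexty_eq, he]

lemma lt_nexty_iff (hN : Nrm g G R) (h : RCurve γ L) (z : PC L) {y : ℝ} (hy : y ∈ Ioo 0 L) :
    y < nexty hN h z ↔ Pt G h z.1 z.2 < Mt G h (z.1 + (((z.2 : ℝ)) : AddCircle L)) y := by
  rw [← nexty_eq hN h z]
  exact ((strictAnti_Mt hN h _).lt_iff_gt (nexty_mem hN h z) hy).symm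

lemma nexty_lt_iff (hN : Nrm g G R) (h : RCurve γ L) (z : PC L) {y : ℝ} (hy : y ∈ Ioo 0 L) :
    nexty hN h z < y ↔ Mt G h (z.1 + (((z.2 : ℝ)) : AddCircle L)) y < Pt G h z.1 z.2 := by
  rw [← nexty_eq hN h z]
  exact ((strictAnti_Mt hN h _).lt_iff_gt hy (nexty_mem hN h z)).symm

lemma continuous_nexty (hN : Nrm g G R) (h : RCurve γ L) : Continuous (nexty hN h) := by
  rw [continuous_iff_continuousAt]
  intro z
  have hz := nexty_mem hN h z
  have hcoe : Continuous ((↑) : ℝ → AddCircle L) := continuous_coe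
  have hc : ∀ y ∈ Ioo 0 L, ContinuousAt
      (fun z' : PC L => Mt G h (z'.1 + (((z'.2 : ℝ)) : AddCircle L)) y) z := by
    intro y hy
    have h1 := continuousAt_Mt hN h (z.1 + (((z.2 : ℝ)) : AddCircle L)) hy
    exact ContinuousAt.comp (f := fun z' : PC L => (z'.1 + (((z'.2 : ℝ)) : AddCircle L), y)) (x := z)
      h1 (by fun_prop)
  have hc2 : ContinuousAt (fun z' : PC L => Pt G h z'.1 z'.2) z := by
    have h1 := continuousAt_Pt hN h z.1 z.2.2
    exact ContinuousAt.comp (f := fun z' : PC L => (z'.1, (z'.2 : ℝ))) (x := z) h1 (by fun_prop)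
  apply tendsto_order.2
  constructor
  · intro a ha
    obtain ⟨x, hx1, hx2⟩ := exists_between (max_lt ha hz.1)
    have hx : x ∈ Ioo 0 L := ⟨(le_max_right _ _).trans_lt hx1, hx2.trans hz.2⟩
    have h1 := (lt_nexty_iff hN h z hx).mp hx2
    filter_upwards [hc2.eventually_lt (hc x hx) h1] with z' hz'
    exact ((le_max_left _ _).trans_lt hx1).trans ((lt_nexty_iff hN h z' hx).mpr hz')
  · intro a ha
    obtain ⟨x, hx1, hx2⟩ := exists_between (lt_min ha hz.2)
    have hx : x ∈ Ioo 0 L := ⟨hz.1.trans hx1, hx2.trans_le (min_le_right _ _)⟩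
    have h1 := (nexty_lt_iff hN h z hx).mp hx1
    filter_upwards [(hc x hx).eventually_lt hc2 h1] with z' hz'
    exact ((nexty_lt_iff hN h z' hx).mpr hz').trans (hx2.trans_le (min_le_left _ _))

/-- the Minkowski billiard map on the space of chords -/
noncomputable def tm (hN : Nrm g G R) (h : RCurve γ L) (z : PC L) : PC L :=
  (z.1 + (((z.2 : ℝ)) : AddCircle L), ⟨nexty hN h z, nexty_mem hN h z⟩)

lemma continuous_tm (hN : Nrm g G R) (h : RCurve γ L) : Continuous (tm hN h) := by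
  have h1 := continuous_nexty hN h
  have hcoe : Continuous ((↑) : ℝ → AddCircle L) := continuous_coe
  unfold tm
  fun_prop

lemma injective_tm (hN : Nrm g G R) (h : RCurve γ L) : Function.Injective (tm hN h) := by
  intro z z' he
  have h1 : z.1 + (((z.2 : ℝ)) : AddCircle L) = z'.1 + (((z'.2 : ℝ)) : AddCircle L) :=
    congrArg Prod.fst he
  have h2 : nexty hN h z = nexty hN h z' := congrArg (fun z : PC L => (z.2 : ℝ)) he
  have h3 := nexty_eq hN h z
  have h4 := nexty_eq hN h z'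
  rw [h1, h2, h4] at h3
  have e1 : z.1 = z'.1 + (((z'.2 : ℝ)) : AddCircle L) - (((z.2 : ℝ)) : AddCircle L) := by
    rw [← h1, add_sub_cancel_right]
  have e2 : z'.1 = z'.1 + (((z'.2 : ℝ)) : AddCircle L) - (((z'.2 : ℝ)) : AddCircle L) := by
    rw [add_sub_cancel_right]
  rw [e1] at h3
  nth_rewrite 1 [e2] at h3
  have h5 := (strictAnti_Pt hN h (z'.1 + (((z'.2 : ℝ)) : AddCircle L))).injOn z'.2.2 z.2.2 h3
  have h6 : z.2 = z'.2 := Subtype.ext h5.symm
  refine Prod.ext ?_ h6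
  rw [h6] at h1
  exact add_right_cancel h1

lemma isMap_tm (hN : Nrm g G R) (h : RCurve γ L) : IsMap (gP γ G) (gM γ G) (tm hN h) := by
  intro x y
  constructor
  · change (x : AddCircle L) + (((y : ℝ)) : AddCircle L) = _
    rw [AddCircle.coe_add]
  · have h1 := nexty_eq hN h ((x : AddCircle L), y)
    simp only at h1
    rw [← AddCircle.coe_add, Mt_coe, Pt_coe] at h1
    exact h1

lemma eq_tm (hN : Nrm g G R) (h : RCurve γ L) {T : PC L → PC L}
    (hT : IsMap (gP γ G) (gM γ G) T) : T = tm hN h := by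
  funext z
  obtain ⟨x, hx⟩ := coe_surjP z.1
  obtain ⟨h1, h2⟩ := hT x z.2
  have hz : z = ((x : AddCircle L), z.2) := Prod.ext hx.symm rfl
  rw [← hz] at h1 h2
  refine Prod.ext ?_ (Subtype.ext ?_)
  · rw [h1, AddCircle.coe_add, hx]; rfl
  · rw [← Mt_coe h, ← Pt_coe h, AddCircle.coe_add, hx] at h2
    exact (nexty_unique hN h (T z).2.2 h2).symm

end Pool.Agent.W714.Mink
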